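import Pool.Agent.N686.DI.Ener3
import Pool.Agent.N686.EL.Core
set_option autoImplicit false

/-!
The inequality for the Fourier coefficients of the logarithms on a disc.
-/

namespace Pool.Agent.N686.DI

open MeasureTheory Set Filter Topology Metric Polynomial

open Pool.Agent.TH826.MK (circ norm_circ circ_add_one contDiff_circ hasDerivAt_circ circ_eq)

open Pool.Agent.Y775.CC

open Pool.Agent.N686.EL (cs sn continuous_cs continuous_sn cs_zero circ_eq_mul exists_log2 psi_comm
  re_int2 swap_cont circ_one_pow_nat circ_one_pow_neg)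

set_option maxHeartbeats 400000

section mean

variable {V : Set ℂ} {R : ℝ} (hR : 0 < R) (hV : ∀ z : ℂ, ‖z‖ ≤ R → z ∈ V) {g : ℂ → ℂ}
  (hg : DifferentiableOn ℂ g V)

include hR hV hg

/-- The mean value property. -/
theorem mean_eq : ∫ t in (0 : ℝ)..1, g (circ R t) = g 0 := by
  have h1 : Real.circleAverage g 0 R = ∫ t in (0 : ℝ)..1, g (circ R t) :=
    circleAverage_eq_circ g R
  rw [← h1]
  have h2 : DiffContOnCl ℂ g (ball 0 R) := by
    refine DifferentiableOn.diffContOnCl ?_
    rw [closure_ball _ hR.ne']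
    exact hg.mono fun z hz => hV z (by simpa using hz)
  have h3 : DiffContOnCl ℂ g (ball 0 |R|) := by
    rw [abs_of_pos hR]
    exact h2
  exact h3.circleAverage

/-- Orthogonality to the positive harmonics. -/
theorem int_mul_pos (hVo : IsOpen V) {m : ℕ} (hm : 1 ≤ m) :
    ∫ t in (0 : ℝ)..1, g (circ R t) * ((cs m t : ℂ) + (sn m t : ℂ) * Complex.I) = 0 := by
  have h1 : DifferentiableOn ℂ (fun z => g z * z ^ m) V := hg.mul (by fun_prop)
  have h2 := mean_eq hR hV h1
  rw [zero_pow (by omega), mul_zero] at h2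
  have h3 : ∀ t, g (circ R t) * circ R t ^ m =
      (R : ℂ) ^ m * (g (circ R t) * ((cs m t : ℂ) + (sn m t : ℂ) * Complex.I)) := by
    intro t
    rw [← circ_one_pow_nat, zpow_natCast, circ_eq_mul, mul_pow]
    ring
  simp only [h3] at h2
  rw [intervalIntegral.integral_const_mul] at h2
  have hRc : (R : ℂ) ^ m ≠ 0 := pow_ne_zero _ (by exact_mod_cast hR.ne')
  exact (mul_eq_zero.1 h2).resolve_left hRc

omit hg in
theorem cont_g (hg : DifferentiableOn ℂ g V) : Continuous fun t => g (circ R t) :=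
  hg.continuousOn.comp_continuous (cont_circ R) (cmem hR hV)

theorem int_sn_eq (hVo : IsOpen V) {m : ℕ} (hm : 1 ≤ m) :
    ∫ t in (0 : ℝ)..1, g (circ R t) * (sn m t : ℂ) =
      Complex.I * ∫ t in (0 : ℝ)..1, g (circ R t) * (cs m t : ℂ) := by
  have hgc := cont_g hR hV hg
  have h1 := int_mul_pos hR hV hg hVo hm
  have c1 : Continuous fun t => g (circ R t) * (cs m t : ℂ) :=
    hgc.mul (Complex.continuous_ofReal.comp (continuous_cs m))
  have c2 : Continuous fun t => g (circ R t) * (sn m t : ℂ) :=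
    hgc.mul (Complex.continuous_ofReal.comp (continuous_sn m))
  have h2 : ∀ t, g (circ R t) * ((cs m t : ℂ) + (sn m t : ℂ) * Complex.I) =
      g (circ R t) * (cs m t : ℂ) + g (circ R t) * (sn m t : ℂ) * Complex.I := fun t => by ring
  simp only [h2] at h1
  have c3 : Continuous fun t => g (circ R t) * (sn m t : ℂ) * Complex.I :=
    c2.mul continuous_const
  rw [intervalIntegral.integral_add (c1.intervalIntegrable _ _)
    (c3.intervalIntegrable _ _), intervalIntegral.integral_mul_const] at h1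
  have hI := Complex.I_mul_I
  linear_combination (-Complex.I) * h1 + (∫ t in (0 : ℝ)..1, g (circ R t) * (sn m t : ℂ)) * hI

/-- the rotated density -/
theorem int_tp_rot (hVo : IsOpen V) (a b : ℕ → ℝ) (M : ℕ) :
    ∫ t in (0 : ℝ)..1, g (circ R t) * (tp (fun k => -b k) a M t : ℂ) =
      Complex.I * ∫ t in (0 : ℝ)..1, g (circ R t) * (tp a b M t : ℂ) := by
  have hgc := cont_g hR hV hg
  have c1 : ∀ m, Continuous fun t => g (circ R t) * (cs m t : ℂ) := fun m =>
    hgc.mul (Complex.continuous_ofReal.comp (continuous_cs m))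
  have c2 : ∀ m, Continuous fun t => g (circ R t) * (sn m t : ℂ) := fun m =>
    hgc.mul (Complex.continuous_ofReal.comp (continuous_sn m))
  have key : ∀ a b : ℕ → ℝ, ∫ t in (0 : ℝ)..1, g (circ R t) * (tp a b M t : ℂ) =
      ∑ k ∈ Finset.Icc 1 M, ((a k : ℂ) + (b k : ℂ) * Complex.I) *
        ∫ t in (0 : ℝ)..1, g (circ R t) * (cs k t : ℂ) := by
    intro a b
    have h1 : ∀ t, g (circ R t) * (tp a b M t : ℂ) = ∑ k ∈ Finset.Icc 1 M,
        ((a k : ℂ) * (g (circ R t) * (cs k t : ℂ)) + (b k : ℂ) * (g (circ R t) * (sn k t : ℂ))) := by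
      intro t
      unfold tp
      push_cast
      rw [Finset.mul_sum]
      exact Finset.sum_congr rfl fun k _ => by ring
    have c3 : ∀ k, Continuous fun t => (a k : ℂ) * (g (circ R t) * (cs k t : ℂ)) := fun k =>
      continuous_const.mul (c1 k)
    have c4 : ∀ k, Continuous fun t => (b k : ℂ) * (g (circ R t) * (sn k t : ℂ)) := fun k =>
      continuous_const.mul (c2 k)
    have c5 : ∀ k, Continuous fun t => (a k : ℂ) * (g (circ R t) * (cs k t : ℂ)) +
        (b k : ℂ) * (g (circ R t) * (sn k t : ℂ)) := fun k => (c3 k).add (c4 k)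
    simp only [h1]
    rw [intervalIntegral.integral_finsetSum fun k _ => (c5 k).intervalIntegrable _ _]
    refine Finset.sum_congr rfl fun k hk => ?_
    rw [intervalIntegral.integral_add ((c3 k).intervalIntegrable _ _)
      ((c4 k).intervalIntegrable _ _), intervalIntegral.integral_const_mul,
      intervalIntegral.integral_const_mul, int_sn_eq hR hV hg hVo (Finset.mem_Icc.1 hk).1]
    ring
  rw [key, key, Finset.mul_sum]
  refine Finset.sum_congr rfl fun k _ => ?_
  push_cast
  have hI := Complex.I_mul_I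
  linear_combination (-(b k : ℂ) * ∫ t in (0 : ℝ)..1, g (circ R t) * (cs k t : ℂ)) * hI

/-- the real part of the mean -/
theorem mean_re (hVo : IsOpen V) : ∫ t in (0 : ℝ)..1, (g (circ R t)).re = (g 0).re := by
  have h8 := Complex.reCLM.intervalIntegral_comp_comm
    ((cont_g hR hV hg).intervalIntegrable (μ := volume) 0 1)
  simp only [Complex.reCLM_apply] at h8
  rw [h8, mean_eq hR hV hg]

end mean

section

variable {G : ℂ[X]} {n : ℕ} {V : Set ℂ} {φ : Fin n → ℂ → ℂ} (H : Branches G V φ) {R : ℝ}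
  (hR : 0 < R) (hV : ∀ z : ℂ, ‖z‖ ≤ R → z ∈ V)

include H hR hV

omit H in
theorem zero_mem' : (0 : ℂ) ∈ V := hV 0 (by rw [norm_zero]; exact hR.le)

theorem mean_lp_left (i j : Fin n) {w : ℂ} (hw : w ∈ V) :
    ∫ t in (0 : ℝ)..1, Real.log ‖psi φ i j w (circ R t)‖ = Real.log ‖psi φ i j w 0‖ := by
  obtain ⟨A, hA, hre, hA1, hA2⟩ := exists_log2 H i j
  have h1 := mean_re hR hV (hA1 w hw) H.isOpen
  simp only [hre _ (cmem hR hV _) w hw, hre _ (zero_mem' hR hV) w hw] at h1
  exact h1

theorem mean_lp_right (i j : Fin n) {w : ℂ} (hw : w ∈ V) :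
    ∫ t in (0 : ℝ)..1, Real.log ‖psi φ i j (circ R t) w‖ = Real.log ‖psi φ i j 0 w‖ := by
  obtain ⟨A, hA, hre, hA1, hA2⟩ := exists_log2 H i j
  have h1 := mean_re hR hV (hA2 w hw) H.isOpen
  simp only [hre w hw _ (cmem hR hV _), hre w hw _ (zero_mem' hR hV)] at h1
  exact h1

theorem eA_one_left (i j : Fin n) (g : ℝ → ℝ) : eA φ R i j (fun _ => 1) g =
    ∫ θ in (0 : ℝ)..1, Real.log ‖psi φ i j (circ R θ) 0‖ * g θ := by
  unfold eA lp
  simp only [mul_one, mean_lp_left H hR hV i j (cmem hR hV _)]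

theorem eA_one_right (i j : Fin n) {f : ℝ → ℝ} (hf : Continuous f) :
    eA φ R i j f (fun _ => 1) =
      ∫ t in (0 : ℝ)..1, Real.log ‖psi φ i j 0 (circ R t)‖ * f t := by
  unfold eA
  simp only [mul_one]
  have hc : Continuous (Function.uncurry fun θ t => lp φ R i j t θ * f t) :=
    (continuous_lp H hR hV i j).mul (hf.comp continuous_snd)
  rw [swap_cont hc]
  refine intervalIntegral.integral_congr fun t _ => ?_
  rw [intervalIntegral.integral_mul_const]
  congr 1
  exact mean_lp_right H hR hV i j (cmem hR hV t)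

theorem eA_one_one (i j : Fin n) : eA φ R i j (fun _ => 1) (fun _ => 1) =
    Real.log ‖psi φ i j 0 0‖ := by
  rw [eA_one_left H hR hV]
  simp only [mul_one]
  exact mean_lp_right H hR hV i j (zero_mem' hR hV)

/-- bilinearity -/
theorem eA_expand (i j : Fin n) (c d : ℝ) {f g : ℝ → ℝ} (hf : Continuous f) (hg : Continuous g) :
    eA φ R i j (fun t => c + f t) (fun t => d + g t) =
      c * d * eA φ R i j (fun _ => 1) (fun _ => 1) + c * eA φ R i j (fun _ => 1) g +
      d * eA φ R i j f (fun _ => 1) + eA φ R i j f g := by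
  have hl : Continuous fun p : ℝ × ℝ => lp φ R i j p.2 p.1 := continuous_lp H hR hV i j
  have hl1 := continuous_lp1 H hR hV i j
  have i1 : Continuous fun θ => ∫ t in (0 : ℝ)..1, lp φ R i j t θ * 1 :=
    continuous_lp_int H hR hV i j (f := fun _ => 1) continuous_const
  have i2 : Continuous fun θ => ∫ t in (0 : ℝ)..1, lp φ R i j t θ * f t :=
    continuous_lp_int H hR hV i j hf
  have e1 : ∀ θ, (∫ t in (0 : ℝ)..1, lp φ R i j t θ * (c + f t)) =
      c * (∫ t in (0 : ℝ)..1, lp φ R i j t θ * 1) +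
        ∫ t in (0 : ℝ)..1, lp φ R i j t θ * f t := by
    intro θ
    have e2 : ∀ t, lp φ R i j t θ * (c + f t) = c * (lp φ R i j t θ * 1) +
        lp φ R i j t θ * f t := fun t => by ring
    have d1 : Continuous fun t => c * (lp φ R i j t θ * 1) :=
      continuous_const.mul ((hl1 θ).mul continuous_const)
    have d2 : Continuous fun t => lp φ R i j t θ * f t := (hl1 θ).mul hf
    simp only [e2]
    rw [intervalIntegral.integral_add (d1.intervalIntegrable _ _) (d2.intervalIntegrable _ _),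
      intervalIntegral.integral_const_mul]
  unfold eA
  simp only [e1]
  set I1 : ℝ → ℝ := fun θ => ∫ t in (0 : ℝ)..1, lp φ R i j t θ * 1 with hI1
  set I2 : ℝ → ℝ := fun θ => ∫ t in (0 : ℝ)..1, lp φ R i j t θ * f t with hI2
  have e3 : ∀ θ, (c * I1 θ + I2 θ) * (d + g θ) = (c * d * (I1 θ * 1) + c * (I1 θ * g θ)) +
      (d * (I2 θ * 1) + I2 θ * g θ) := fun θ => by ring
  have k1 : Continuous fun θ => c * d * (I1 θ * 1) :=
    continuous_const.mul (i1.mul continuous_const)
  have k2 : Continuous fun θ => c * (I1 θ * g θ) := continuous_const.mul (i1.mul hg)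
  have k3 : Continuous fun θ => d * (I2 θ * 1) := continuous_const.mul (i2.mul continuous_const)
  have k4 : Continuous fun θ => I2 θ * g θ := i2.mul hg
  have k5 : Continuous fun θ => c * d * (I1 θ * 1) + c * (I1 θ * g θ) := k1.add k2
  have k6 : Continuous fun θ => d * (I2 θ * 1) + I2 θ * g θ := k3.add k4
  have e4 : ∫ θ in (0 : ℝ)..1, (c * I1 θ + I2 θ) * (d + g θ) =
      ∫ θ in (0 : ℝ)..1, ((c * d * (I1 θ * 1) + c * (I1 θ * g θ)) +
      (d * (I2 θ * 1) + I2 θ * g θ)) := intervalIntegral.integral_congr fun θ _ => e3 θ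
  rw [e4]
  rw [intervalIntegral.integral_add (k5.intervalIntegrable _ _) (k6.intervalIntegrable _ _),
    intervalIntegral.integral_add (k1.intervalIntegrable _ _) (k2.intervalIntegrable _ _),
    intervalIntegral.integral_add (k3.intervalIntegrable _ _) (k4.intervalIntegrable _ _),
    intervalIntegral.integral_const_mul, intervalIntegral.integral_const_mul,
    intervalIntegral.integral_const_mul]
  ring

/-- The energies of the two harmonic densities cancel. -/
theorem eA_rot (i j : Fin n) (a b a' b' : ℕ → ℝ) (M : ℕ) :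
    eA φ R i j (tp (fun k => -b k) a M) (tp (fun k => -b' k) a' M) =
      -eA φ R i j (tp a b M) (tp a' b' M) := by
  have hm := cmem hR hV
  obtain ⟨A, hA, hre, hA1, hA2⟩ := exists_log2 H i j
  have hc : Continuous (Function.uncurry fun θ t => A (circ R t) (circ R θ)) :=
    hA.comp_continuous (f := fun p : ℝ × ℝ => (circ R p.2, circ R p.1))
      (((cont_circ R).comp continuous_snd).prodMk ((cont_circ R).comp continuous_fst))
      fun p => ⟨hm _, hm _⟩
  set f := tp a b M with hf
  set f' := tp (fun k => -b k) a M with hf'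
  set g := tp a' b' M with hg
  set g' := tp (fun k => -b' k) a' M with hg'
  have cf : Continuous f := continuous_tp _ _ _
  have cf' : Continuous f' := continuous_tp _ _ _
  have cg : Continuous g := continuous_tp _ _ _
  have cg' : Continuous g' := continuous_tp _ _ _
  have e1 : ∀ θ, (∫ t in (0 : ℝ)..1, A (circ R t) (circ R θ) * (f' t : ℂ)) * (g' θ : ℂ) =
      Complex.I * ∫ t in (0 : ℝ)..1, A (circ R t) (circ R θ) * (f t : ℂ) * (g' θ : ℂ) := by
    intro θ
    rw [int_tp_rot hR hV (hA1 _ (hm θ)) H.isOpen a b M, intervalIntegral.integral_mul_const]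
    ring
  have hs1 : Continuous (Function.uncurry fun θ t =>
      A (circ R t) (circ R θ) * (f t : ℂ) * (g' θ : ℂ)) :=
    (hc.mul (Complex.continuous_ofReal.comp (cf.comp continuous_snd))).mul
      (Complex.continuous_ofReal.comp (cg'.comp continuous_fst))
  have hs2 : Continuous (Function.uncurry fun θ t =>
      A (circ R t) (circ R θ) * (f t : ℂ) * (g θ : ℂ)) :=
    (hc.mul (Complex.continuous_ofReal.comp (cf.comp continuous_snd))).mul
      (Complex.continuous_ofReal.comp (cg.comp continuous_fst))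
  have e2 : ∀ t, ∫ θ in (0 : ℝ)..1, A (circ R t) (circ R θ) * (f t : ℂ) * (g' θ : ℂ) =
      Complex.I * ∫ θ in (0 : ℝ)..1, A (circ R t) (circ R θ) * (f t : ℂ) * (g θ : ℂ) := by
    intro t
    have h3 : ∀ u : ℝ → ℝ, ∀ θ, A (circ R t) (circ R θ) * (f t : ℂ) * (u θ : ℂ) =
      (f t : ℂ) * (A (circ R t) (circ R θ) * (u θ : ℂ)) := fun u θ => by ring
    simp only [h3]
    rw [intervalIntegral.integral_const_mul, intervalIntegral.integral_const_mul,
      int_tp_rot hR hV (hA2 _ (hm t)) H.isOpen a' b' M]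
    ring
  have e3 : ∀ θ, (∫ t in (0 : ℝ)..1, A (circ R t) (circ R θ) * (f t : ℂ)) * (g θ : ℂ) =
      ∫ t in (0 : ℝ)..1, A (circ R t) (circ R θ) * (f t : ℂ) * (g θ : ℂ) := fun θ => by
    rw [intervalIntegral.integral_mul_const]
  have h3 : ∫ θ in (0 : ℝ)..1, (∫ t in (0 : ℝ)..1, A (circ R t) (circ R θ) * (f' t : ℂ)) *
      (g' θ : ℂ) = -∫ θ in (0 : ℝ)..1, (∫ t in (0 : ℝ)..1, A (circ R t) (circ R θ) * (f t : ℂ)) *
      (g θ : ℂ) := by
    simp only [e1, e3]
    rw [intervalIntegral.integral_const_mul, swap_cont hs1, swap_cont hs2]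
    simp only [e2]
    rw [intervalIntegral.integral_const_mul, ← mul_assoc, Complex.I_mul_I]
    ring
  have h4 := congrArg Complex.re h3
  rw [Complex.neg_re, re_int2 hc cf' cg', re_int2 hc cf cg] at h4
  unfold eA lp
  have h5 : ∀ θ t, (A (circ R t) (circ R θ)).re = Real.log ‖psi φ i j (circ R θ) (circ R t)‖ :=
    fun θ t => hre _ (hm t) _ (hm θ)
  simp only [h5] at h4
  exact h4

end

end Pool.Agent.N686.DI
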