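import Pool.Agent.N686.EL.Ker3
set_option autoImplicit false

/-!
The logarithmic kernel on a circle, and the energy of trigonometric densities on it.
-/

namespace Pool.Agent.N686.DI

open MeasureTheory Set Filter Topology Metric

open Pool.Agent.TH826.MK (circ norm_circ circ_add_one contDiff_circ hasDerivAt_circ circ_eq)

open Pool.Agent.Y775.CC

open Pool.Agent.N686.EL (cs sn continuous_cs continuous_sn cs_zero lg circ_eq_mul ae_shift ii_one
  int_sub_one int_sub_cs int_sub_sn int_mul_cs int_mul_sn int_cs integral_odd sn_add_one sn_neg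
  int_sum_real circ_add)

set_option maxHeartbeats 400000

/-- the logarithmic kernel on the circle -/
noncomputable def kk (R t θ : ℝ) : ℝ := Real.log ‖circ R t - circ R θ‖

theorem kk_eq {R : ℝ} (hR : 0 < R) {t θ : ℝ} (h : circ 1 (θ - t) ≠ 1) :
    kk R t θ = Real.log R + lg 1 (θ - t) := by
  have hw : circ 1 θ = circ 1 t * circ 1 (θ - t) := by
    rw [← circ_add]
    congr 1
    ring
  have e : circ R t - circ R θ = (R : ℂ) * circ 1 t * (1 - circ 1 (θ - t)) := by
    rw [circ_eq_mul R t, circ_eq_mul R θ, hw]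
    ring
  have h1 : ‖1 - circ 1 (θ - t)‖ ≠ 0 := norm_ne_zero_iff.2 (sub_ne_zero.2 (Ne.symm h))
  unfold kk
  rw [e, norm_mul, norm_mul, norm_circ zero_le_one, mul_one, Complex.norm_real,
    Real.norm_eq_abs, abs_of_pos hR, Real.log_mul hR.ne' h1]
  unfold lg
  simp

theorem circ_sub_ne {R : ℝ} (hR : 0 < R) {t θ : ℝ} (h : circ 1 (θ - t) ≠ 1) :
    circ R t ≠ circ R θ := by
  intro h5
  apply h
  rw [circ_eq_mul R t, circ_eq_mul R θ] at h5
  have hqc : (R : ℂ) ≠ 0 := by exact_mod_cast hR.ne'
  have h6 : circ 1 t = circ 1 θ := mul_left_cancel₀ hqc h5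
  have h7 : circ 1 θ = circ 1 t * circ 1 (θ - t) := by
    rw [← circ_add]
    congr 1
    ring
  rw [← h6] at h7
  exact (mul_left_cancel₀ (circ_ne_zero one_pos t) (by rw [mul_one]; exact h7)).symm

theorem ae_kk {R : ℝ} (hR : 0 < R) (θ : ℝ) : ∀ᵐ t : ℝ,
    kk R t θ = Real.log R + lg 1 (θ - t) := by
  filter_upwards [ae_shift θ] with t ht
  exact kk_eq hR ht

theorem ii_kk {R : ℝ} (hR : 0 < R) (θ : ℝ) :
    IntervalIntegrable (fun t => kk R t θ) volume 0 1 := by
  have h1 : IntervalIntegrable (fun t => Real.log R + lg 1 (θ - t)) volume 0 1 :=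
    intervalIntegrable_const.add (ii_one θ)
  refine h1.congr_ae ?_
  refine ae_restrict_of_ae ?_
  filter_upwards [ae_kk hR θ] with t ht
  exact ht.symm

theorem ii_kk_mul {R : ℝ} (hR : 0 < R) (θ : ℝ) {F : ℝ → ℝ} (hF : Continuous F) :
    IntervalIntegrable (fun t => kk R t θ * F t) volume 0 1 :=
  (ii_kk hR θ).mul_continuousOn hF.continuousOn

theorem int_kk_mul {R : ℝ} (hR : 0 < R) (θ : ℝ) {F : ℝ → ℝ} (hF : Continuous F) :
    ∫ t in (0 : ℝ)..1, kk R t θ * F t = Real.log R * (∫ t in (0 : ℝ)..1, F t) +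
      (∫ t in (0 : ℝ)..1, lg 1 (θ - t) * F t) := by
  have h1 : ∫ t in (0 : ℝ)..1, kk R t θ * F t = ∫ t in (0 : ℝ)..1,
      (Real.log R * F t + lg 1 (θ - t) * F t) := by
    refine intervalIntegral.integral_congr_ae ?_
    filter_upwards [ae_kk hR θ] with t ht _
    rw [ht]
    ring
  have hi1 : IntervalIntegrable (fun t => Real.log R * F t) volume 0 1 :=
    (continuous_const.mul hF).intervalIntegrable _ _
  have hi2 : IntervalIntegrable (fun t => lg 1 (θ - t) * F t) volume 0 1 :=
    (ii_one θ).mul_continuousOn hF.continuousOn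
  rw [h1, intervalIntegral.integral_add hi1 hi2, intervalIntegral.integral_const_mul]

theorem pot_one {R : ℝ} (hR : 0 < R) (θ : ℝ) :
    ∫ t in (0 : ℝ)..1, kk R t θ = Real.log R := by
  have h := int_kk_mul hR θ (F := fun _ => 1) continuous_const
  simp only [mul_one] at h
  rw [h, int_sub_one zero_le_one le_rfl]
  simp

theorem pot_cs {R : ℝ} (hR : 0 < R) (θ : ℝ) (k : ℕ) (hk : 1 ≤ k) :
    ∫ t in (0 : ℝ)..1, kk R t θ * cs k t = -(1 / (2 * k)) * cs k θ := by
  rw [int_kk_mul hR θ (continuous_cs k), int_cs k hk, int_sub_cs zero_le_one le_rfl θ k hk,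
    one_pow]
  ring

theorem pot_sn {R : ℝ} (hR : 0 < R) (θ : ℝ) (k : ℕ) (hk : 1 ≤ k) :
    ∫ t in (0 : ℝ)..1, kk R t θ * sn k t = -(1 / (2 * k)) * sn k θ := by
  have h2 : ∫ t in (0 : ℝ)..1, sn k t = 0 := integral_odd (sn_add_one k) (sn_neg k)
  rw [int_kk_mul hR θ (continuous_sn k), h2, int_sub_sn zero_le_one le_rfl θ k hk, one_pow]
  ring

/-- the density `∑ (a_k cos + b_k sin)` -/
noncomputable def tp (a b : ℕ → ℝ) (M : ℕ) (t : ℝ) : ℝ :=
  ∑ k ∈ Finset.Icc 1 M, (a k * cs k t + b k * sn k t)

theorem continuous_tp (a b : ℕ → ℝ) (M : ℕ) : Continuous (tp a b M) :=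
  continuous_finsetSum _ fun k _ => (continuous_const.mul (continuous_cs k)).add
    (continuous_const.mul (continuous_sn k))

theorem tp_add_one (a b : ℕ → ℝ) (M : ℕ) (t : ℝ) : tp a b M (t + 1) = tp a b M t := by
  unfold tp
  refine Finset.sum_congr rfl fun k _ => ?_
  rw [EL.cs_add_one, sn_add_one]

theorem int_tp (a b : ℕ → ℝ) (M : ℕ) : ∫ t in (0 : ℝ)..1, tp a b M t = 0 := by
  unfold tp
  have hi : ∀ k ∈ Finset.Icc 1 M, IntervalIntegrable (fun t => a k * cs k t + b k * sn k t)
      volume 0 1 := fun k _ => ((continuous_const.mul (continuous_cs k)).add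
    (continuous_const.mul (continuous_sn k))).intervalIntegrable _ _
  rw [intervalIntegral.integral_finsetSum hi]
  refine Finset.sum_eq_zero fun k hk => ?_
  have h2 : ∫ t in (0 : ℝ)..1, sn k t = 0 := integral_odd (sn_add_one k) (sn_neg k)
  have h3 : IntervalIntegrable (fun t => a k * cs k t) volume 0 1 :=
    (continuous_const.mul (continuous_cs k)).intervalIntegrable _ _
  have h4 : IntervalIntegrable (fun t => b k * sn k t) volume 0 1 :=
    (continuous_const.mul (continuous_sn k)).intervalIntegrable _ _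
  rw [intervalIntegral.integral_add h3 h4, intervalIntegral.integral_const_mul,
    intervalIntegral.integral_const_mul, int_cs k (Finset.mem_Icc.1 hk).1, h2]
  ring

/-- The potential of a density. -/
theorem pot_tp {R : ℝ} (hR : 0 < R) (c : ℝ) (a b : ℕ → ℝ) (M : ℕ) (θ : ℝ) :
    ∫ t in (0 : ℝ)..1, kk R t θ * (c + tp a b M t) = c * Real.log R +
      tp (fun k => -(a k / (2 * k))) (fun k => -(b k / (2 * k))) M θ := by
  have h1 : ∀ t, kk R t θ * (c + tp a b M t) = c * kk R t θ +
      ∑ k ∈ Finset.Icc 1 M, (a k * (kk R t θ * cs k t) + b k * (kk R t θ * sn k t)) := by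
    intro t
    unfold tp
    rw [mul_add, Finset.mul_sum]
    congr 1
    · ring
    · exact Finset.sum_congr rfl fun k _ => by ring
  have hi1 : ∀ k, IntervalIntegrable (fun t => a k * (kk R t θ * cs k t)) volume 0 1 := fun k =>
    (ii_kk_mul hR θ (continuous_cs k)).const_mul _
  have hi2 : ∀ k, IntervalIntegrable (fun t => b k * (kk R t θ * sn k t)) volume 0 1 := fun k =>
    (ii_kk_mul hR θ (continuous_sn k)).const_mul _
  have hi3 : ∀ k ∈ Finset.Icc 1 M, IntervalIntegrable (fun t => a k * (kk R t θ * cs k t) +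
      b k * (kk R t θ * sn k t)) volume 0 1 := fun k _ => (hi1 k).add (hi2 k)
  have hi4 : IntervalIntegrable (fun t => ∑ k ∈ Finset.Icc 1 M,
      (a k * (kk R t θ * cs k t) + b k * (kk R t θ * sn k t))) volume 0 1 := by
    have h := IntervalIntegrable.sum (μ := volume) (a := 0) (b := 1) (Finset.Icc 1 M)
      (f := fun k t => a k * (kk R t θ * cs k t) + b k * (kk R t θ * sn k t)) hi3
    refine h.congr fun t _ => ?_
    simp
  simp only [h1]
  rw [intervalIntegral.integral_add ((ii_kk hR θ).const_mul _) hi4,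
    intervalIntegral.integral_const_mul, pot_one hR, intervalIntegral.integral_finsetSum hi3]
  congr 1
  unfold tp
  refine Finset.sum_congr rfl fun k hk => ?_
  have hk1 := (Finset.mem_Icc.1 hk).1
  rw [intervalIntegral.integral_add (hi1 k) (hi2 k), intervalIntegral.integral_const_mul,
    intervalIntegral.integral_const_mul, pot_cs hR θ k hk1, pot_sn hR θ k hk1]
  ring

theorem int_cs_sn (j k : ℕ) : ∫ t in (0 : ℝ)..1, cs j t * sn k t = 0 := by
  refine integral_odd (fun t => ?_) fun t => ?_
  · rw [EL.cs_add_one, sn_add_one]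
  · rw [EL.cs_neg, sn_neg, mul_neg]

/-- Orthogonality. -/
theorem int_tp_mul (a b a' b' : ℕ → ℝ) (M : ℕ) :
    ∫ t in (0 : ℝ)..1, tp a b M t * tp a' b' M t =
      ∑ k ∈ Finset.Icc 1 M, (a k * a' k + b k * b' k) / 2 := by
  have h1 : ∀ t, tp a b M t * tp a' b' M t = ∑ j ∈ Finset.Icc 1 M, ∑ k ∈ Finset.Icc 1 M,
      (a j * a' k * (cs j t * cs k t) + a j * b' k * (cs j t * sn k t) +
        (b j * a' k * (cs k t * sn j t) + b j * b' k * (sn j t * sn k t))) := by
    intro t
    unfold tp
    rw [Finset.sum_mul_sum]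
    refine Finset.sum_congr rfl fun j _ => Finset.sum_congr rfl fun k _ => ?_
    ring
  have c1 : ∀ j k, Continuous fun t => a j * a' k * (cs j t * cs k t) := fun j k =>
    continuous_const.mul ((continuous_cs j).mul (continuous_cs k))
  have c2 : ∀ j k, Continuous fun t => a j * b' k * (cs j t * sn k t) := fun j k =>
    continuous_const.mul ((continuous_cs j).mul (continuous_sn k))
  have c3 : ∀ j k, Continuous fun t => b j * a' k * (cs k t * sn j t) := fun j k =>
    continuous_const.mul ((continuous_cs k).mul (continuous_sn j))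
  have c4 : ∀ j k, Continuous fun t => b j * b' k * (sn j t * sn k t) := fun j k =>
    continuous_const.mul ((continuous_sn j).mul (continuous_sn k))
  have c5 : ∀ j k, Continuous fun t => a j * a' k * (cs j t * cs k t) +
      a j * b' k * (cs j t * sn k t) := fun j k => (c1 j k).add (c2 j k)
  have c6 : ∀ j k, Continuous fun t => b j * a' k * (cs k t * sn j t) +
      b j * b' k * (sn j t * sn k t) := fun j k => (c3 j k).add (c4 j k)
  have c7 : ∀ j k, Continuous fun t => a j * a' k * (cs j t * cs k t) +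
      a j * b' k * (cs j t * sn k t) +
        (b j * a' k * (cs k t * sn j t) + b j * b' k * (sn j t * sn k t)) := fun j k =>
    (c5 j k).add (c6 j k)
  simp only [h1]
  rw [intervalIntegral.integral_finsetSum fun j _ =>
    (continuous_finsetSum _ fun k _ => c7 j k).intervalIntegrable _ _]
  refine Finset.sum_congr rfl fun j hj => ?_
  have hj1 := (Finset.mem_Icc.1 hj).1
  rw [intervalIntegral.integral_finsetSum fun k _ => (c7 j k).intervalIntegrable _ _]
  have h2 : ∀ k ∈ Finset.Icc 1 M, ∫ t in (0 : ℝ)..1, (a j * a' k * (cs j t * cs k t) +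
      a j * b' k * (cs j t * sn k t) +
        (b j * a' k * (cs k t * sn j t) + b j * b' k * (sn j t * sn k t))) =
      if j = k then (a j * a' j + b j * b' j) / 2 else 0 := by
    intro k hk
    have hk1 := (Finset.mem_Icc.1 hk).1
    rw [intervalIntegral.integral_add ((c5 j k).intervalIntegrable _ _)
      ((c6 j k).intervalIntegrable _ _), intervalIntegral.integral_add
      ((c1 j k).intervalIntegrable _ _) ((c2 j k).intervalIntegrable _ _),
      intervalIntegral.integral_add ((c3 j k).intervalIntegrable _ _)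
      ((c4 j k).intervalIntegrable _ _), intervalIntegral.integral_const_mul,
      intervalIntegral.integral_const_mul, intervalIntegral.integral_const_mul,
      intervalIntegral.integral_const_mul, int_cs_sn, int_cs_sn, int_mul_cs j k hj1,
      int_mul_sn j k hj1 hk1]
    split_ifs with h
    · subst h
      ring
    · ring
  rw [Finset.sum_congr rfl h2, Finset.sum_ite_eq, if_pos hj]

/-- The energy of a density on the circle. -/
theorem energy_tp {R : ℝ} (hR : 0 < R) (c : ℝ) (a b : ℕ → ℝ) (M : ℕ) :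
    ∫ θ in (0 : ℝ)..1, (∫ t in (0 : ℝ)..1, kk R t θ * (c + tp a b M t)) * (c + tp a b M θ) =
      c ^ 2 * Real.log R - ∑ k ∈ Finset.Icc 1 M, (a k ^ 2 + b k ^ 2) / (4 * k) := by
  simp only [pot_tp hR]
  set a' : ℕ → ℝ := fun k => -(a k / (2 * k)) with ha'
  set b' : ℕ → ℝ := fun k => -(b k / (2 * k)) with hb'
  have h1 : ∀ θ, (c * Real.log R + tp a' b' M θ) * (c + tp a b M θ) =
      c ^ 2 * Real.log R + c * Real.log R * tp a b M θ + (c * tp a' b' M θ +
        tp a' b' M θ * tp a b M θ) := fun θ => by ring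
  have c1 := continuous_tp a b M
  have c2 := continuous_tp a' b' M
  have d1 : Continuous fun θ => c * Real.log R * tp a b M θ := continuous_const.mul c1
  have d2 : Continuous fun θ => c * tp a' b' M θ := continuous_const.mul c2
  have d3 : Continuous fun θ => tp a' b' M θ * tp a b M θ := c2.mul c1
  have d4 : Continuous fun θ => c ^ 2 * Real.log R + c * Real.log R * tp a b M θ :=
    continuous_const.add d1
  have d5 : Continuous fun θ => c * tp a' b' M θ + tp a' b' M θ * tp a b M θ := d2.add d3
  have e1 : ∫ θ in (0 : ℝ)..1, c * Real.log R * tp a b M θ = 0 := by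
    rw [intervalIntegral.integral_const_mul, int_tp, mul_zero]
  have e2 : ∫ θ in (0 : ℝ)..1, c * tp a' b' M θ = 0 := by
    rw [intervalIntegral.integral_const_mul, int_tp, mul_zero]
  have e3 : ∫ θ in (0 : ℝ)..1, c ^ 2 * Real.log R = c ^ 2 * Real.log R := by
    rw [intervalIntegral.integral_const]
    simp
  simp only [h1]
  rw [intervalIntegral.integral_add (d4.intervalIntegrable _ _) (d5.intervalIntegrable _ _),
    intervalIntegral.integral_add intervalIntegrable_const (d1.intervalIntegrable _ _),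
    intervalIntegral.integral_add (d2.intervalIntegrable _ _) (d3.intervalIntegrable _ _),
    e1, e2, e3, int_tp_mul]
  simp only [add_zero, zero_add]
  rw [sub_eq_add_neg, ← Finset.sum_neg_distrib]
  congr 1
  refine Finset.sum_congr rfl fun k _ => ?_
  simp only [ha', hb']
  ring

end Pool.Agent.N686.DI
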