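import Pool.Agent.N686.EL.Ener2
import Pool.Agent.N686.DI.Ker
set_option autoImplicit false

/-!
The logarithmic energy of real densities of total mass zero on the images of an ellipse under the
branches.
-/

namespace Pool.Agent.N686.DI

open MeasureTheory Set Filter Topology Metric Polynomial

open Pool.Agent.TH826.MK (circ norm_circ circ_add_one contDiff_circ hasDerivAt_circ circ_eq)

open Pool.Agent.Y775.CC

open Pool.Agent.N686.EL (lg lg_add_one int_sub_shift ii_one ae_shift exists_log2 bdd_of_periodic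
  lim_pair lE_fin lE_nonpos bm_fin bmc_fin)

set_option maxHeartbeats 400000

theorem cmem {V : Set ℂ} {R : ℝ} (hR : 0 < R) (hV : ∀ z : ℂ, ‖z‖ ≤ R → z ∈ V) (t : ℝ) :
    circ R t ∈ V := hV _ (norm_circ hR.le t).le

theorem cont_circ (R : ℝ) : Continuous (circ R) := (contDiff_circ R (n := 0)).continuous

theorem int_abs_kk_le {R : ℝ} (hR : 0 < R) (θ : ℝ) : ∫ t in (0 : ℝ)..1, |kk R t θ| ≤
    |Real.log R| + (∫ t in (0 : ℝ)..1, |lg 1 t|) := by
  have h1 : ∫ t in (0 : ℝ)..1, |lg 1 t| = ∫ t in (0 : ℝ)..1, |lg 1 (θ - t)| :=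
    (int_sub_shift (f := fun t => |lg 1 t|) (fun t => by rw [lg_add_one]) θ).symm
  have hi1 : IntervalIntegrable (fun _ : ℝ => |Real.log R|) volume 0 1 := intervalIntegrable_const
  have hi2 : IntervalIntegrable (fun t => |lg 1 (θ - t)|) volume 0 1 := (ii_one θ).abs
  have h3 : ∫ t in (0 : ℝ)..1, (|Real.log R| + |lg 1 (θ - t)|) =
      |Real.log R| + (∫ t in (0 : ℝ)..1, |lg 1 t|) := by
    rw [h1, intervalIntegral.integral_add hi1 hi2]
    simp
  rw [← h3]
  refine intervalIntegral.integral_mono_ae zero_le_one (ii_kk hR θ).abs (hi1.add hi2) ?_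
  filter_upwards [ae_kk hR θ] with t ht
  rw [ht]
  exact abs_add_le _ _

section

variable {G : ℂ[X]} {n : ℕ} {V : Set ℂ} {φ : Fin n → ℂ → ℂ} (H : Branches G V φ) {R : ℝ}
  (hR : 0 < R) (hV : ∀ z : ℂ, ‖z‖ ≤ R → z ∈ V)

/-- `log |psi|` on the ellipse -/
noncomputable def lp (φ : Fin n → ℂ → ℂ) (R : ℝ) (i j : Fin n) (t θ : ℝ) : ℝ :=
  Real.log ‖psi φ i j (circ R θ) (circ R t)‖

include H hR hV

theorem continuous_lp (i j : Fin n) : Continuous fun p : ℝ × ℝ => lp φ R i j p.2 p.1 := by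
  have hm := cmem hR hV
  obtain ⟨A, hA, hre, -, -⟩ := exists_log2 H i j
  have h1 : Continuous fun p : ℝ × ℝ => A (circ R p.2) (circ R p.1) :=
    hA.comp_continuous (f := fun p : ℝ × ℝ => (circ R p.2, circ R p.1))
      (((cont_circ R).comp continuous_snd).prodMk ((cont_circ R).comp continuous_fst))
      fun p => ⟨hm _, hm _⟩
  have h2 : (fun p : ℝ × ℝ => lp φ R i j p.2 p.1) = fun p => (A (circ R p.2) (circ R p.1)).re := by
    funext p
    rw [hre _ (hm _) _ (hm _)]
    rfl
  rw [h2]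
  exact Complex.continuous_re.comp h1

theorem log_sub_eq (i j : Fin n) {t θ : ℝ} (h : circ 1 (θ - t) ≠ 1) :
    Real.log ‖φ i (circ R t) - φ j (circ R θ)‖ = lp φ R i j t θ + if i = j then kk R t θ else 0 := by
  have hm := cmem hR hV
  unfold lp
  by_cases hij : i = j
  · subst hij
    rw [if_pos rfl, psi_self]
    have h1 := sub_smul_dslope (φ i) (circ R θ) (circ R t)
    rw [smul_eq_mul] at h1
    have h2 : circ R t - circ R θ ≠ 0 := sub_ne_zero.2 (circ_sub_ne hR h)
    have h3 : dslope (φ i) (circ R θ) (circ R t) ≠ 0 := by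
      have := psi_ne_zero H i i (hm θ) (hm t)
      rwa [psi_self] at this
    rw [← h1, norm_mul, Real.log_mul (norm_ne_zero_iff.2 h2) (norm_ne_zero_iff.2 h3), add_comm]
    rfl
  · rw [if_neg hij, add_zero, psi_ne hij]

theorem ne_ae (i j : Fin n) (θ : ℝ) : ∀ᵐ t : ℝ, φ i (circ R t) ≠ φ j (circ R θ) := by
  have hm := cmem hR hV
  filter_upwards [ae_shift θ] with t ht h
  exact circ_sub_ne hR ht (H.eq_of_eq (hm t) (hm θ) h).2

theorem continuous_lp1 (i j : Fin n) (θ : ℝ) : Continuous fun t => lp φ R i j t θ := by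
  have h1 : Continuous fun t : ℝ => ((θ, t) : ℝ × ℝ) := continuous_const.prodMk continuous_id
  have h2 := (continuous_lp H hR hV i j).comp h1
  exact h2

theorem ae_log_sub (i j : Fin n) (θ : ℝ) : ∀ᵐ t : ℝ,
    Real.log ‖φ i (circ R t) - φ j (circ R θ)‖ =
      lp φ R i j t θ + if i = j then kk R t θ else 0 := by
  filter_upwards [ae_shift θ] with t ht
  exact log_sub_eq H hR hV i j ht

omit H hV in
theorem ii_delta (i j : Fin n) (θ : ℝ) : IntervalIntegrable
    (fun t => if i = j then kk R t θ else 0) volume 0 1 := by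
  by_cases hij : i = j
  · simp only [if_pos hij]
    exact ii_kk hR θ
  · simp only [if_neg hij]
    exact intervalIntegrable_const

theorem ii_log_sub (i j : Fin n) (θ : ℝ) : IntervalIntegrable
    (fun t => Real.log ‖φ i (circ R t) - φ j (circ R θ)‖) volume 0 1 := by
  have h1 : IntervalIntegrable (fun t => lp φ R i j t θ + if i = j then kk R t θ else 0)
      volume 0 1 :=
    ((continuous_lp1 H hR hV i j θ).intervalIntegrable _ _).add (ii_delta hR i j θ)
  refine h1.congr_ae (ae_restrict_of_ae ?_)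
  filter_upwards [ae_log_sub H hR hV i j θ] with t ht
  exact ht.symm

theorem continuous_phi (i : Fin n) : Continuous fun t => φ i (circ R t) :=
  (H.continuousOn i).comp_continuous (cont_circ R) (cmem hR hV)

theorem bdd_phi (i : Fin n) : ∃ C : ℝ, ∀ t, ‖φ i (circ R t)‖ ≤ C :=
  bdd_of_periodic (continuous_phi H hR hV i) fun t => by rw [circ_add_one]

/-- a bound for the mean of the logarithm -/
theorem int_abs_log_le (i j : Fin n) : ∃ C : ℝ, ∀ θ ∈ Icc (0 : ℝ) 1,
    ∫ t in (0 : ℝ)..1, |Real.log ‖φ i (circ R t) - φ j (circ R θ)‖| ≤ C := by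
  obtain ⟨L, hL⟩ := (isCompact_Icc.prod isCompact_Icc : IsCompact
    (Icc (0 : ℝ) 1 ×ˢ Icc (0 : ℝ) 1)).exists_bound_of_continuousOn
    (continuous_lp H hR hV i j).continuousOn
  refine ⟨L + (|Real.log R| + ∫ t in (0 : ℝ)..1, |lg 1 t|), fun θ hθ => ?_⟩
  have h1 : ∫ t in (0 : ℝ)..1, |Real.log ‖φ i (circ R t) - φ j (circ R θ)‖| ≤
      ∫ t in (0 : ℝ)..1, (L + |kk R t θ|) := by
    refine intervalIntegral.integral_mono_ae_restrict zero_le_one (ii_log_sub H hR hV i j θ).abs
      (intervalIntegrable_const.add (ii_kk hR θ).abs) ?_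
    filter_upwards [ae_restrict_of_ae (ae_log_sub H hR hV i j θ),
      ae_restrict_mem measurableSet_Icc] with t ht htm
    rw [ht]
    have h2 : |lp φ R i j t θ| ≤ L := hL (θ, t) ⟨hθ, htm⟩
    refine (abs_add_le _ _).trans (add_le_add h2 ?_)
    split_ifs
    · exact le_rfl
    · rw [abs_zero]
      exact abs_nonneg _
  refine h1.trans ?_
  rw [intervalIntegral.integral_add intervalIntegrable_const (ii_kk hR θ).abs]
  simp only [intervalIntegral.integral_const, sub_zero, one_smul]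
  exact add_le_add le_rfl (int_abs_kk_le hR θ)

theorem lim_phi (i j : Fin n) {f g : ℝ → ℝ} (hf : Continuous f) (hg : Continuous g)
    {B : ℝ} (hfB : ∀ t, |f t| ≤ B) (hgB : ∀ t, |g t| ≤ B) :
    Tendsto (fun s : ℝ => ∫ θ in (0 : ℝ)..1, (∫ t in (0 : ℝ)..1,
      Real.log (s + ‖φ i (circ R t) - φ j (circ R θ)‖ ^ 2) * f t) * g θ) (𝓝[>] 0)
      (𝓝 (∫ θ in (0 : ℝ)..1, (∫ t in (0 : ℝ)..1,
        2 * Real.log ‖φ i (circ R t) - φ j (circ R θ)‖ * f t) * g θ)) := by
  obtain ⟨Ci, hCi⟩ := bdd_phi H hR hV i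
  obtain ⟨Cj, hCj⟩ := bdd_phi H hR hV j
  obtain ⟨C, hC⟩ := int_abs_log_le H hR hV i j
  have hD : ∀ t θ : ℝ, ‖φ i (circ R t) - φ j (circ R θ)‖ ^ 2 ≤ (Ci + Cj) ^ 2 := fun t θ =>
    pow_le_pow_left₀ (norm_nonneg _) ((norm_sub_le _ _).trans (add_le_add (hCi t) (hCj θ))) 2
  exact lim_pair (X := fun t => φ i (circ R t)) (Y := fun t => φ j (circ R t))
    (continuous_phi H hR hV i) (continuous_phi H hR hV j) hD hf hg hfB hgB
    (ne_ae H hR hV i j) (ii_log_sub H hR hV i j) hC

theorem continuous_lp_int (i j : Fin n) {f : ℝ → ℝ} (hf : Continuous f) :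
    Continuous fun θ => ∫ t in (0 : ℝ)..1, lp φ R i j t θ * f t := by
  have h3 : Continuous (Function.uncurry fun θ t => lp φ R i j t θ * f t) :=
    (continuous_lp H hR hV i j).mul (hf.comp continuous_snd)
  exact intervalIntegral.continuous_parametric_intervalIntegral_of_continuous'
    (μ := volume) h3 0 1

theorem inner_dec (i j : Fin n) {f : ℝ → ℝ} (hf : Continuous f) (θ : ℝ) :
    ∫ t in (0 : ℝ)..1, 2 * Real.log ‖φ i (circ R t) - φ j (circ R θ)‖ * f t =
      2 * (∫ t in (0 : ℝ)..1, lp φ R i j t θ * f t) +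
      2 * ∫ t in (0 : ℝ)..1, (if i = j then kk R t θ else 0) * f t := by
  have hi1 : IntervalIntegrable (fun t => 2 * (lp φ R i j t θ * f t)) volume 0 1 :=
    (((continuous_lp1 H hR hV i j θ).mul hf).intervalIntegrable _ _).const_mul _
  have hi2 : IntervalIntegrable (fun t => 2 * ((if i = j then kk R t θ else 0) * f t))
      volume 0 1 := ((ii_delta hR i j θ).mul_continuousOn hf.continuousOn).const_mul _
  rw [← intervalIntegral.integral_const_mul, ← intervalIntegral.integral_const_mul,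
    ← intervalIntegral.integral_add hi1 hi2]
  refine intervalIntegral.integral_congr_ae ?_
  filter_upwards [ae_log_sub H hR hV i j θ] with t ht _
  rw [ht]
  ring

end

end Pool.Agent.N686.DI
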