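import Pool.Agent.N686.DI.Nons
import Pool.Agent.N686.EL.Br
set_option autoImplicit false

/-!
The loops, for two polynomials with prescribed roots.
-/

namespace Pool.Agent.N686.DI

open MeasureTheory Set Filter Topology Metric Polynomial

open Pool.Agent.TH826.MK (circ norm_circ circ_add_one contDiff_circ hasDerivAt_circ circ_eq)

open Pool.Agent.TH826.UH (pr NZ pr_mul pr_div pr_const ld_circ nz_circ pr_prod pr_neg)

open Pool.Agent.Y775.CC

set_option maxHeartbeats 400000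

/-- the regulator of two quotients -/
theorem pr_quot {X X' Y Y' : ℝ → ℂ} (hX : NZ X) (hX' : NZ X') (hY : NZ Y) (hY' : NZ Y') :
    pr (fun s => X s / X' s) (fun s => Y s / Y' s) =
      pr X Y - pr X Y' - pr X' Y + pr X' Y' := by
  rw [pr_div (hX.div hX') hY hY', pr_symm _ Y, pr_symm _ Y', pr_div hY hX hX', pr_div hY' hX hX',
    pr_symm X Y, pr_symm X Y', pr_symm X' Y, pr_symm X' Y']
  ring

section

variable {G G' : ℂ[X]} {g g' : ℕ} {V V' : Set ℂ} {φ : Fin (g + 1) → ℂ → ℂ}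
  {φ' : Fin (g' + 1) → ℂ → ℂ}
  (H : Branches G V φ) (H' : Branches G' V' φ') {R R' : ℝ} (hR : 0 < R) (hR' : 0 < R')
  (hV : ∀ z : ℂ, ‖z‖ ≤ R → z ∈ V) (hV' : ∀ z : ℂ, ‖z‖ ≤ R' → z ∈ V') {κ : ℂ} (hκ0 : κ ≠ 0)

include H H' hR hR' hV hV' hκ0

/-- **Nonsingularity**, for the symbols and the loops in a basis. -/
theorem nonsing_sub (hκ' : ‖κ‖ < R') (v : Fin g → Fin g' → ℝ)
    (h : ∀ (m : Fin g) (n : Fin g'), ∑ k, ∑ l, v k l *
      pr (fun s => (φ k.castSucc (circ R s) - φ m.castSucc 0) /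
          (φ k.castSucc (circ R s) - φ m.succ 0))
        (fun s => (φ' l.castSucc (vv κ s) - φ' n.castSucc 0) /
          (φ' l.castSucc (vv κ s) - φ' n.succ 0)) = 0) : ∀ m n, v m n = 0 := by
  classical
  set W : Fin (g + 1) → Fin (g' + 1) → Fin (g + 1) → Fin (g' + 1) → ℝ := fun k l i j =>
    pr (fun t => φ k (circ R t) - φ i 0) (fun t => φ' l (vv κ t) - φ' j 0) with hW
  set S' : Fin (g + 1) → Fin (g' + 1) → ℝ := fun k l =>
    ∑ k0 : Fin g, ∑ l0 : Fin g', if k = k0.castSucc ∧ l = l0.castSucc then v k0 l0 else 0 with hS'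
  have hS'1 : ∀ (k : Fin g) (l : Fin g'), S' k.castSucc l.castSucc = v k l := by
    intro k l
    simp only [hS']
    rw [Finset.sum_eq_single k, Finset.sum_eq_single l]
    · rw [if_pos ⟨rfl, rfl⟩]
    · intro l0 _ hl0
      rw [if_neg]
      rintro ⟨-, h2⟩
      exact hl0 (Fin.castSucc_injective _ h2).symm
    · intro hl
      exact absurd (Finset.mem_univ l) hl
    · intro k0 _ hk0
      refine Finset.sum_eq_zero fun l0 _ => ?_
      rw [if_neg]
      rintro ⟨h1, -⟩
      exact hk0 (Fin.castSucc_injective _ h1).symm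
    · intro hk
      exact absurd (Finset.mem_univ k) hk
  have hS'2 : ∀ l, S' (Fin.last g) l = 0 := by
    intro l
    simp only [hS']
    refine Finset.sum_eq_zero fun k0 _ => Finset.sum_eq_zero fun l0 _ => ?_
    rw [if_neg]
    rintro ⟨h1, -⟩
    exact (Fin.castSucc_lt_last k0).ne h1.symm
  have hS'3 : ∀ k, S' k (Fin.last g') = 0 := by
    intro k
    simp only [hS']
    refine Finset.sum_eq_zero fun k0 _ => Finset.sum_eq_zero fun l0 _ => ?_
    rw [if_neg]
    rintro ⟨-, h1⟩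
    exact (Fin.castSucc_lt_last l0).ne h1.symm
  have hS'sum : ∀ Z : Fin (g + 1) → Fin (g' + 1) → ℝ, ∑ k, ∑ l, S' k l * Z k l =
      ∑ k : Fin g, ∑ l : Fin g', v k l * Z k.castSucc l.castSucc := by
    intro Z
    rw [Fin.sum_univ_castSucc]
    simp only [hS'2, zero_mul, Finset.sum_const_zero, add_zero]
    refine Finset.sum_congr rfl fun k _ => ?_
    rw [Fin.sum_univ_castSucc, hS'3, zero_mul, add_zero]
    exact Finset.sum_congr rfl fun l _ => by rw [hS'1]
  set F : Fin (g + 1) → Fin (g' + 1) → ℝ := fun i j => ∑ k, ∑ l, S' k l * W k l i j with hF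
  have hF1 : ∀ (m : Fin g) (n : Fin g'), F m.castSucc n.castSucc - F m.castSucc n.succ -
      F m.succ n.castSucc + F m.succ n.succ = 0 := by
    intro m n
    rw [← h m n]
    have e1 : ∀ i j, F i j = ∑ k : Fin g, ∑ l : Fin g', v k l * W k.castSucc l.castSucc i j :=
      fun i j => hS'sum fun k l => W k l i j
    simp only [e1, ← Finset.sum_sub_distrib, ← Finset.sum_add_distrib]
    refine Finset.sum_congr rfl fun k _ => Finset.sum_congr rfl fun l _ => ?_
    rw [pr_quot (nz_X H hR hV _ _) (nz_X H hR hV _ _) (nz_Y H' hR' hV' hκ0 hκ'.le _ _)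
      (nz_Y H' hR' hV' hκ0 hκ'.le _ _)]
    simp only [hW]
    ring
  -- functions with vanishing differences are constant
  have hconst : ∀ {N : ℕ} (f : Fin (N + 1) → ℝ), (∀ m : Fin N, f m.castSucc = f m.succ) →
      ∀ i, f i = f 0 := by
    intro N f hf i
    induction i using Fin.induction with
    | zero => rfl
    | succ i ih => rw [← hf i, ih]
  have hF2 : ∀ i j, F i j = F 0 j + F i 0 - F 0 0 := by
    intro i j
    have h1 : ∀ n : Fin g', F i n.castSucc - F i n.succ = F 0 n.castSucc - F 0 n.succ := fun n =>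
      hconst (fun i => F i n.castSucc - F i n.succ) (fun m => by
        have := hF1 m n
        linarith) i
    have h2 := hconst (fun j => F i j - F 0 j) (fun n => by
      have := h1 n
      linarith) j
    linarith
  have hF3 : ∀ (c : Fin (g + 1) → ℝ) (d : Fin (g' + 1) → ℝ), ∑ i, c i = 0 → ∑ j, d j = 0 →
      ∑ i, ∑ j, c i * d j * F i j = 0 := by
    intro c d hc hd
    have e1 : ∀ i, ∑ j, c i * d j * F i j = c i * (∑ j, d j * F 0 j) := by
      intro i
      have e2 : ∀ j, c i * d j * F i j = c i * (d j * F 0 j) + c i * (F i 0 - F 0 0) * d j := by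
        intro j
        rw [hF2 i j]
        ring
      simp only [e2, Finset.sum_add_distrib, ← Finset.mul_sum]
      rw [hd, mul_zero, add_zero]
    simp only [e1]
    rw [← Finset.sum_mul, hc, zero_mul]
  -- the projection
  have hp0 : ((g + 1 : ℕ) : ℝ) ≠ 0 := by positivity
  have hq0 : ((g' + 1 : ℕ) : ℝ) ≠ 0 := by positivity
  set rr : Fin (g + 1) → ℝ := fun k => (∑ l, S' k l) / ((g' + 1 : ℕ) : ℝ) with hrr
  set tt : Fin (g' + 1) → ℝ := fun l => (∑ k, S' k l) / ((g + 1 : ℕ) : ℝ) with htt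
  set ee : ℝ := (∑ k, ∑ l, S' k l) / (((g + 1 : ℕ) : ℝ) * ((g' + 1 : ℕ) : ℝ)) with hee
  set S : Fin (g + 1) → Fin (g' + 1) → ℝ := fun k l => S' k l - rr k - tt l + ee with hS
  have hS1 : ∀ l, ∑ k, S k l = 0 := by
    intro l
    simp only [hS, Finset.sum_add_distrib, Finset.sum_sub_distrib, Finset.sum_const,
      Finset.card_univ, Fintype.card_fin, nsmul_eq_mul, hrr, htt, hee]
    rw [← Finset.sum_div]
    field_simp
    ring
  have hS2 : ∀ k, ∑ l, S k l = 0 := by
    intro k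
    simp only [hS, Finset.sum_add_distrib, Finset.sum_sub_distrib, Finset.sum_const,
      Finset.card_univ, Fintype.card_fin, nsmul_eq_mul, hrr, htt, hee]
    rw [← Finset.sum_div]
    have e1 : ∑ l, ∑ k, S' k l = ∑ k, ∑ l, S' k l := Finset.sum_comm
    rw [e1]
    field_simp
    ring
  have hS0 := nonsing_left H H' hR hR' hV hV' hκ0 hκ' S hS1 hS2 (by
    intro c d hc hd
    set Z : Fin (g + 1) → Fin (g' + 1) → ℝ := fun k l => ∑ i, ∑ j, c i * d j * W k l i j with hZ
    have hZ1 : ∀ l, ∑ k, Z k l = 0 := fun l =>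
      sum_k H H' hR hR' hV hV' hκ0 hκ'.le (fun i j => c i * d j) (fun j => by
        rw [← Finset.sum_mul, hc, zero_mul]) l
    have hZ2 : ∀ k, ∑ l, Z k l = 0 := fun k =>
      sum_l H H' hR hR' hV hV' hκ0 hκ'.le (fun i j => c i * d j) (fun i => by
        rw [← Finset.mul_sum, hd, mul_zero]) k
    have e1 : ∑ k, ∑ l, S k l * Z k l = ∑ k, ∑ l, S' k l * Z k l := by
      have e2 : ∀ k l, S k l * Z k l = S' k l * Z k l - rr k * Z k l - tt l * Z k l +
          ee * Z k l := fun k l => by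
        simp only [hS]
        ring
      simp only [e2, Finset.sum_add_distrib, Finset.sum_sub_distrib, ← Finset.mul_sum, hZ2,
        mul_zero, Finset.sum_const_zero, sub_zero, add_zero]
      have e3 : ∑ k, ∑ l, tt l * Z k l = 0 := by
        rw [Finset.sum_comm]
        refine Finset.sum_eq_zero fun l _ => ?_
        rw [← Finset.mul_sum, hZ1, mul_zero]
      rw [e3, sub_zero]
    have e4 : ∑ k, ∑ l, S' k l * Z k l = ∑ i, ∑ j, c i * d j * F i j := by
      simp only [hZ, hF, Finset.mul_sum]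
      have e5 : ∀ k : Fin (g + 1), ∑ l, ∑ i, ∑ j, S' k l * (c i * d j * W k l i j) =
          ∑ i, ∑ j, ∑ l, c i * d j * (S' k l * W k l i j) := by
        intro k
        rw [Finset.sum_comm]
        refine Finset.sum_congr rfl fun i _ => ?_
        rw [Finset.sum_comm]
        exact Finset.sum_congr rfl fun j _ => Finset.sum_congr rfl fun l _ => by ring
      simp only [e5]
      rw [Finset.sum_comm]
      refine Finset.sum_congr rfl fun i _ => ?_
      rw [Finset.sum_comm]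
    have e6 : ∑ k, ∑ l, S k l * Z k l = 0 := by rw [e1, e4, hF3 c d hc hd]
    exact e6)
  intro k l
  have f1 := hS0 k.castSucc l.castSucc
  have f2 := hS0 (Fin.last g) l.castSucc
  have f3 := hS0 k.castSucc (Fin.last g')
  have f4 := hS0 (Fin.last g) (Fin.last g')
  simp only [hS, hS'2, hS'3, hS'1] at f1 f2 f3 f4
  linarith

end

/-- Branches with prescribed values at the origin. -/
theorem exists_branches_at {n : ℕ} (hn : 0 < n) (β : Fin n → ℂ) (hβ : Function.Injective β)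
    {c : ℝ} (hc : 0 < c) (hcrit : ∀ x, (derivative (∏ i, (X - C (β i)))).eval x = 0 →
      c ≤ ‖(∏ i, (X - C (β i))).eval x‖) : ∃ μ : ℝ, 0 < μ ∧ ∃ (G : ℂ[X]) (φ : Fin n → ℂ → ℂ),
      Branches G (ball 0 (c / μ ^ n)) φ ∧ (∀ i, (μ : ℂ) * φ i 0 = β i) ∧
      ∀ k, ∀ u ∈ ball (0 : ℂ) (c / μ ^ n), ∏ i, ((μ : ℂ) * φ k u - β i) = (μ : ℂ) ^ n * u := by
  classical
  set μ : ℝ := min 1 (c / 3) with hμ
  have hμ0 : 0 < μ := lt_min one_pos (by positivity)
  have hμ1 : μ ≤ 1 := min_le_left _ _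
  have hμ3 : μ ≤ c / 3 := min_le_right _ _
  have hμc : (μ : ℂ) ≠ 0 := by exact_mod_cast hμ0.ne'
  have hμn : (0 : ℝ) < μ ^ n := pow_pos hμ0 n
  set P : ℂ[X] := ∏ i, (X - C (β i)) with hP
  set G : ℂ[X] := ∏ i, (X - C (β i / μ)) with hG
  have hGP : P.comp (C (μ : ℂ) * X) = C ((μ : ℂ) ^ n) * G := by
    rw [hP, hG, prod_comp]
    have h1 : ∀ i, (X - C (β i)).comp (C (μ : ℂ) * X) = C (μ : ℂ) * (X - C (β i / μ)) := by
      intro i
      rw [sub_comp, X_comp, C_comp, mul_sub, ← C_mul, mul_div_cancel₀ _ hμc]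
    simp only [h1]
    rw [Finset.prod_mul_distrib, Finset.prod_const, Finset.card_univ, Fintype.card_fin, C_pow]
  have hGm : G.Monic := monic_prod_of_monic _ _ fun i _ => monic_X_sub_C _
  have hGd : G.natDegree = n := by
    rw [hG, natDegree_prod_of_monic _ _ fun i _ => monic_X_sub_C _]
    simp
  have hPe : ∀ x, P.eval ((μ : ℂ) * x) = (μ : ℂ) ^ n * G.eval x := by
    intro x
    have h1 := congrArg (fun p => p.eval x) hGP
    simpa only [eval_comp, eval_mul, eval_C, eval_X] using h1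
  have hPd : ∀ x, (derivative P).eval ((μ : ℂ) * x) * μ = (μ : ℂ) ^ n * (derivative G).eval x := by
    intro x
    have h1 := congrArg (fun p => (derivative p).eval x) hGP
    simp only [derivative_comp, derivative_C_mul, derivative_X, eval_mul, eval_comp, eval_C,
      eval_X, mul_one] at h1
    rw [← h1]
    ring
  obtain ⟨φ, H⟩ := Pool.Agent.N686.EL.exists_branches_on hGm hn hGd (V := ball 0 (c / μ ^ n))
    isOpen_ball (convex_ball _ _) (fun t ht => by
      rw [mem_ball_zero_iff, Complex.norm_real, Real.norm_eq_abs]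
      refine lt_of_le_of_lt ht ?_
      rw [lt_div_iff₀ hμn]
      have h1 : μ ^ n ≤ μ := by
        calc μ ^ n ≤ μ ^ 1 := pow_le_pow_of_le_one hμ0.le hμ1 hn
          _ = μ := pow_one μ
      linarith) (fun x hx hxV => by
      have h1 : (derivative P).eval ((μ : ℂ) * x) = 0 := by
        have h2 := hPd x
        rw [hx, mul_zero] at h2
        exact (mul_eq_zero.1 h2).resolve_right hμc
      have h2 := hcrit _ h1
      rw [hPe, norm_mul, norm_pow, Complex.norm_real, Real.norm_eq_abs, abs_of_pos hμ0] at h2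
      rw [mem_ball_zero_iff, lt_div_iff₀ hμn] at hxV
      linarith)
  have h0 : (0 : ℂ) ∈ ball (0 : ℂ) (c / μ ^ n) := mem_ball_self (by positivity)
  -- the values at the origin
  have hval : ∀ i, ∃ k, φ k 0 = β i / μ := by
    intro i
    have h1 := H.eval_sub_eq h0 (β i / μ)
    have h2 : G.eval (β i / μ) = 0 := by
      rw [hG, eval_prod]
      exact Finset.prod_eq_zero (Finset.mem_univ i) (by simp)
    rw [h2, sub_zero] at h1
    obtain ⟨k, -, hk⟩ := Finset.prod_eq_zero_iff.1 h1.symm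
    exact ⟨k, (sub_eq_zero.1 hk).symm⟩
  choose π hπ using hval
  have hπi : Function.Injective π := by
    intro i j hij
    have h1 := hπ i
    rw [hij, hπ j] at h1
    exact (hβ ((div_left_inj' hμc).1 h1)).symm
  have hπb : Function.Bijective π := Finite.injective_iff_bijective.1 hπi
  refine ⟨μ, hμ0, G, fun i => φ (π i), ⟨H.isOpen, H.convex, H.mem, fun i => H.hasDeriv (π i),
    fun u hu => (H.inj u hu).comp hπi, fun u hu => ?_⟩, fun i => ?_, fun k u hu => ?_⟩
  · rw [H.prod u hu]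
    exact (hπb.prod_comp fun i => (X - C (φ i u))).symm
  · simp only [hπ i]
    rw [mul_div_cancel₀ _ hμc]
  · have h1 := H.eval_branch (π k) hu
    have h2 := hPe (φ (π k) u)
    rw [h1] at h2
    rw [← h2, hP, eval_prod]
    simp

/-- **The loops.** -/
theorem exists_loops {g g' : ℕ} (β : Fin (g + 1) → ℂ) (hβ : Function.Injective β)
    (β' : Fin (g' + 1) → ℂ) (hβ' : Function.Injective β') {Λ : ℂ} (hΛ : Λ ≠ 0) {c c' : ℝ}
    (hc : 0 < c) (hc' : 0 < c')
    (hcrit : ∀ x, (derivative (∏ i, (X - C (β i)))).eval x = 0 →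
      c ≤ ‖(∏ i, (X - C (β i))).eval x‖)
    (hcrit' : ∀ x, (derivative (∏ i, (X - C (β' i)))).eval x = 0 →
      c' ≤ ‖(∏ i, (X - C (β' i))).eval x‖) (hbig : 1 < ‖Λ‖ * c * c') :
    ∃ (x : Fin (g + 1) → ℝ → ℂ) (y : Fin (g' + 1) → ℝ → ℂ),
      (∀ k, ContDiff ℝ 2 (x k)) ∧ (∀ l, ContDiff ℝ 2 (y l)) ∧ (∀ k s, x k (s + 1) = x k s) ∧
      (∀ l s, y l (s + 1) = y l s) ∧
      (∀ k l s, Λ * ((∏ i, (x k s - β i)) * ∏ j, (y l s - β' j)) = 1) ∧
      ∀ v : Fin g → Fin g' → ℝ, (∀ (m : Fin g) (n : Fin g'), ∑ k, ∑ l, v k l *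
        pr (fun s => (x k.castSucc s - β m.castSucc) / (x k.castSucc s - β m.succ))
          (fun s => (y l.castSucc s - β' n.castSucc) / (y l.castSucc s - β' n.succ)) = 0) →
        ∀ k l, v k l = 0 := by
  obtain ⟨μ, hμ, G, φ, H, h0, hprod⟩ := exists_branches_at (Nat.succ_pos g) β hβ hc hcrit
  obtain ⟨ν, hν, G', φ', H', h0', hprod'⟩ := exists_branches_at (Nat.succ_pos g') β' hβ' hc' hcrit'
  have hμc : (μ : ℂ) ≠ 0 := by exact_mod_cast hμ.ne'
  have hνc : (ν : ℂ) ≠ 0 := by exact_mod_cast hν.ne'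
  -- the radii
  obtain ⟨s, hs0, hs1, hs⟩ : ∃ s : ℝ, 0 < s ∧ s < 1 ∧ 1 < ‖Λ‖ * (s * c) * (s * c') := by
    have h1 : Tendsto (fun s : ℝ => ‖Λ‖ * (s * c) * (s * c')) (𝓝[<] 1)
        (𝓝 (‖Λ‖ * (1 * c) * (1 * c'))) := by
      have h2 : Continuous fun s : ℝ => ‖Λ‖ * (s * c) * (s * c') := by fun_prop
      exact h2.tendsto' _ _ rfl |>.mono_left nhdsWithin_le_nhds
    rw [one_mul, one_mul] at h1
    have h3 := h1.eventually (lt_mem_nhds hbig)
    have h4 : ∀ᶠ s : ℝ in 𝓝[<] 1, 0 < s :=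
      nhdsWithin_le_nhds (lt_mem_nhds one_pos)
    obtain ⟨s, ⟨h5, h6⟩, h7⟩ := ((h3.and h4).and self_mem_nhdsWithin).exists
    exact ⟨s, h6, h7, h5⟩
  set R : ℝ := s * c / μ ^ (g + 1) with hR
  set R' : ℝ := s * c' / ν ^ (g' + 1) with hR'
  have hμn : (0 : ℝ) < μ ^ (g + 1) := pow_pos hμ _
  have hνn : (0 : ℝ) < ν ^ (g' + 1) := pow_pos hν _
  have hR0 : 0 < R := by positivity
  have hR0' : 0 < R' := by positivity
  have hRc : R < c / μ ^ (g + 1) := by
    rw [hR]
    refine div_lt_div_of_pos_right ?_ hμn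
    nlinarith
  have hRc' : R' < c' / ν ^ (g' + 1) := by
    rw [hR']
    refine div_lt_div_of_pos_right ?_ hνn
    nlinarith
  have hV : ∀ z : ℂ, ‖z‖ ≤ R → z ∈ ball (0 : ℂ) (c / μ ^ (g + 1)) := fun z hz => by
    rw [mem_ball_zero_iff]
    linarith
  have hV' : ∀ z : ℂ, ‖z‖ ≤ R' → z ∈ ball (0 : ℂ) (c' / ν ^ (g' + 1)) := fun z hz => by
    rw [mem_ball_zero_iff]
    linarith
  have hRcc : (R : ℂ) ≠ 0 := by exact_mod_cast hR0.ne'
  set κ : ℂ := (Λ * (μ : ℂ) ^ (g + 1) * (ν : ℂ) ^ (g' + 1) * R)⁻¹ with hκ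
  have hκ0 : κ ≠ 0 := inv_ne_zero (mul_ne_zero (mul_ne_zero (mul_ne_zero hΛ (pow_ne_zero _ hμc))
    (pow_ne_zero _ hνc)) hRcc)
  have hΛp : 0 < ‖Λ‖ := norm_pos_iff.2 hΛ
  have hκn : ‖κ‖ / R' = (‖Λ‖ * (s * c) * (s * c'))⁻¹ := by
    rw [hκ, norm_inv, norm_mul, norm_mul, norm_mul, norm_pow, norm_pow, Complex.norm_real,
      Complex.norm_real, Complex.norm_real, Real.norm_eq_abs, Real.norm_eq_abs, Real.norm_eq_abs,
      abs_of_pos hμ, abs_of_pos hν, abs_of_pos hR0, hR, hR']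
    field_simp
  have hκ3 : ‖κ‖ < R' := by
    have h1 : ‖κ‖ / R' < 1 := by
      rw [hκn]
      exact inv_lt_one_of_one_lt₀ hs
    rwa [div_lt_one hR0'] at h1
  have hκR : ‖κ‖ ≤ R' := hκ3.le
  have hvV : ∀ s, vv κ s ∈ ball (0 : ℂ) (c' / ν ^ (g' + 1)) := fun s => hV' _ (by
    rw [norm_vv]
    exact hκR)
  have huV : ∀ s, circ R s ∈ ball (0 : ℂ) (c / μ ^ (g + 1)) := fun s => hV _
    (norm_circ hR0.le s).le
  refine ⟨fun k s => (μ : ℂ) * φ k (circ R s), fun l s => (ν : ℂ) * φ' l (vv κ s),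
    fun k => contDiff_const.mul (contDiff_gc hV (H.differentiableOn k) H.isOpen (contDiff_circ R)
      fun t => (norm_circ hR0.le t).le),
    fun l => contDiff_const.mul (contDiff_gc hV' (H'.differentiableOn l) H'.isOpen (contDiff_vv κ)
      fun t => by rw [norm_vv]; exact hκR),
    fun k s => by simp only [circ_add_one], fun l s => by simp only [vv_add_one],
    fun k l s => ?_, fun v hv => ?_⟩
  · simp only
    rw [hprod k _ (huV s), hprod' l _ (hvV s)]
    have h1 : vv κ s = κ / circ 1 s := rfl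
    have h2 : circ R s = (R : ℂ) * circ 1 s := Pool.Agent.N686.EL.circ_eq_mul R s
    have h3 : circ 1 s ≠ 0 := (nz_circ one_pos).ne_zero s
    rw [h1, h2, hκ]
    field_simp
  · refine nonsing_sub H H' hR0 hR0' hV hV' hκ0 hκ3 v fun m n => ?_
    rw [← hv m n]
    refine Finset.sum_congr rfl fun k _ => Finset.sum_congr rfl fun l _ => ?_
    congr 2
    · funext s
      rw [← h0, ← h0, ← mul_sub, ← mul_sub, mul_div_mul_left _ _ hμc]
    · funext s
      rw [← h0', ← h0', ← mul_sub, ← mul_sub, mul_div_mul_left _ _ hνc]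

end Pool.Agent.N686.DI
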