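import Mathlib
set_option autoImplicit false

/-!
A quadratic form which is nonnegative on the vectors with sum zero is a sum of squares there.
-/

namespace Pool.Agent.N686.DI

open Finset Matrix

open scoped MatrixOrder

theorem exists_gram {p : ℕ} (A : Fin p → Fin p → ℝ) (hs : ∀ i j, A i j = A j i)
    (hpos : ∀ c : Fin p → ℝ, ∑ i, c i = 0 → 0 ≤ ∑ k, ∑ i, c k * c i * A k i) :
    ∃ w : Fin p → Fin p → ℝ, ∀ c d : Fin p → ℝ, ∑ i, c i = 0 → ∑ i, d i = 0 →
      ∑ k, ∑ i, c k * d i * A k i = ∑ s, (∑ k, w s k * c k) * ∑ i, w s i * d i := by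
  classical
  rcases Nat.eq_zero_or_pos p with hp | hp
  · subst hp
    exact ⟨fun _ _ => 0, fun c d _ _ => by simp⟩
  have hp0 : (p : ℝ) ≠ 0 := by exact_mod_cast hp.ne'
  -- the centred matrix
  set r : Fin p → ℝ := fun i => (∑ j, A i j) / p with hr
  set t : ℝ := (∑ i, r i) / p with ht
  set B : Matrix (Fin p) (Fin p) ℝ := Matrix.of fun i j => A i j - r i - r j + t with hB
  -- the form of the centred matrix
  have hform : ∀ x y : Fin p → ℝ, ∑ k, ∑ i, x k * y i * B k i =
      ∑ k, ∑ i, (x k - (∑ j, x j) / p) * (y i - (∑ j, y j) / p) * A k i := by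
    intro x y
    set mx := (∑ j, x j) / p with hmx
    set my := (∑ j, y j) / p with hmy
    have hX : ∑ j, x j = mx * p := by rw [hmx]; field_simp
    have hY : ∑ j, y j = my * p := by rw [hmy]; field_simp
    have hrow : ∀ k, ∑ i, A k i = r k * p := fun k => by simp only [hr]; field_simp
    have hcol : ∀ i, ∑ k, A k i = r i * p := fun i => by
      rw [← hrow i]
      exact Finset.sum_congr rfl fun k _ => hs k i
    have hrs : ∑ i, r i = t * p := by rw [ht]; field_simp
    have e1 : ∑ k, ∑ i, x k * y i * B k i = (∑ k, ∑ i, x k * y i * A k i) -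
        (∑ k, x k * r k) * (my * p) - (mx * p) * (∑ i, y i * r i) + mx * p * (my * p) * t := by
      have e2 : ∀ k i, x k * y i * B k i = x k * y i * A k i - x k * r k * y i -
          x k * (y i * r i) + x k * (y i * t) := fun k i => by
        simp only [hB, Matrix.of_apply]
        ring
      simp only [e2, Finset.sum_add_distrib, Finset.sum_sub_distrib]
      simp only [← Finset.mul_sum, ← Finset.sum_mul]
      rw [hX, hY]
      ring
    have e3 : ∑ k, ∑ i, (x k - mx) * (y i - my) * A k i = (∑ k, ∑ i, x k * y i * A k i) -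
        my * (∑ k, x k * (r k * p)) - mx * (∑ i, y i * (r i * p)) + mx * my * (t * p * p) := by
      have e4 : ∀ k i, (x k - mx) * (y i - my) * A k i = x k * y i * A k i -
          my * (x k * A k i) - mx * (y i * A k i) + mx * my * A k i := fun k i => by ring
      simp only [e4, Finset.sum_add_distrib, Finset.sum_sub_distrib]
      have e5 : ∑ k, ∑ i, my * (x k * A k i) = my * (∑ k, x k * (r k * p)) := by
        rw [Finset.mul_sum]
        refine Finset.sum_congr rfl fun k _ => ?_
        rw [← Finset.mul_sum, ← Finset.mul_sum, hrow]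
      have e6 : ∑ k, ∑ i, mx * (y i * A k i) = mx * (∑ i, y i * (r i * p)) := by
        rw [Finset.sum_comm, Finset.mul_sum]
        refine Finset.sum_congr rfl fun i _ => ?_
        rw [← Finset.mul_sum, ← Finset.mul_sum, hcol]
      have e7 : ∑ k, ∑ i, mx * my * A k i = mx * my * (t * p * p) := by
        simp only [← Finset.mul_sum, hrow]
        rw [← Finset.sum_mul, hrs]
      rw [e5, e6, e7]
    have e8 : ∑ k, x k * (r k * p) = (∑ k, x k * r k) * p := by
      rw [Finset.sum_mul]
      exact Finset.sum_congr rfl fun k _ => by ring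
    have e9 : ∑ i, y i * (r i * p) = (∑ i, y i * r i) * p := by
      rw [Finset.sum_mul]
      exact Finset.sum_congr rfl fun k _ => by ring
    rw [e1, e3, e8, e9]
    ring
  have hzero : ∀ x : Fin p → ℝ, ∑ k, (x k - (∑ j, x j) / p) = 0 := by
    intro x
    rw [Finset.sum_sub_distrib, Finset.sum_const, Finset.card_univ, Fintype.card_fin,
      nsmul_eq_mul]
    field_simp
    ring
  have hdot : ∀ x y : Fin p → ℝ, x ⬝ᵥ (B *ᵥ y) = ∑ k, ∑ i, x k * y i * B k i := by
    intro x y
    simp only [dotProduct, mulVec, Finset.mul_sum]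
    exact Finset.sum_congr rfl fun k _ => Finset.sum_congr rfl fun i _ => by ring
  have hBpos : B.PosSemidef := by
    refine Matrix.PosSemidef.of_dotProduct_mulVec_nonneg ?_ fun x => ?_
    · ext i j
      simp only [Matrix.conjTranspose_apply, hB, Matrix.of_apply, star_trivial]
      rw [hs j i]
      ring
    · rw [star_trivial, hdot, hform]
      exact hpos _ (hzero x)
  obtain ⟨W, hW⟩ := CStarAlgebra.nonneg_iff_eq_star_mul_self.mp hBpos.nonneg
  refine ⟨fun s k => W s k, fun c d hc hd => ?_⟩
  have h1 : ∑ k, ∑ i, c k * d i * A k i = c ⬝ᵥ (B *ᵥ d) := by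
    rw [hdot, hform, hc, hd]
    simp
  rw [h1, hW, star_eq_conjTranspose, ← Matrix.mulVec_mulVec, dotProduct_mulVec,
    Matrix.vecMul_conjTranspose]
  simp only [star_trivial, dotProduct, mulVec]

end Pool.Agent.N686.DI
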