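import Mathlib
set_option autoImplicit false

/-!
The critical values of polynomials with distinct integral roots.
-/

namespace Pool.Agent.N686.DI

open Polynomial

set_option maxHeartbeats 400000

/-- the logarithmic derivative vanishes at the critical points -/
theorem sum_inv_eq_zero {n : ℕ} (β : Fin n → ℂ) (hβ : Function.Injective β) {ξ : ℂ}
    (hξ : (derivative (∏ i, (X - C (β i)))).eval ξ = 0) :
    (∀ i, ξ - β i ≠ 0) ∧ ∑ i, (ξ - β i)⁻¹ = 0 := by
  classical
  have h1 : ∑ i, ∏ j ∈ Finset.univ.erase i, (ξ - β j) = 0 := by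
    rw [← hξ, derivative_prod_finset]
    simp [eval_finsetSum, eval_prod]
  have h2 : ∀ i, ξ - β i ≠ 0 := by
    intro k hk
    have h3 : ∑ i, ∏ j ∈ Finset.univ.erase i, (ξ - β j) =
        ∏ j ∈ Finset.univ.erase k, (ξ - β j) := by
      refine Finset.sum_eq_single k (fun i _ hi => ?_) (fun h => absurd (Finset.mem_univ k) h)
      exact Finset.prod_eq_zero (Finset.mem_erase.2 ⟨Ne.symm hi, Finset.mem_univ k⟩) hk
    rw [h3] at h1
    obtain ⟨j, hj, hj0⟩ := Finset.prod_eq_zero_iff.1 h1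
    have h4 : β k = β j := by
      rw [← sub_eq_zero.1 hk, ← sub_eq_zero.1 hj0]
    exact (Finset.ne_of_mem_erase hj) (hβ h4).symm
  refine ⟨h2, ?_⟩
  have h3 : ∀ i, (ξ - β i)⁻¹ = (∏ j, (ξ - β j))⁻¹ * ∏ j ∈ Finset.univ.erase i, (ξ - β j) := by
    intro i
    rw [← Finset.mul_prod_erase _ _ (Finset.mem_univ i)]
    have h4 : ∏ j ∈ Finset.univ.erase i, (ξ - β j) ≠ 0 :=
      Finset.prod_ne_zero_iff.2 fun j _ => h2 j
    have h5 := h2 i
    field_simp
  simp only [h3]
  rw [← Finset.mul_sum, h1, mul_zero]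

theorem real_of_crit {n : ℕ} (a : Fin n → ℝ) {ξ : ℂ} (hn : 0 < n) (h0 : ∀ i, ξ - a i ≠ 0)
    (hξ : ∑ i, (ξ - a i)⁻¹ = 0) : ξ.im = 0 := by
  have h1 := congrArg Complex.im hξ
  simp only [Complex.im_sum, Complex.inv_im, Complex.sub_im, Complex.ofReal_im, sub_zero,
    Complex.zero_im, neg_div] at h1
  rw [Finset.sum_neg_distrib, neg_eq_zero] at h1
  by_contra him
  have h2 : ∀ i, 0 < (Complex.normSq (ξ - a i))⁻¹ := fun i =>
    inv_pos.2 (Complex.normSq_pos.2 (h0 i))
  have h3 : ξ.im * ∑ i, (Complex.normSq (ξ - a i))⁻¹ = 0 := by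
    rw [Finset.mul_sum, ← h1]
    exact Finset.sum_congr rfl fun i _ => rfl
  have h4 : 0 < ∑ i, (Complex.normSq (ξ - a i))⁻¹ :=
    Finset.sum_pos (fun i _ => h2 i) ⟨⟨0, hn⟩, Finset.mem_univ _⟩
  exact him ((mul_eq_zero.1 h3).resolve_right h4.ne')

/-- The critical values are at least as large as the values in the same interval. -/
theorem le_crit_value {n : ℕ} (a : Fin n → ℝ) {x m : ℝ} (h0 : ∀ i, x - a i ≠ 0)
    (hx : ∑ i, (x - a i)⁻¹ = 0) (hm : ∀ i, 0 < (m - a i) / (x - a i)) :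
    ∏ i, |m - a i| ≤ ∏ i, |x - a i| := by
  have h1 : ∀ i, (m - a i) / (x - a i) = (m - x) * (x - a i)⁻¹ + 1 := by
    intro i
    have := h0 i
    field_simp
    ring
  have h2 : ∏ i, (m - a i) / (x - a i) ≤ 1 := by
    calc ∏ i, (m - a i) / (x - a i) ≤ ∏ i, Real.exp ((m - x) * (x - a i)⁻¹) := by
          refine Finset.prod_le_prod (fun i _ => (hm i).le) fun i _ => ?_
          rw [h1]
          exact Real.add_one_le_exp _
      _ = 1 := by rw [← Real.exp_sum, ← Finset.mul_sum, hx, mul_zero, Real.exp_zero]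
  have h3 : ∀ i, |m - a i| = (m - a i) / (x - a i) * |x - a i| := by
    intro i
    have h4 : 0 < |x - a i| := abs_pos.2 (h0 i)
    have h5 : (m - a i) / (x - a i) = |m - a i| / |x - a i| := by
      rw [← abs_div, abs_of_pos (hm i)]
    rw [h5, div_mul_cancel₀ _ h4.ne']
  simp only [h3]
  rw [Finset.prod_mul_distrib]
  exact mul_le_of_le_one_left (Finset.prod_nonneg fun i _ => abs_nonneg _) h2

/-- products over finite sets of natural numbers -/
theorem prod_range_card_le (f : ℕ → ℝ) (hf0 : ∀ k, 0 ≤ f k) (hf : Monotone f) (s : Finset ℕ) :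
    ∏ k ∈ Finset.range s.card, f k ≤ ∏ k ∈ s, f k := by
  induction s using Finset.induction_on_max with
  | empty => simp
  | insert a s hs ih =>
    have ha : a ∉ s := fun h => lt_irrefl _ (hs a h)
    rw [Finset.card_insert_of_notMem ha, Finset.prod_range_succ, Finset.prod_insert ha, mul_comm]
    have h1 : s.card ≤ a := by
      have h2 : s ⊆ Finset.range a := fun x hx => Finset.mem_range.2 (hs x hx)
      simpa using Finset.card_le_card h2
    exact mul_le_mul (hf h1) ih (Finset.prod_nonneg fun k _ => hf0 k) (hf0 _)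

theorem prod_le_of_injective {n : ℕ} (f : ℕ → ℝ) (hf0 : ∀ k, 0 ≤ f k) (hf : Monotone f)
    (w : Fin n → ℕ) (hw : Function.Injective w) :
    ∏ k ∈ Finset.range n, f k ≤ ∏ i, f (w i) := by
  have h1 := prod_range_card_le f hf0 hf (Finset.univ.image w)
  rw [Finset.card_image_of_injective _ hw, Finset.card_univ, Fintype.card_fin,
    Finset.prod_image fun i _ j _ h => hw h] at h1
  exact h1

/-- the lower bound for the critical values: `1/2 * 1/2 * 3/2 * 3/2 * 5/2 * ...` with `n` factors -/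
noncomputable def mm (n : ℕ) : ℝ := ∏ k ∈ Finset.range n, (((k / 2 : ℕ) : ℝ) + 1 / 2)

theorem mm_succ (n : ℕ) : mm (n + 1) = mm n * (((n / 2 : ℕ) : ℝ) + 1 / 2) :=
  Finset.prod_range_succ _ _

theorem mm_pos (n : ℕ) : 0 < mm n := Finset.prod_pos fun k _ => by positivity

theorem mm_two : mm 2 = 1 / 4 := by
  rw [mm_succ, mm_succ]
  simp [mm]
  norm_num

theorem mm_five : mm 5 = 45 / 32 := by
  rw [mm_succ, mm_succ, mm_succ, mm_two]
  norm_num

theorem mm_le_succ {n : ℕ} (hn : 2 ≤ n) : mm n ≤ mm (n + 1) := by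
  rw [mm_succ]
  have h1 : 1 ≤ n / 2 := by omega
  have h2 : (1 : ℝ) ≤ ((n / 2 : ℕ) : ℝ) := by exact_mod_cast h1
  have h3 := mm_pos n
  nlinarith

theorem mm_ge {n : ℕ} (hn : 2 ≤ n) : 1 / 4 ≤ mm n := by
  induction n, hn using Nat.le_induction with
  | base => rw [mm_two]
  | succ n hn ih => exact ih.trans (mm_le_succ hn)

theorem mm_ge_five {n : ℕ} (hn : 5 ≤ n) : 45 / 32 ≤ mm n := by
  induction n, hn using Nat.le_induction with
  | base => rw [mm_five]
  | succ n hn ih => exact ih.trans (mm_le_succ (by omega))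

/-- the enumeration of the integers by their distance from `N + 1/2` -/
def enu (N a : ℤ) : ℕ := if a ≤ N then 2 * (N - a).toNat + 1 else 2 * (a - N - 1).toNat

theorem enu_injective (N : ℤ) : Function.Injective (enu N) := by
  intro a b h
  unfold enu at h
  split_ifs at h <;> omega

theorem abs_sub_half (N a : ℤ) : |(N : ℝ) + 1 / 2 - a| = ((enu N a / 2 : ℕ) : ℝ) + 1 / 2 := by
  unfold enu
  split_ifs with h
  · have h1 : (2 * (N - a).toNat + 1) / 2 = (N - a).toNat := by omega
    have h2 : (((N - a).toNat : ℕ) : ℝ) = (N : ℝ) - a := by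
      have h3 : (((N - a).toNat : ℕ) : ℤ) = N - a := Int.toNat_of_nonneg (by omega)
      exact_mod_cast congrArg (fun x : ℤ => (x : ℝ)) h3
    have h4 : (a : ℝ) ≤ N := by exact_mod_cast h
    rw [h1, h2, abs_of_nonneg (by linarith)]
    ring
  · have h1 : (2 * (a - N - 1).toNat) / 2 = (a - N - 1).toNat := by omega
    have h2 : (((a - N - 1).toNat : ℕ) : ℝ) = (a : ℝ) - N - 1 := by
      have h3 : (((a - N - 1).toNat : ℕ) : ℤ) = a - N - 1 := Int.toNat_of_nonneg (by omega)
      exact_mod_cast congrArg (fun x : ℤ => (x : ℝ)) h3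
    have h4 : (N : ℝ) + 1 ≤ a := by exact_mod_cast (by omega : N + 1 ≤ a)
    rw [h1, h2, abs_of_nonpos (by linarith)]
    ring

theorem mm_le_prod {n : ℕ} (b : Fin n → ℤ) (hb : Function.Injective b) (N : ℤ) :
    mm n ≤ ∏ i, |(N : ℝ) + 1 / 2 - b i| := by
  have hmono : Monotone fun k : ℕ => ((k / 2 : ℕ) : ℝ) + 1 / 2 := by
    intro i j hij
    have h1 : i / 2 ≤ j / 2 := Nat.div_le_div_right hij
    have h2 : ((i / 2 : ℕ) : ℝ) ≤ ((j / 2 : ℕ) : ℝ) := by exact_mod_cast h1
    linarith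
  simp only [abs_sub_half]
  exact prod_le_of_injective _ (fun k => by positivity) hmono _ ((enu_injective N).comp hb)

/-- **The critical values of polynomials with distinct integral roots.** -/
theorem crit_int {n : ℕ} (hn : 0 < n) (a : Fin n → ℤ) (ha : Function.Injective a) {ξ : ℂ}
    (hξ : (derivative (∏ i, (X - C (a i : ℂ)))).eval ξ = 0) :
    mm n ≤ ‖∏ i, (ξ - (a i : ℂ))‖ := by
  have hinj : Function.Injective fun i => (a i : ℂ) := fun i j h =>
    ha (Int.cast_injective h)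
  obtain ⟨h0, hsum⟩ := sum_inv_eq_zero _ hinj hξ
  have hcast : ∀ i, (a i : ℂ) = ((a i : ℝ) : ℂ) := fun i => by push_cast; rfl
  have him : ξ.im = 0 := by
    refine real_of_crit (fun i => (a i : ℝ)) hn (fun i => ?_) ?_
    · rw [← hcast]
      exact h0 i
    · simpa only [hcast] using hsum
  set x : ℝ := ξ.re with hx
  have hξx : ξ = (x : ℂ) := by
    apply Complex.ext
    · simp [hx]
    · simpa using him
  have hx0 : ∀ i, x - a i ≠ 0 := by
    intro i h
    refine h0 i ?_
    rw [hξx, hcast, ← Complex.ofReal_sub, h, Complex.ofReal_zero]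
  have hxs : ∑ i, (x - a i)⁻¹ = 0 := by
    have h1 : ((∑ i, (x - a i)⁻¹ : ℝ) : ℂ) = 0 := by
      rw [← hsum]
      push_cast
      rw [hξx]
    exact_mod_cast h1
  have hnorm : ‖∏ i, (ξ - (a i : ℂ))‖ = ∏ i, |x - a i| := by
    rw [norm_prod]
    refine Finset.prod_congr rfl fun i _ => ?_
    rw [hξx, hcast, ← Complex.ofReal_sub, Complex.norm_real, Real.norm_eq_abs]
  rw [hnorm]
  set N : ℤ := ⌊x⌋ with hN
  have hN1 : (N : ℝ) ≤ x := Int.floor_le x
  have hN2 : x < N + 1 := Int.lt_floor_add_one x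
  rcases hN1.eq_or_lt with he | hlt
  · -- an integral critical point
    have haN : ∀ i, a i ≠ N := by
      intro i h
      refine hx0 i ?_
      rw [h, ← he, sub_self]
    set b : Fin n → ℤ := fun i => if a i < N then a i + 1 else a i with hb
    have hbi : Function.Injective b := by
      intro i j h
      have h1 := haN i
      have h2 := haN j
      apply ha
      simp only [hb] at h
      split_ifs at h <;> omega
    refine (mm_le_prod b hbi N).trans (Finset.prod_le_prod (fun i _ => abs_nonneg _) fun i _ => ?_)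
    have h1 := haN i
    rw [← he]
    simp only [hb]
    split_ifs with h2
    · have h3 : (a i : ℝ) + 1 ≤ N := by exact_mod_cast (by omega : a i + 1 ≤ N)
      push_cast
      rw [abs_of_nonneg (by linarith), abs_of_nonneg (by linarith)]
      linarith
    · have h3 : (N : ℝ) + 1 ≤ a i := by exact_mod_cast (by omega : N + 1 ≤ a i)
      rw [abs_of_nonpos (by linarith), abs_of_nonpos (by linarith)]
      linarith
  · -- the nearest half-integer
    refine (mm_le_prod a ha N).trans (le_crit_value (fun i => (a i : ℝ)) (x := x) (m := N + 1 / 2) hx0 hxs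
      fun i => ?_)
    rcases le_or_gt (a i) N with h | h
    · have h2 : (a i : ℝ) ≤ N := by exact_mod_cast h
      exact div_pos (by linarith) (by linarith)
    · have h2 : (N : ℝ) + 1 ≤ a i := by exact_mod_cast (by omega : N + 1 ≤ a i)
      exact div_pos_of_neg_of_neg (by linarith) (by linarith)

/-- The critical values are at least `1/4`. -/
theorem crit_int_ge {n : ℕ} (a : Fin (n + 1) → ℤ) (ha : Function.Injective a) {ξ : ℂ}
    (hξ : (derivative (∏ i, (X - C (a i : ℂ)))).eval ξ = 0) :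
    1 ≤ n ∧ 1 / 4 ≤ ‖∏ i, (ξ - (a i : ℂ))‖ := by
  have h1 : 1 ≤ n := by
    by_contra h
    have h0 : n = 0 := by omega
    subst h0
    rw [Fin.prod_univ_one, derivative_sub, derivative_X, derivative_C, sub_zero, eval_one] at hξ
    exact one_ne_zero hξ
  exact ⟨h1, (mm_ge (by omega)).trans (crit_int (Nat.succ_pos n) a ha hξ)⟩

/-- For different integral roots and `|m| ≥ 17` the products of `m` and of two critical values have
absolute value larger than `1`. -/
theorem one_lt_of_int {n n' : ℕ} (b : Fin (n + 1) → ℤ) (hb : Function.Injective b)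
    (b' : Fin (n' + 1) → ℤ) (hb' : Function.Injective b') {m : ℤ} (hm : 17 ≤ |m|) {ξ η : ℂ}
    (hξ : (derivative (∏ i, (X - C (b i : ℂ)))).eval ξ = 0)
    (hη : (derivative (∏ i, (X - C (b' i : ℂ)))).eval η = 0) :
    1 < ‖(m : ℂ) * (∏ i, (ξ - (b i : ℂ))) * ∏ i, (η - (b' i : ℂ))‖ := by
  have h1 := (crit_int_ge b hb hξ).2
  have h2 := (crit_int_ge b' hb' hη).2
  have h3 : (17 : ℝ) ≤ ‖(m : ℂ)‖ := by
    rw [Complex.norm_intCast]
    exact_mod_cast hm
  rw [norm_mul, norm_mul]
  have h4 : (17 : ℝ) * (1 / 4) * (1 / 4) ≤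
      ‖(m : ℂ)‖ * ‖∏ i, (ξ - (b i : ℂ))‖ * ‖∏ i, (η - (b' i : ℂ))‖ :=
    mul_le_mul (mul_le_mul h3 h1 (by norm_num) (by positivity)) h2 (by norm_num) (by positivity)
  linarith

/-- For at least five different integral roots of both polynomials the products of critical values
have absolute value larger than `1`: no hypothesis on `m ≠ 0`. -/
theorem one_lt_of_int_five {n n' : ℕ} (hn : 4 ≤ n) (hn' : 4 ≤ n') (b : Fin (n + 1) → ℤ)
    (hb : Function.Injective b) (b' : Fin (n' + 1) → ℤ) (hb' : Function.Injective b') {m : ℤ}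
    (hm : m ≠ 0) {ξ η : ℂ} (hξ : (derivative (∏ i, (X - C (b i : ℂ)))).eval ξ = 0)
    (hη : (derivative (∏ i, (X - C (b' i : ℂ)))).eval η = 0) :
    1 < ‖(m : ℂ) * (∏ i, (ξ - (b i : ℂ))) * ∏ i, (η - (b' i : ℂ))‖ := by
  have h1 := (mm_ge_five (by omega : 5 ≤ n + 1)).trans (crit_int (Nat.succ_pos n) b hb hξ)
  have h2 := (mm_ge_five (by omega : 5 ≤ n' + 1)).trans (crit_int (Nat.succ_pos n') b' hb' hη)
  have h3 : (1 : ℝ) ≤ ‖(m : ℂ)‖ := by
    rw [Complex.norm_intCast]
    exact_mod_cast Int.one_le_abs hm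
  rw [norm_mul, norm_mul]
  have h4 : (1 : ℝ) * (45 / 32) * (45 / 32) ≤
      ‖(m : ℂ)‖ * ‖∏ i, (ξ - (b i : ℂ))‖ * ‖∏ i, (η - (b' i : ℂ))‖ :=
    mul_le_mul (mul_le_mul h3 h1 (by norm_num) (by positivity)) h2 (by norm_num) (by positivity)
  linarith

end Pool.Agent.N686.DI
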