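import Pool.Agent.N686.DI.Int
set_option autoImplicit false

/-!
The critical values of polynomials with distinct integral roots and their diameter.
-/

namespace Pool.Agent.N686.DI

open Polynomial

set_option maxHeartbeats 400000

theorem mm_one : mm 1 = 1 / 2 := by
  rw [mm_succ]
  simp [mm]

theorem mm_ge_one {n : ℕ} (hn : 1 ≤ n) : 1 / 4 ≤ mm n := by
  rcases hn.eq_or_lt with h | h
  · rw [← h, mm_one]
    norm_num
  · exact mm_ge h

theorem mm_six : mm 6 = 225 / 64 := by
  rw [mm_succ, mm_five]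
  norm_num

theorem mm_ge_six {n : ℕ} (hn : 6 ≤ n) : 225 / 64 ≤ mm n := by
  induction n, hn using Nat.le_induction with
  | base => rw [mm_six]
  | succ n hn ih => exact ih.trans (mm_le_succ (by omega))

theorem erase_le {n : ℕ} (f : ℕ → ℝ) (hf0 : ∀ k, 0 ≤ f k) (hf : Monotone f)
    (w : Fin (n + 1) → ℕ) (hw : Function.Injective w) (i : Fin (n + 1)) :
    f (w i) * ∏ k ∈ Finset.range n, f k ≤ ∏ i, f (w i) := by
  rw [Fin.prod_univ_succAbove _ i]
  refine mul_le_mul_of_nonneg_left ?_ (hf0 _)
  exact prod_le_of_injective f hf0 hf (fun j => w (i.succAbove j))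
    (hw.comp Fin.succAbove_right_injective)

/-- A lower bound for the values at half-integers, with the distance of two of the roots. -/
theorem diam_le_prod {n : ℕ} (b : Fin (n + 1) → ℤ) (hb : Function.Injective b) (N : ℤ)
    (i j : Fin (n + 1)) :
    |(b i : ℝ) - b j| / 2 * mm n ≤ ∏ i, |(N : ℝ) + 1 / 2 - b i| := by
  have hmono : Monotone fun k : ℕ => ((k / 2 : ℕ) : ℝ) + 1 / 2 := by
    intro i j hij
    have h1 : i / 2 ≤ j / 2 := Nat.div_le_div_right hij
    have h2 : ((i / 2 : ℕ) : ℝ) ≤ ((j / 2 : ℕ) : ℝ) := by exact_mod_cast h1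
    linarith
  have hkey : ∀ l : Fin (n + 1), |(N : ℝ) + 1 / 2 - b l| * mm n ≤
      ∏ i, |(N : ℝ) + 1 / 2 - b i| := by
    intro l
    have h := erase_le (fun k : ℕ => ((k / 2 : ℕ) : ℝ) + 1 / 2) (fun k => by positivity) hmono _
      ((enu_injective N).comp hb) l
    simp only [abs_sub_half]
    exact h
  have h1 := hkey i
  have h2 := hkey j
  have h3 : |(b i : ℝ) - b j| ≤ |(N : ℝ) + 1 / 2 - b i| + |(N : ℝ) + 1 / 2 - b j| := by
    have e : (b i : ℝ) - b j = -((N : ℝ) + 1 / 2 - b i) + ((N : ℝ) + 1 / 2 - b j) := by ring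
    rw [e]
    refine (abs_add_le _ _).trans ?_
    rw [abs_neg]
  have h4 := mm_pos n
  nlinarith

/-- **The critical values of polynomials with distinct integral roots**, with a factor which is the
distance of two of the roots. -/
theorem crit_int_diam {n : ℕ} (a : Fin (n + 1) → ℤ) (ha : Function.Injective a) {ξ : ℂ}
    (hξ : (derivative (∏ i, (X - C (a i : ℂ)))).eval ξ = 0) (i j : Fin (n + 1)) :
    |(a i : ℝ) - a j| / 2 * mm n ≤ ‖∏ i, (ξ - (a i : ℂ))‖ := by
  have hn : 0 < n + 1 := Nat.succ_pos n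
  have hinj : Function.Injective fun i => (a i : ℂ) := fun i j h =>
    ha (Int.cast_injective h)
  obtain ⟨h0, hsum⟩ := sum_inv_eq_zero _ hinj hξ
  have hcast : ∀ i, (a i : ℂ) = ((a i : ℝ) : ℂ) := fun i => by push_cast; rfl
  have him : ξ.im = 0 := by
    refine real_of_crit (fun i => (a i : ℝ)) hn (fun i => ?_) ?_
    · rw [← hcast]
      exact h0 i
    · simpa only [hcast] using hsum
  set x : ℝ := ξ.re with hx
  have hξx : ξ = (x : ℂ) := by
    apply Complex.ext
    · simp [hx]
    · simpa using him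
  have hx0 : ∀ i, x - a i ≠ 0 := by
    intro i h
    refine h0 i ?_
    rw [hξx, hcast, ← Complex.ofReal_sub, h, Complex.ofReal_zero]
  have hxs : ∑ i, (x - a i)⁻¹ = 0 := by
    have h1 : ((∑ i, (x - a i)⁻¹ : ℝ) : ℂ) = 0 := by
      rw [← hsum]
      push_cast
      rw [hξx]
    exact_mod_cast h1
  have hnorm : ‖∏ i, (ξ - (a i : ℂ))‖ = ∏ i, |x - a i| := by
    rw [norm_prod]
    refine Finset.prod_congr rfl fun i _ => ?_
    rw [hξx, hcast, ← Complex.ofReal_sub, Complex.norm_real, Real.norm_eq_abs]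
  rw [hnorm]
  set N : ℤ := ⌊x⌋ with hN
  have hN1 : (N : ℝ) ≤ x := Int.floor_le x
  have hN2 : x < N + 1 := Int.lt_floor_add_one x
  rcases hN1.eq_or_lt with he | hlt
  · -- an integral critical point
    have haN : ∀ i, a i ≠ N := by
      intro i h
      refine hx0 i ?_
      rw [h, ← he, sub_self]
    have hkey : ∀ l, |x - a l| * mm n ≤ ∏ i, |x - a i| := by
      intro l
      set b : Fin (n + 1) → ℤ := fun i => if a i < N then a i + 1 else a i with hb
      have hbi : Function.Injective b := by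
        intro i j h
        have h1 := haN i
        have h2 := haN j
        apply ha
        simp only [hb] at h
        split_ifs at h <;> omega
      rw [Fin.prod_univ_succAbove _ l]
      refine mul_le_mul_of_nonneg_left ?_ (abs_nonneg _)
      have hbl : Function.Injective fun k => b (l.succAbove k) :=
        hbi.comp Fin.succAbove_right_injective
      refine (mm_le_prod _ hbl N).trans
        (Finset.prod_le_prod (fun i _ => abs_nonneg _) fun i _ => ?_)
      have h1 := haN (l.succAbove i)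
      rw [← he]
      simp only [hb]
      split_ifs with h2
      · have h3 : (a (l.succAbove i) : ℝ) + 1 ≤ N := by
          exact_mod_cast (by omega : a (l.succAbove i) + 1 ≤ N)
        push_cast
        rw [abs_of_nonneg (by linarith), abs_of_nonneg (by linarith)]
        linarith
      · have h3 : (N : ℝ) + 1 ≤ a (l.succAbove i) := by
          exact_mod_cast (by omega : N + 1 ≤ a (l.succAbove i))
        rw [abs_of_nonpos (by linarith), abs_of_nonpos (by linarith)]
        linarith
    have h1 := hkey i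
    have h2 := hkey j
    have h3 : |(a i : ℝ) - a j| ≤ |x - a i| + |x - a j| := by
      have e : (a i : ℝ) - a j = -(x - a i) + (x - a j) := by ring
      rw [e]
      refine (abs_add_le _ _).trans ?_
      rw [abs_neg]
    have h4 := mm_pos n
    nlinarith
  · -- the nearest half-integer
    refine (diam_le_prod a ha N i j).trans
      (le_crit_value (fun i => (a i : ℝ)) (x := x) (m := N + 1 / 2) hx0 hxs fun i => ?_)
    rcases le_or_gt (a i) N with h | h
    · have h2 : (a i : ℝ) ≤ N := by exact_mod_cast h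
      exact div_pos (by linarith) (by linarith)
    · have h2 : (N : ℝ) + 1 ≤ a i := by exact_mod_cast (by omega : N + 1 ≤ a i)
      exact div_pos_of_neg_of_neg (by linarith) (by linarith)

/-- The critical values are at least one eighth of the distance of any two roots. -/
theorem crit_int_eighth {n : ℕ} (a : Fin (n + 1) → ℤ) (ha : Function.Injective a) {ξ : ℂ}
    (hξ : (derivative (∏ i, (X - C (a i : ℂ)))).eval ξ = 0) (i j : Fin (n + 1)) :
    ((a i - a j : ℤ) : ℝ) / 8 ≤ ‖∏ i, (ξ - (a i : ℂ))‖ := by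
  have h0 := (crit_int_ge a ha hξ).1
  have h1 := crit_int_diam a ha hξ i j
  have h2 := mm_ge_one h0
  have h3 : ((a i - a j : ℤ) : ℝ) ≤ |(a i : ℝ) - a j| := by
    push_cast
    exact le_abs_self _
  have h4 := abs_nonneg ((a i : ℝ) - a j)
  nlinarith

theorem crit_int_abs {n : ℕ} (a : Fin (n + 1) → ℤ) (ha : Function.Injective a) {ξ : ℂ}
    (hξ : (derivative (∏ i, (X - C (a i : ℂ)))).eval ξ = 0) (i j : Fin (n + 1)) :
    ((|a i - a j| : ℤ) : ℝ) / 8 ≤ ‖∏ i, (ξ - (a i : ℂ))‖ := by
  rcases abs_choice (a i - a j) with h | h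
  · rw [h]
    exact crit_int_eighth a ha hξ i j
  · rw [h, neg_sub]
    exact crit_int_eighth a ha hξ j i

/-- For different integral roots, an integer `m`, and distances of the roots whose product with
`|m|` is larger than `64`, the products of `m` and two critical values have absolute value larger
than `1`. -/
theorem one_lt_of_int_diam {n n' : ℕ} (b : Fin (n + 1) → ℤ) (hb : Function.Injective b)
    (b' : Fin (n' + 1) → ℤ) (hb' : Function.Injective b') {m : ℤ} (i j : Fin (n + 1))
    (i' j' : Fin (n' + 1)) (hm : 64 < |m| * |b i - b j| * |b' i' - b' j'|) {ξ η : ℂ}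
    (hξ : (derivative (∏ i, (X - C (b i : ℂ)))).eval ξ = 0)
    (hη : (derivative (∏ i, (X - C (b' i : ℂ)))).eval η = 0) :
    1 < ‖(m : ℂ) * (∏ i, (ξ - (b i : ℂ))) * ∏ i, (η - (b' i : ℂ))‖ := by
  have h1 := crit_int_abs b hb hξ i j
  have h2 := crit_int_abs b' hb' hη i' j'
  have h3 : ((|m| : ℤ) : ℝ) ≤ ‖(m : ℂ)‖ := by
    rw [Complex.norm_intCast]
    push_cast
    exact le_rfl
  have h5 : (0 : ℝ) ≤ ((|b i - b j| : ℤ) : ℝ) := by exact_mod_cast abs_nonneg _
  have h6 : (0 : ℝ) ≤ ((|b' i' - b' j'| : ℤ) : ℝ) := by exact_mod_cast abs_nonneg _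
  have h7 : (0 : ℝ) ≤ ((|m| : ℤ) : ℝ) := by exact_mod_cast abs_nonneg m
  rw [norm_mul, norm_mul]
  have h4 : ((|m| : ℤ) : ℝ) * (((|b i - b j| : ℤ) : ℝ) / 8) *
      (((|b' i' - b' j'| : ℤ) : ℝ) / 8) ≤
      ‖(m : ℂ)‖ * ‖∏ i, (ξ - (b i : ℂ))‖ * ‖∏ i, (η - (b' i : ℂ))‖ :=
    mul_le_mul (mul_le_mul h3 h1 (by positivity) (by positivity)) h2 (by positivity)
      (by positivity)
  have h8 : (64 : ℝ) < ((|m| : ℤ) : ℝ) * ((|b i - b j| : ℤ) : ℝ) *
      ((|b' i' - b' j'| : ℤ) : ℝ) := by
    exact_mod_cast hm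
  nlinarith

end Pool.Agent.N686.DI
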