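import Pool.Agent.N686.DI.Gram
set_option autoImplicit false

/-!
The linear algebra: the equation `A T + T B + ℓ T = X(T)` has only the solution `T = 0`.
-/

namespace Pool.Agent.N686.DI

open Finset Filter Topology

set_option maxHeartbeats 400000

/-- geometric sums -/
theorem geom_le {x : ℝ} (h0 : 0 ≤ x) (h1 : 3 * x ≤ 1) (M : ℕ) :
    ∑ m ∈ Finset.Icc 1 M, x ^ m ≤ 1 / 2 := by
  have key : ∀ M : ℕ, ∑ m ∈ Finset.Icc 1 M, x ^ m ≤ 1 / 2 * (1 - x ^ M) := by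
    intro M
    induction M with
    | zero => simp
    | succ M ih =>
      rw [Finset.sum_Icc_succ_top (by omega), pow_succ]
      have h2 : 0 ≤ x ^ M := pow_nonneg h0 M
      nlinarith
  have h2 : 0 ≤ x ^ M := pow_nonneg h0 M
  have := key M
  linarith

/-- the form of a complex vector -/
theorem sq_norm_split (u v : ℂ) : (‖u‖ + ‖v‖) ^ 2 ≤ 2 * (‖u‖ ^ 2 + ‖v‖ ^ 2) := by
  nlinarith [sq_nonneg (‖u‖ - ‖v‖)]

variable {p q : ℕ} {A : Fin p → Fin p → ℝ} {B : Fin q → Fin q → ℝ} {α : ℕ → Fin p → Fin p → ℂ}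
  {β : ℕ → Fin q → Fin q → ℂ}

/-- the bound of a single coefficient -/
theorem single_le (hα : ∀ c : Fin p → ℝ, ∑ i, c i = 0 → ∀ M : ℕ,
      ∑ i, ∑ m ∈ Finset.Icc 1 M, (m : ℝ) / 2 * ‖∑ j, (c j : ℂ) * α m i j‖ ^ 2 ≤
        ∑ k, ∑ i, c k * c i * A k i) (c : Fin p → ℝ) (hc : ∑ i, c i = 0) {m : ℕ} (hm : 1 ≤ m) :
    (m : ℝ) ^ 2 * ∑ i, ‖∑ j, (c j : ℂ) * α m i j‖ ^ 2 ≤ 2 * m * ∑ k, ∑ i, c k * c i * A k i := by
  have h1 := hα c hc m
  have h2 : ∑ i, (m : ℝ) / 2 * ‖∑ j, (c j : ℂ) * α m i j‖ ^ 2 ≤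
      ∑ i, ∑ m ∈ Finset.Icc 1 m, (m : ℝ) / 2 * ‖∑ j, (c j : ℂ) * α m i j‖ ^ 2 :=
    Finset.sum_le_sum fun i _ => Finset.single_le_sum
      (f := fun m : ℕ => (m : ℝ) / 2 * ‖∑ j, (c j : ℂ) * α m i j‖ ^ 2)
      (fun m _ => by positivity) (Finset.mem_Icc.2 ⟨hm, le_rfl⟩)
  rw [← Finset.mul_sum] at h2
  have h3 := h2.trans h1
  have hm' : (1 : ℝ) ≤ m := by exact_mod_cast hm
  nlinarith

/-- The bound of the quadratic mean of the perturbation. -/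
theorem pert_le (hAs : ∀ i j, A i j = A j i)
    (hα : ∀ c : Fin p → ℝ, ∑ i, c i = 0 → ∀ M : ℕ,
      ∑ i, ∑ m ∈ Finset.Icc 1 M, (m : ℝ) / 2 * ‖∑ j, (c j : ℂ) * α m i j‖ ^ 2 ≤
        ∑ k, ∑ i, c k * c i * A k i)
    (hβ : ∀ c : Fin q → ℝ, ∑ i, c i = 0 → ∀ M : ℕ,
      ∑ i, ∑ m ∈ Finset.Icc 1 M, (m : ℝ) / 2 * ‖∑ j, (c j : ℂ) * β m i j‖ ^ 2 ≤
        ∑ k, ∑ i, c k * c i * B k i) {z : ℂ} (hz : 3 * ‖z‖ ^ 2 ≤ 1) (T : Fin p → Fin q → ℝ)
    (hT1 : ∀ j, ∑ i, T i j = 0) (hT2 : ∀ i, ∑ j, T i j = 0) (M : ℕ) :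
    ∑ k, ∑ l, (∑ m ∈ Finset.Icc 1 M, (m : ℝ) *
      (z ^ m * ∑ i, ∑ j, (T i j : ℂ) * α m k i * β m l j).re) ^ 2 ≤
      4 * ∑ k, ∑ l, (∑ i, A k i * T i l) * ∑ j, T k j * B j l := by
  classical
  have hpos : ∀ c : Fin p → ℝ, ∑ i, c i = 0 → 0 ≤ ∑ k, ∑ i, c k * c i * A k i := fun c hc => by
    have h := hα c hc 0
    simpa using h
  obtain ⟨w, hw⟩ := exists_gram A hAs hpos
  -- the vectors `T β`
  set Y : ℕ → Fin q → Fin p → ℂ := fun m l i => ∑ j, (T i j : ℂ) * β m l j with hY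
  have hYsum : ∀ m l, ∑ i, Y m l i = 0 := by
    intro m l
    simp only [hY]
    rw [Finset.sum_comm]
    refine Finset.sum_eq_zero fun j _ => ?_
    rw [← Finset.sum_mul, ← Complex.ofReal_sum, hT1 j]
    simp
  have hYre : ∀ m l, ∑ i, (Y m l i).re = 0 := fun m l => by
    rw [← Complex.re_sum, hYsum]
    simp
  have hYim : ∀ m l, ∑ i, (Y m l i).im = 0 := fun m l => by
    rw [← Complex.im_sum, hYsum]
    simp
  -- the two parts
  set a : ℕ → Fin p → Fin q → ℂ := fun m k l => ∑ i, ((Y m l i).re : ℂ) * α m k i with ha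
  set b : ℕ → Fin p → Fin q → ℂ := fun m k l => ∑ i, ((Y m l i).im : ℂ) * α m k i with hb
  have hab : ∀ m k l, ∑ i, ∑ j, (T i j : ℂ) * α m k i * β m l j =
      a m k l + b m k l * Complex.I := by
    intro m k l
    simp only [ha, hb]
    rw [Finset.sum_mul, ← Finset.sum_add_distrib]
    refine Finset.sum_congr rfl fun i _ => ?_
    have h1 : ((Y m l i).re : ℂ) * α m k i + ((Y m l i).im : ℂ) * α m k i * Complex.I =
        α m k i * Y m l i := by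
      conv_rhs => rw [← Complex.re_add_im (Y m l i)]
      ring
    rw [h1]
    simp only [hY]
    rw [Finset.mul_sum]
    exact Finset.sum_congr rfl fun j _ => by ring
  -- the pointwise bound
  have hpt : ∀ k l, (∑ m ∈ Finset.Icc 1 M, (m : ℝ) *
      (z ^ m * ∑ i, ∑ j, (T i j : ℂ) * α m k i * β m l j).re) ^ 2 ≤
      ∑ m ∈ Finset.Icc 1 M, (m : ℝ) ^ 2 * (‖a m k l‖ ^ 2 + ‖b m k l‖ ^ 2) := by
    intro k l
    have h1 : |∑ m ∈ Finset.Icc 1 M, (m : ℝ) *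
        (z ^ m * ∑ i, ∑ j, (T i j : ℂ) * α m k i * β m l j).re| ≤
        ∑ m ∈ Finset.Icc 1 M, ‖z‖ ^ m * ((m : ℝ) * (‖a m k l‖ + ‖b m k l‖)) := by
      refine (Finset.abs_sum_le_sum_abs _ _).trans (Finset.sum_le_sum fun m _ => ?_)
      rw [abs_mul, abs_of_nonneg (Nat.cast_nonneg m), hab]
      have h2 := Complex.abs_re_le_norm (z ^ m * (a m k l + b m k l * Complex.I))
      rw [norm_mul, norm_pow] at h2
      have h3 : ‖a m k l + b m k l * Complex.I‖ ≤ ‖a m k l‖ + ‖b m k l‖ := by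
        refine (norm_add_le _ _).trans ?_
        rw [norm_mul, Complex.norm_I, mul_one]
      have h4 : 0 ≤ ‖z‖ ^ m := by positivity
      have h5 : (0 : ℝ) ≤ m := Nat.cast_nonneg m
      calc (m : ℝ) * |(z ^ m * (a m k l + b m k l * Complex.I)).re| ≤
          m * (‖z‖ ^ m * ‖a m k l + b m k l * Complex.I‖) := mul_le_mul_of_nonneg_left h2 h5
        _ ≤ m * (‖z‖ ^ m * (‖a m k l‖ + ‖b m k l‖)) :=
            mul_le_mul_of_nonneg_left (mul_le_mul_of_nonneg_left h3 h4) h5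
        _ = ‖z‖ ^ m * ((m : ℝ) * (‖a m k l‖ + ‖b m k l‖)) := by ring
    have h2 := Finset.sum_mul_sq_le_sq_mul_sq (Finset.Icc 1 M) (fun m => ‖z‖ ^ m)
      (fun m => (m : ℝ) * (‖a m k l‖ + ‖b m k l‖))
    have h3 : ∑ m ∈ Finset.Icc 1 M, (‖z‖ ^ m) ^ 2 ≤ 1 / 2 := by
      have h4 := geom_le (x := ‖z‖ ^ 2) (by positivity) hz M
      refine le_trans (le_of_eq ?_) h4
      exact Finset.sum_congr rfl fun m _ => by rw [← pow_mul, ← pow_mul, mul_comm]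
    have h5 : ∑ m ∈ Finset.Icc 1 M, ((m : ℝ) * (‖a m k l‖ + ‖b m k l‖)) ^ 2 ≤
        2 * ∑ m ∈ Finset.Icc 1 M, (m : ℝ) ^ 2 * (‖a m k l‖ ^ 2 + ‖b m k l‖ ^ 2) := by
      rw [Finset.mul_sum]
      refine Finset.sum_le_sum fun m _ => ?_
      rw [mul_pow]
      have h6 := sq_norm_split (a m k l) (b m k l)
      have h7 : (0 : ℝ) ≤ (m : ℝ) ^ 2 := by positivity
      nlinarith
    have h8 : 0 ≤ ∑ m ∈ Finset.Icc 1 M, ((m : ℝ) * (‖a m k l‖ + ‖b m k l‖)) ^ 2 :=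
      Finset.sum_nonneg fun m _ => sq_nonneg _
    rw [← sq_abs]
    calc |∑ m ∈ Finset.Icc 1 M, (m : ℝ) *
          (z ^ m * ∑ i, ∑ j, (T i j : ℂ) * α m k i * β m l j).re| ^ 2 ≤
        (∑ m ∈ Finset.Icc 1 M, ‖z‖ ^ m * ((m : ℝ) * (‖a m k l‖ + ‖b m k l‖))) ^ 2 :=
          pow_le_pow_left₀ (abs_nonneg _) h1 2
      _ ≤ (∑ m ∈ Finset.Icc 1 M, (‖z‖ ^ m) ^ 2) *
          ∑ m ∈ Finset.Icc 1 M, ((m : ℝ) * (‖a m k l‖ + ‖b m k l‖)) ^ 2 := h2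
      _ ≤ 1 / 2 * ∑ m ∈ Finset.Icc 1 M, ((m : ℝ) * (‖a m k l‖ + ‖b m k l‖)) ^ 2 :=
          mul_le_mul_of_nonneg_right h3 h8
      _ ≤ _ := by linarith
  -- summation over `k`, `l`
  set d : Fin p → Fin q → ℝ := fun s j => ∑ i, w s i * T i j with hd
  have hdsum : ∀ s, ∑ j, d s j = 0 := by
    intro s
    simp only [hd]
    rw [Finset.sum_comm]
    refine Finset.sum_eq_zero fun i _ => ?_
    rw [← Finset.mul_sum, hT2, mul_zero]
  have hm2 : ∀ m ∈ Finset.Icc 1 M, ∑ k, ∑ l, (m : ℝ) ^ 2 * (‖a m k l‖ ^ 2 + ‖b m k l‖ ^ 2) ≤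
      2 * m * ∑ l, ∑ s, ‖∑ j, (d s j : ℂ) * β m l j‖ ^ 2 := by
    intro m hm
    have hm1 := (Finset.mem_Icc.1 hm).1
    rw [Finset.sum_comm, Finset.mul_sum]
    refine Finset.sum_le_sum fun l _ => ?_
    have h1 := single_le hα (fun i => (Y m l i).re) (hYre m l) hm1
    have h2 := single_le hα (fun i => (Y m l i).im) (hYim m l) hm1
    rw [hw _ _ (hYre m l) (hYre m l)] at h1
    rw [hw _ _ (hYim m l) (hYim m l)] at h2
    have h3 : ∑ k, (m : ℝ) ^ 2 * (‖a m k l‖ ^ 2 + ‖b m k l‖ ^ 2) =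
        (m : ℝ) ^ 2 * ∑ k, ‖∑ i, ((Y m l i).re : ℂ) * α m k i‖ ^ 2 +
        (m : ℝ) ^ 2 * ∑ k, ‖∑ i, ((Y m l i).im : ℂ) * α m k i‖ ^ 2 := by
      rw [← Finset.mul_sum, Finset.sum_add_distrib, mul_add]
    rw [h3]
    have h4 : ∀ s, ‖∑ j, (d s j : ℂ) * β m l j‖ ^ 2 = (∑ i, w s i * (Y m l i).re) *
        (∑ i, w s i * (Y m l i).re) + (∑ i, w s i * (Y m l i).im) *
        ∑ i, w s i * (Y m l i).im := by
      intro s
      have h5 : ∑ j, (d s j : ℂ) * β m l j = ∑ i, (w s i : ℂ) * Y m l i := by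
        simp only [hd, hY]
        push_cast
        simp only [Finset.sum_mul, Finset.mul_sum]
        rw [Finset.sum_comm]
        exact Finset.sum_congr rfl fun i _ => Finset.sum_congr rfl fun j _ => by ring
      have h6 : (∑ i, (w s i : ℂ) * Y m l i).re = ∑ i, w s i * (Y m l i).re := by
        rw [Complex.re_sum]
        exact Finset.sum_congr rfl fun i _ => Complex.re_ofReal_mul _ _
      have h7 : (∑ i, (w s i : ℂ) * Y m l i).im = ∑ i, w s i * (Y m l i).im := by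
        rw [Complex.im_sum]
        exact Finset.sum_congr rfl fun i _ => Complex.im_ofReal_mul _ _
      rw [h5, ← Complex.normSq_eq_norm_sq, Complex.normSq_apply, h6, h7]
    simp only [h4, Finset.sum_add_distrib]
    linarith
  have hN : ∑ k, ∑ l, (∑ i, A k i * T i l) * ∑ j, T k j * B j l =
      ∑ s, ∑ k, ∑ i, d s k * d s i * B k i := by
    have h1 : ∀ l j, ∑ k, ∑ i, T k j * T i l * A k i = ∑ s, d s j * d s l := fun l j =>
      hw (fun k => T k j) (fun i => T i l) (hT1 j) (hT1 l)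
    have h2 : ∑ s, ∑ k, ∑ i, d s k * d s i * B k i = ∑ l, ∑ j, (∑ s, d s j * d s l) * B j l := by
      rw [Finset.sum_comm]
      have h3 : ∀ k, ∑ s, ∑ i, d s k * d s i * B k i = ∑ i, (∑ s, d s k * d s i) * B k i := by
        intro k
        rw [Finset.sum_comm]
        exact Finset.sum_congr rfl fun i _ => by rw [Finset.sum_mul]
      simp only [h3]
      rw [Finset.sum_comm]
    rw [h2]
    simp only [← h1]
    rw [Finset.sum_comm]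
    refine Finset.sum_congr rfl fun l _ => ?_
    have h4 : ∀ k, (∑ i, A k i * T i l) * ∑ j, T k j * B j l =
        ∑ j, (∑ i, T k j * T i l * A k i) * B j l := by
      intro k
      rw [Finset.mul_sum]
      refine Finset.sum_congr rfl fun j _ => ?_
      rw [Finset.sum_mul, Finset.sum_mul]
      exact Finset.sum_congr rfl fun i _ => by ring
    simp only [h4]
    rw [Finset.sum_comm]
    exact Finset.sum_congr rfl fun j _ => by rw [Finset.sum_mul]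
  have hfin : ∑ m ∈ Finset.Icc 1 M, 2 * (m : ℝ) * ∑ l, ∑ s, ‖∑ j, (d s j : ℂ) * β m l j‖ ^ 2 ≤
      4 * ∑ s, ∑ k, ∑ i, d s k * d s i * B k i := by
    have h1 : ∀ s, ∑ l, ∑ m ∈ Finset.Icc 1 M, (m : ℝ) / 2 * ‖∑ j, (d s j : ℂ) * β m l j‖ ^ 2 ≤
        ∑ k, ∑ i, d s k * d s i * B k i := fun s => hβ (d s) (hdsum s) M
    have h2 : ∑ m ∈ Finset.Icc 1 M, 2 * (m : ℝ) * ∑ l, ∑ s, ‖∑ j, (d s j : ℂ) * β m l j‖ ^ 2 =
        4 * ∑ s, ∑ l, ∑ m ∈ Finset.Icc 1 M, (m : ℝ) / 2 *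
          ‖∑ j, (d s j : ℂ) * β m l j‖ ^ 2 := by
      have h3 : ∀ s, ∑ l, ∑ m ∈ Finset.Icc 1 M, (m : ℝ) / 2 * ‖∑ j, (d s j : ℂ) * β m l j‖ ^ 2 =
          ∑ m ∈ Finset.Icc 1 M, ∑ l, (m : ℝ) / 2 * ‖∑ j, (d s j : ℂ) * β m l j‖ ^ 2 := fun s =>
        Finset.sum_comm
      simp only [h3]
      rw [Finset.sum_comm, Finset.mul_sum]
      refine Finset.sum_congr rfl fun m _ => ?_
      rw [Finset.sum_comm]
      simp only [Finset.mul_sum]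
      refine Finset.sum_congr rfl fun l _ => Finset.sum_congr rfl fun s _ => ?_
      ring
    rw [h2]
    exact mul_le_mul_of_nonneg_left (Finset.sum_le_sum fun s _ => h1 s) (by norm_num)
  calc ∑ k, ∑ l, (∑ m ∈ Finset.Icc 1 M, (m : ℝ) *
      (z ^ m * ∑ i, ∑ j, (T i j : ℂ) * α m k i * β m l j).re) ^ 2 ≤
      ∑ k, ∑ l, ∑ m ∈ Finset.Icc 1 M, (m : ℝ) ^ 2 * (‖a m k l‖ ^ 2 + ‖b m k l‖ ^ 2) :=
        Finset.sum_le_sum fun k _ => Finset.sum_le_sum fun l _ => hpt k l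
    _ = ∑ m ∈ Finset.Icc 1 M, ∑ k, ∑ l, (m : ℝ) ^ 2 * (‖a m k l‖ ^ 2 + ‖b m k l‖ ^ 2) := by
        rw [Finset.sum_comm]
        have h1 : ∀ k, ∑ l, ∑ m ∈ Finset.Icc 1 M, (m : ℝ) ^ 2 * (‖a m k l‖ ^ 2 + ‖b m k l‖ ^ 2) =
            ∑ m ∈ Finset.Icc 1 M, ∑ l, (m : ℝ) ^ 2 * (‖a m k l‖ ^ 2 + ‖b m k l‖ ^ 2) :=
          fun k => Finset.sum_comm
        rw [Finset.sum_comm]
        simp only [h1]
        rw [Finset.sum_comm]
    _ ≤ ∑ m ∈ Finset.Icc 1 M, 2 * (m : ℝ) * ∑ l, ∑ s, ‖∑ j, (d s j : ℂ) * β m l j‖ ^ 2 :=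
        Finset.sum_le_sum hm2
    _ ≤ 4 * ∑ s, ∑ k, ∑ i, d s k * d s i * B k i := hfin
    _ = _ := by rw [hN]

/-- **The main linear statement.** -/
theorem eq_zero_of_eq (hAs : ∀ i j, A i j = A j i)
    (hα : ∀ c : Fin p → ℝ, ∑ i, c i = 0 → ∀ M : ℕ,
      ∑ i, ∑ m ∈ Finset.Icc 1 M, (m : ℝ) / 2 * ‖∑ j, (c j : ℂ) * α m i j‖ ^ 2 ≤
        ∑ k, ∑ i, c k * c i * A k i)
    (hβ : ∀ c : Fin q → ℝ, ∑ i, c i = 0 → ∀ M : ℕ,
      ∑ i, ∑ m ∈ Finset.Icc 1 M, (m : ℝ) / 2 * ‖∑ j, (c j : ℂ) * β m i j‖ ^ 2 ≤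
        ∑ k, ∑ i, c k * c i * B k i) {z : ℂ} (hz : 3 * ‖z‖ ^ 2 ≤ 1) {ℓ : ℝ} (hℓ : 0 < ℓ)
    (T : Fin p → Fin q → ℝ) (hT1 : ∀ j, ∑ i, T i j = 0) (hT2 : ∀ i, ∑ j, T i j = 0)
    (hlim : ∀ k l, Tendsto (fun M : ℕ => ∑ m ∈ Finset.Icc 1 M, (m : ℝ) *
      (z ^ m * ∑ i, ∑ j, (T i j : ℂ) * α m k i * β m l j).re) atTop
      (𝓝 ((∑ i, A k i * T i l) + (∑ j, T k j * B j l) + ℓ * T k l))) : ∀ i j, T i j = 0 := by
  have h1 : ∑ k, ∑ l, ((∑ i, A k i * T i l) + (∑ j, T k j * B j l) + ℓ * T k l) ^ 2 ≤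
      4 * ∑ k, ∑ l, (∑ i, A k i * T i l) * ∑ j, T k j * B j l := by
    refine le_of_tendsto' (tendsto_finsetSum _ fun k _ => tendsto_finsetSum _ fun l _ =>
      (hlim k l).pow 2) fun M => ?_
    exact pert_le hAs hα hβ hz T hT1 hT2 M
  have hA0 : 0 ≤ ∑ k, ∑ l, (∑ i, A k i * T i l) * T k l := by
    rw [Finset.sum_comm]
    refine Finset.sum_nonneg fun l _ => ?_
    have h := hα (fun i => T i l) (hT1 l) 0
    simp only [Finset.Icc_eq_empty_of_lt Nat.zero_lt_one, Finset.sum_empty,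
      Finset.sum_const_zero] at h
    refine h.trans (le_of_eq ?_)
    refine Finset.sum_congr rfl fun k _ => ?_
    rw [Finset.sum_mul]
    exact Finset.sum_congr rfl fun i _ => by ring
  have hB0 : 0 ≤ ∑ k, ∑ l, (∑ j, T k j * B j l) * T k l := by
    refine Finset.sum_nonneg fun k _ => ?_
    have h := hβ (T k) (hT2 k) 0
    simp only [Finset.Icc_eq_empty_of_lt Nat.zero_lt_one, Finset.sum_empty,
      Finset.sum_const_zero] at h
    refine h.trans (le_of_eq ?_)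
    rw [Finset.sum_comm]
    refine Finset.sum_congr rfl fun l _ => ?_
    rw [Finset.sum_mul]
    exact Finset.sum_congr rfl fun i _ => by ring
  have h2 : ∑ k, ∑ l, ((∑ i, A k i * T i l) + (∑ j, T k j * B j l) + ℓ * T k l) ^ 2 =
      4 * (∑ k, ∑ l, (∑ i, A k i * T i l) * ∑ j, T k j * B j l) +
      (∑ k, ∑ l, ((∑ i, A k i * T i l) - ∑ j, T k j * B j l) ^ 2) +
      2 * ℓ * (∑ k, ∑ l, (∑ i, A k i * T i l) * T k l) +
      2 * ℓ * (∑ k, ∑ l, (∑ j, T k j * B j l) * T k l) + ℓ ^ 2 * ∑ k, ∑ l, T k l ^ 2 := by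
    simp only [Finset.mul_sum, ← Finset.sum_add_distrib]
    refine Finset.sum_congr rfl fun k _ => Finset.sum_congr rfl fun l _ => ?_
    simp only [← Finset.mul_sum]
    ring
  have h3 : 0 ≤ ∑ k, ∑ l, ((∑ i, A k i * T i l) - ∑ j, T k j * B j l) ^ 2 :=
    Finset.sum_nonneg fun k _ => Finset.sum_nonneg fun l _ => sq_nonneg _
  have h4 : 0 ≤ ∑ k, ∑ l, T k l ^ 2 :=
    Finset.sum_nonneg fun k _ => Finset.sum_nonneg fun l _ => sq_nonneg _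
  have h5 : ∑ k, ∑ l, T k l ^ 2 ≤ 0 := by
    by_contra hcon
    push Not at hcon
    have h6 : 0 < ℓ ^ 2 * ∑ k, ∑ l, T k l ^ 2 := by positivity
    have h7 : 0 ≤ 2 * ℓ * (∑ k, ∑ l, (∑ i, A k i * T i l) * T k l) :=
      mul_nonneg (by positivity) hA0
    have h8 : 0 ≤ 2 * ℓ * (∑ k, ∑ l, (∑ j, T k j * B j l) * T k l) :=
      mul_nonneg (by positivity) hB0
    linarith
  intro i j
  have h6 : T i j ^ 2 ≤ ∑ k, ∑ l, T k l ^ 2 :=
    (Finset.single_le_sum (f := fun l => T i l ^ 2) (fun l _ => sq_nonneg _)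
      (Finset.mem_univ j)).trans (Finset.single_le_sum (f := fun k => ∑ l, T k l ^ 2)
      (fun k _ => Finset.sum_nonneg fun l _ => sq_nonneg _) (Finset.mem_univ i))
  have h7 : T i j ^ 2 = 0 := le_antisymm (h6.trans h5) (sq_nonneg _)
  exact pow_eq_zero_iff two_ne_zero |>.1 h7

end Pool.Agent.N686.DI
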