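import Mathlib
set_option autoImplicit false

/-!
The linear algebra: injectivity of the transposed operator, with the help of the largest singular
value.
-/

namespace Pool.Agent.N686.DI

open Finset Filter Topology

set_option maxHeartbeats 400000

/-- The largest singular value and the singular vectors of a nonzero matrix. -/
theorem exists_singular {p q : ℕ} (S : Fin p → Fin q → ℝ) (hS : ∃ i j, S i j ≠ 0) :
    ∃ (s : ℝ) (c : Fin p → ℝ) (d : Fin q → ℝ), 0 < s ∧ ∑ i, c i ^ 2 = 1 ∧ ∑ j, d j ^ 2 = 1 ∧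
      (∀ i, ∑ j, S i j * d j = s * c i) ∧ (∀ j, ∑ i, S i j * c i = s * d j) ∧
      ∀ (x : Fin p → ℝ) (y : Fin q → ℝ), ∑ i, ∑ j, S i j * x i * y j ≤
        s / 2 * (∑ i, x i ^ 2 + ∑ j, y j ^ 2) := by
  classical
  set N : (Fin q → ℝ) → ℝ := fun d => ∑ i, (∑ j, S i j * d j) ^ 2 with hN
  set D : (Fin q → ℝ) → ℝ := fun d => ∑ j, d j ^ 2 with hD
  have hNc : Continuous N := by
    rw [hN]
    fun_prop
  have hDc : Continuous D := by
    rw [hD]
    fun_prop
  obtain ⟨i0, j0, h0⟩ := hS
  -- the sphere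
  set K : Set (Fin q → ℝ) := {d | D d = 1} with hK
  have hKc : IsCompact K := by
    refine Metric.isCompact_of_isClosed_isBounded (isClosed_eq hDc continuous_const) ?_
    refine (Metric.isBounded_closedBall (x := (0 : Fin q → ℝ)) (r := 1)).subset fun d hd => ?_
    rw [mem_closedBall_zero_iff, pi_norm_le_iff_of_nonneg zero_le_one]
    intro j
    have h1 : d j ^ 2 ≤ 1 := by
      have h2 : d j ^ 2 ≤ D d := Finset.single_le_sum (f := fun j => d j ^ 2)
        (fun j _ => sq_nonneg _) (Finset.mem_univ j)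
      have h3 : D d = 1 := hd
      linarith
    rw [Real.norm_eq_abs]
    exact abs_le_one_iff_mul_self_le_one.2 (by nlinarith)
  have hKe : (Pi.single j0 (1 : ℝ) : Fin q → ℝ) ∈ K := by
    show D _ = 1
    simp only [hD]
    rw [Finset.sum_eq_single j0]
    · simp
    · intro j _ hj
      rw [Pi.single_eq_of_ne hj]
      norm_num
    · intro h
      exact absurd (Finset.mem_univ j0) h
  obtain ⟨d, hdK, hmax⟩ := hKc.exists_isMaxOn ⟨_, hKe⟩ hNc.continuousOn
  have hd1 : D d = 1 := hdK
  set a : ℝ := N d with ha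
  have ha0 : 0 < a := by
    have h1 : N (Pi.single j0 (1 : ℝ)) ≤ a := hmax hKe
    have h2 : 0 < N (Pi.single j0 (1 : ℝ)) := by
      simp only [hN]
      refine lt_of_lt_of_le ?_ (Finset.single_le_sum (f := fun i =>
        (∑ j, S i j * (Pi.single j0 (1 : ℝ) : Fin q → ℝ) j) ^ 2) (fun i _ => sq_nonneg _)
        (Finset.mem_univ i0))
      have h3 : ∑ j, S i0 j * (Pi.single j0 (1 : ℝ) : Fin q → ℝ) j = S i0 j0 := by
        rw [Finset.sum_eq_single j0]
        · simp
        · intro j _ hj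
          rw [Pi.single_eq_of_ne hj, mul_zero]
        · intro h
          exact absurd (Finset.mem_univ j0) h
      simp only [h3]
      positivity
    linarith
  -- homogeneity
  have hhom : ∀ y, N y ≤ a * D y := by
    intro y
    by_cases hy : D y = 0
    · have h1 : ∀ j, y j = 0 := by
        intro j
        have h2 := (Finset.sum_eq_zero_iff_of_nonneg (f := fun j => y j ^ 2)
          fun j _ => sq_nonneg _).1 hy j (Finset.mem_univ j)
        exact pow_eq_zero_iff two_ne_zero |>.1 h2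
      rw [hy, mul_zero]
      simp only [hN, h1, mul_zero, Finset.sum_const_zero]
      norm_num
    · have hy0 : 0 < D y := lt_of_le_of_ne (Finset.sum_nonneg fun j _ => sq_nonneg _) (Ne.symm hy)
      set r : ℝ := Real.sqrt (D y) with hr
      have hr0 : 0 < r := Real.sqrt_pos.2 hy0
      have hr2 : r ^ 2 = D y := Real.sq_sqrt hy0.le
      have h1 : (fun j => y j / r) ∈ K := by
        show D _ = 1
        simp only [hD, div_pow]
        rw [← Finset.sum_div, hr2]
        exact div_self hy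
      have h2 : N (fun j => y j / r) ≤ a := hmax h1
      have h3 : N (fun j => y j / r) = N y / r ^ 2 := by
        simp only [hN]
        rw [Finset.sum_div]
        refine Finset.sum_congr rfl fun i _ => ?_
        rw [← div_pow, Finset.sum_div]
        congr 1
        exact Finset.sum_congr rfl fun j _ => by ring
      rw [h3, hr2, div_le_iff₀ hy0] at h2
      exact h2
  -- the first order condition
  have hfirst : ∀ y : Fin q → ℝ, ∑ i, (∑ j, S i j * d j) * (∑ j, S i j * y j) =
      a * ∑ j, d j * y j := by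
    intro y
    set P : ℝ := ∑ i, (∑ j, S i j * d j) * (∑ j, S i j * y j) with hP
    set Q : ℝ := ∑ j, d j * y j with hQ
    have hq : ∀ t : ℝ, 0 ≤ 2 * t * (a * Q - P) + t ^ 2 * (a * D y - N y) := by
      intro t
      have h1 := hhom fun j => d j + t * y j
      have h2 : N (fun j => d j + t * y j) = a + 2 * t * P + t ^ 2 * N y := by
        simp only [ha, hN, hP, Finset.mul_sum, ← Finset.sum_add_distrib]
        refine Finset.sum_congr rfl fun i _ => ?_
        have h3 : ∑ j, S i j * (d j + t * y j) = (∑ j, S i j * d j) + t * ∑ j, S i j * y j := by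
          rw [Finset.mul_sum, ← Finset.sum_add_distrib]
          exact Finset.sum_congr rfl fun j _ => by ring
        rw [h3]
        simp only [← Finset.mul_sum]
        ring
      have h4 : D (fun j => d j + t * y j) = 1 + 2 * t * Q + t ^ 2 * D y := by
        rw [← hd1]
        simp only [hD, hQ, Finset.mul_sum, ← Finset.sum_add_distrib]
        exact Finset.sum_congr rfl fun j _ => by ring
      rw [h2, h4] at h1
      linarith
    by_contra hne
    set w : ℝ := a * Q - P with hw
    have hw0 : w ≠ 0 := fun h => hne (by linarith)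
    set b : ℝ := a * D y - N y with hb
    have hb0 : 0 ≤ b := by linarith [hhom y]
    -- choose `t = -w / (b + 1)`
    have h5 := hq (-w / (b + 1))
    have h6 : 2 * (-w / (b + 1)) * w + (-w / (b + 1)) ^ 2 * b = -(w ^ 2 * (b + 2)) / (b + 1) ^ 2 := by
      field_simp
      ring
    rw [h6] at h5
    have h7 : 0 < w ^ 2 * (b + 2) / (b + 1) ^ 2 := by positivity
    rw [neg_div] at h5
    linarith
  set s : ℝ := Real.sqrt a with hs
  have hs0 : 0 < s := Real.sqrt_pos.2 ha0
  have hs2 : s ^ 2 = a := Real.sq_sqrt ha0.le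
  refine ⟨s, fun i => (∑ j, S i j * d j) / s, d, hs0, ?_, hd1, fun i => ?_, fun j => ?_,
    fun x y => ?_⟩
  · simp only [div_pow]
    rw [← Finset.sum_div, hs2]
    exact div_self ha0.ne'
  · field_simp
  · have h1 := hfirst (Pi.single j 1)
    have h2 : ∀ i, ∑ j', S i j' * (Pi.single j (1 : ℝ) : Fin q → ℝ) j' = S i j := by
      intro i
      rw [Finset.sum_eq_single j]
      · simp
      · intro j' _ hj'
        rw [Pi.single_eq_of_ne hj', mul_zero]
      · intro h
        exact absurd (Finset.mem_univ j) h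
    have h3 : ∑ j', d j' * (Pi.single j (1 : ℝ) : Fin q → ℝ) j' = d j := by
      rw [Finset.sum_eq_single j]
      · simp
      · intro j' _ hj'
        rw [Pi.single_eq_of_ne hj', mul_zero]
      · intro h
        exact absurd (Finset.mem_univ j) h
    simp only [h2, h3] at h1
    have h4 : ∑ i, S i j * ((∑ j, S i j * d j) / s) =
        (∑ i, (∑ j, S i j * d j) * S i j) / s := by
      rw [Finset.sum_div]
      exact Finset.sum_congr rfl fun i _ => by ring
    rw [h4, h1, ← hs2]
    field_simp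
  · have h1 := hhom y
    have h2 : ∀ i, x i * (∑ j, S i j * y j) ≤ s / 2 * x i ^ 2 +
        (∑ j, S i j * y j) ^ 2 / (2 * s) := by
      intro i
      have h3 : 0 ≤ (s * x i - ∑ j, S i j * y j) ^ 2 / (2 * s) := by positivity
      have h4 : (s * x i - ∑ j, S i j * y j) ^ 2 / (2 * s) = s / 2 * x i ^ 2 +
          (∑ j, S i j * y j) ^ 2 / (2 * s) - x i * (∑ j, S i j * y j) := by
        field_simp
        ring
      linarith
    calc ∑ i, ∑ j, S i j * x i * y j = ∑ i, x i * (∑ j, S i j * y j) := by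
          refine Finset.sum_congr rfl fun i _ => ?_
          rw [Finset.mul_sum]
          exact Finset.sum_congr rfl fun j _ => by ring
      _ ≤ ∑ i, (s / 2 * x i ^ 2 + (∑ j, S i j * y j) ^ 2 / (2 * s)) :=
          Finset.sum_le_sum fun i _ => h2 i
      _ = s / 2 * (∑ i, x i ^ 2) + N y / (2 * s) := by
          rw [Finset.sum_add_distrib, ← Finset.mul_sum, ← Finset.sum_div]
      _ ≤ s / 2 * (∑ i, x i ^ 2) + s / 2 * D y := by
          have h5 : N y / (2 * s) ≤ s / 2 * D y := by
            rw [div_le_iff₀ (by positivity)]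
            have h6 : s / 2 * D y * (2 * s) = s ^ 2 * D y := by ring
            rw [h6, hs2]
            exact h1
          linarith
      _ = _ := by
          simp only [hD]
          ring

variable {p q : ℕ} {A : Fin p → Fin p → ℝ} {B : Fin q → Fin q → ℝ} {α : ℕ → Fin p → Fin p → ℂ}
  {β : ℕ → Fin q → Fin q → ℂ}

/-- **The main linear statement**: the transposed operator. -/
theorem eq_zero_left
    (hα : ∀ c : Fin p → ℝ, ∑ i, c i = 0 → ∀ M : ℕ,
      ∑ i, ∑ m ∈ Finset.Icc 1 M, (m : ℝ) / 2 * ‖∑ j, (c j : ℂ) * α m i j‖ ^ 2 ≤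
        ∑ k, ∑ i, c k * c i * A k i)
    (hβ : ∀ c : Fin q → ℝ, ∑ i, c i = 0 → ∀ M : ℕ,
      ∑ i, ∑ m ∈ Finset.Icc 1 M, (m : ℝ) / 2 * ‖∑ j, (c j : ℂ) * β m i j‖ ^ 2 ≤
        ∑ k, ∑ i, c k * c i * B k i) {z : ℂ} (hz : ‖z‖ ≤ 1) {ℓ : ℝ} (hℓ : 0 < ℓ)
    (S : Fin p → Fin q → ℝ) (hS1 : ∀ j, ∑ i, S i j = 0) (hS2 : ∀ i, ∑ j, S i j = 0)
    (hlim : ∀ (c : Fin p → ℝ) (d : Fin q → ℝ), ∑ i, c i = 0 → ∑ j, d j = 0 →
      Tendsto (fun M : ℕ => ∑ m ∈ Finset.Icc 1 M, (m : ℝ) * ∑ k, ∑ l, S k l *
        (z ^ m * (∑ i, (c i : ℂ) * α m k i) * ∑ j, (d j : ℂ) * β m l j).re) atTop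
      (𝓝 (∑ k, ∑ l, S k l * ((∑ i, A k i * c i) * d l + c k * (∑ j, B l j * d j) +
        ℓ * (c k * d l))))) : ∀ i j, S i j = 0 := by
  by_contra hcon
  push Not at hcon
  obtain ⟨s, c, d, hs, hc1, hd1, hSd, hSc, hop⟩ := exists_singular S hcon
  have hc0 : ∑ i, c i = 0 := by
    have h1 : s * ∑ i, c i = 0 := by
      rw [Finset.mul_sum]
      simp only [← hSd]
      rw [Finset.sum_comm]
      refine Finset.sum_eq_zero fun j _ => ?_
      rw [← Finset.sum_mul, hS1, zero_mul]
    exact (mul_eq_zero.1 h1).resolve_left hs.ne'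
  have hd0 : ∑ j, d j = 0 := by
    have h1 : s * ∑ j, d j = 0 := by
      rw [Finset.mul_sum]
      simp only [← hSc]
      rw [Finset.sum_comm]
      refine Finset.sum_eq_zero fun i _ => ?_
      rw [← Finset.sum_mul, hS2, zero_mul]
    exact (mul_eq_zero.1 h1).resolve_left hs.ne'
  set QA : ℝ := ∑ k, ∑ i, c k * c i * A k i with hQA
  set QB : ℝ := ∑ k, ∑ i, d k * d i * B k i with hQB
  -- the value of the limit
  have hval : ∑ k, ∑ l, S k l * ((∑ i, A k i * c i) * d l + c k * (∑ j, B l j * d j) +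
      ℓ * (c k * d l)) = s * (QA + QB + ℓ) := by
    have e1 : ∑ k, ∑ l, S k l * ((∑ i, A k i * c i) * d l) = s * QA := by
      have h1 : ∀ k, ∑ l, S k l * ((∑ i, A k i * c i) * d l) =
          (∑ i, A k i * c i) * (s * c k) := by
        intro k
        rw [← hSd, Finset.mul_sum]
        exact Finset.sum_congr rfl fun l _ => by ring
      simp only [h1]
      rw [hQA, Finset.mul_sum]
      refine Finset.sum_congr rfl fun k _ => ?_
      rw [Finset.sum_mul, Finset.mul_sum]
      exact Finset.sum_congr rfl fun i _ => by ring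
    have e2 : ∑ k, ∑ l, S k l * (c k * (∑ j, B l j * d j)) = s * QB := by
      rw [Finset.sum_comm]
      have h1 : ∀ l, ∑ k, S k l * (c k * (∑ j, B l j * d j)) =
          (∑ j, B l j * d j) * (s * d l) := by
        intro l
        rw [← hSc, Finset.mul_sum]
        exact Finset.sum_congr rfl fun k _ => by ring
      simp only [h1]
      rw [hQB, Finset.mul_sum]
      refine Finset.sum_congr rfl fun k _ => ?_
      rw [Finset.sum_mul, Finset.mul_sum]
      exact Finset.sum_congr rfl fun i _ => by ring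
    have e3 : ∑ k, ∑ l, S k l * (ℓ * (c k * d l)) = s * ℓ := by
      have h1 : ∀ k, ∑ l, S k l * (ℓ * (c k * d l)) = ℓ * s * c k ^ 2 := by
        intro k
        have h2 : ∑ l, S k l * (ℓ * (c k * d l)) = ℓ * c k * ∑ l, S k l * d l := by
          rw [Finset.mul_sum]
          exact Finset.sum_congr rfl fun l _ => by ring
        rw [h2, hSd]
        ring
      simp only [h1]
      rw [← Finset.mul_sum, hc1]
      ring
    simp only [mul_add, Finset.sum_add_distrib]
    rw [e1, e2, e3]
  have hl := hlim c d hc0 hd0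
  rw [hval] at hl
  -- the bound
  have hbound : ∀ M : ℕ, ∑ m ∈ Finset.Icc 1 M, (m : ℝ) * ∑ k, ∑ l, S k l *
      (z ^ m * (∑ i, (c i : ℂ) * α m k i) * ∑ j, (d j : ℂ) * β m l j).re ≤ s * (QA + QB) := by
    intro M
    have h1 : ∀ m ∈ Finset.Icc 1 M, (m : ℝ) * ∑ k, ∑ l, S k l *
        (z ^ m * (∑ i, (c i : ℂ) * α m k i) * ∑ j, (d j : ℂ) * β m l j).re ≤
        s * (∑ k, (m : ℝ) / 2 * ‖∑ i, (c i : ℂ) * α m k i‖ ^ 2) +
        s * (∑ l, (m : ℝ) / 2 * ‖∑ j, (d j : ℂ) * β m l j‖ ^ 2) := by
      intro m _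
      set u : Fin p → ℂ := fun k => z ^ m * ∑ i, (c i : ℂ) * α m k i with hu
      set w : Fin q → ℂ := fun l => ∑ j, (d j : ℂ) * β m l j with hw
      have e1 : ∑ k, ∑ l, S k l * (u k * w l).re =
          (∑ k, ∑ l, S k l * (u k).re * (w l).re) +
          ∑ k, ∑ l, S k l * (-(u k).im) * (w l).im := by
        rw [← Finset.sum_add_distrib]
        refine Finset.sum_congr rfl fun k _ => ?_
        rw [← Finset.sum_add_distrib]
        refine Finset.sum_congr rfl fun l _ => ?_
        rw [Complex.mul_re]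
        ring
      have e2 := hop (fun k => (u k).re) fun l => (w l).re
      have e3 := hop (fun k => -(u k).im) fun l => (w l).im
      have e4 : ∀ x : ℂ, x.re ^ 2 + x.im ^ 2 = ‖x‖ ^ 2 := by
        intro x
        rw [← Complex.normSq_eq_norm_sq, Complex.normSq_apply]
        ring
      have e5 : ∑ k, ∑ l, S k l * (u k * w l).re ≤
          s / 2 * (∑ k, ‖u k‖ ^ 2 + ∑ l, ‖w l‖ ^ 2) := by
        rw [e1]
        have e6 : ∑ k, ‖u k‖ ^ 2 = ∑ k, (u k).re ^ 2 + ∑ k, (-(u k).im) ^ 2 := by
          rw [← Finset.sum_add_distrib]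
          refine Finset.sum_congr rfl fun k _ => ?_
          rw [← e4]
          ring
        have e7 : ∑ l, ‖w l‖ ^ 2 = ∑ l, (w l).re ^ 2 + ∑ l, (w l).im ^ 2 := by
          rw [← Finset.sum_add_distrib]
          refine Finset.sum_congr rfl fun l _ => ?_
          rw [← e4]
        rw [e6, e7]
        have e8 : s / 2 * ((∑ k, (u k).re ^ 2 + ∑ k, (-(u k).im) ^ 2) +
            (∑ l, (w l).re ^ 2 + ∑ l, (w l).im ^ 2)) =
            s / 2 * (∑ k, (u k).re ^ 2 + ∑ l, (w l).re ^ 2) +
            s / 2 * (∑ k, (-(u k).im) ^ 2 + ∑ l, (w l).im ^ 2) := by ring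
        rw [e8]
        exact add_le_add e2 e3
      have e9 : ∀ k, ‖u k‖ ^ 2 ≤ ‖∑ i, (c i : ℂ) * α m k i‖ ^ 2 := by
        intro k
        simp only [hu]
        rw [norm_mul, norm_pow, mul_pow]
        have h2 : (‖z‖ ^ m) ^ 2 ≤ 1 := by
          rw [← pow_mul]
          exact pow_le_one₀ (norm_nonneg _) hz
        nlinarith [sq_nonneg ‖∑ i, (c i : ℂ) * α m k i‖]
      have e10 : ∑ k, ‖u k‖ ^ 2 ≤ ∑ k, ‖∑ i, (c i : ℂ) * α m k i‖ ^ 2 :=
        Finset.sum_le_sum fun k _ => e9 k
      have hm0 : (0 : ℝ) ≤ m := Nat.cast_nonneg m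
      calc (m : ℝ) * ∑ k, ∑ l, S k l * (u k * w l).re ≤
          m * (s / 2 * (∑ k, ‖u k‖ ^ 2 + ∑ l, ‖w l‖ ^ 2)) := mul_le_mul_of_nonneg_left e5 hm0
        _ ≤ m * (s / 2 * (∑ k, ‖∑ i, (c i : ℂ) * α m k i‖ ^ 2 + ∑ l, ‖w l‖ ^ 2)) := by
            refine mul_le_mul_of_nonneg_left (mul_le_mul_of_nonneg_left ?_ (by positivity)) hm0
            linarith
        _ = _ := by
            simp only [hw]
            rw [← Finset.mul_sum, ← Finset.mul_sum]
            ring
    refine (Finset.sum_le_sum h1).trans ?_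
    rw [Finset.sum_add_distrib, ← Finset.mul_sum, ← Finset.mul_sum]
    have h2 := hα c hc0 M
    have h3 := hβ d hd0 M
    rw [Finset.sum_comm] at h2 h3
    rw [mul_add]
    exact add_le_add (mul_le_mul_of_nonneg_left h2 hs.le) (mul_le_mul_of_nonneg_left h3 hs.le)
  have hfin : s * (QA + QB + ℓ) ≤ s * (QA + QB) := le_of_tendsto' hl hbound
  have : 0 < s * ℓ := mul_pos hs hℓ
  linarith

end Pool.Agent.N686.DI
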