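import Pool.Agent.N686.DI.Fin
import Pool.Agent.TH826.MH.Tori
import Pool.Agent.TH826.MH.Smooth
set_option autoImplicit false

/-!
The curves `λ P(x) Q(y) = 1`: loops, regulators, smoothness.
-/

namespace Pool.Agent.N686.DI

open Set Filter Topology Polynomial

open Pool.Agent.TH826.MK (symb Torus)

open Pool.Agent.TH826.MH

open Pool.Agent.TH826.UH (pr NZ pairing_eq_pr)

set_option maxHeartbeats 400000

section

variable {K : Type*} [Field K] {r : Fin 2 → ℕ} {σ : K →+* ℂ} {lam : K}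
  {a : ∀ k, Fin (r k + 1) → K}

/-- A loop on the curve and its regulators. -/
theorem exists_loop_reg {X Y : ℝ → ℂ} (hX : ContDiff ℝ 2 X) (hY : ContDiff ℝ 2 Y)
    (pX : ∀ s, X (s + 1) = X s) (pY : ∀ s, Y (s + 1) = Y s)
    (hXY : ∀ s, σ lam * ((∏ i, (X s - σ (a 0 i))) * ∏ j, (Y s - σ (a 1 j))) = 1) :
    ∃ Γ : Torus (CRing lam a) 1, (∀ θ c, Γ.e θ (fpol lam a (MvPolynomial.C c)) = σ c) ∧
      ∀ i : (∀ k, Fin (r k)), Γ.reg (symb (ent lam a i)) =
        pr (fun s => (X s - σ (a 0 (i 0).castSucc)) / (X s - σ (a 0 (i 0).succ)))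
          (fun s => (Y s - σ (a 1 (i 1).castSucc)) / (Y s - σ (a 1 (i 1).succ))) := by
  have hX0 : ∀ i s, X s - σ (a 0 i) ≠ 0 := by
    intro i s h
    have h1 := hXY s
    rw [Finset.prod_eq_zero (Finset.mem_univ i) h, zero_mul, mul_zero] at h1
    exact zero_ne_one h1
  have hY0 : ∀ j s, Y s - σ (a 1 j) ≠ 0 := by
    intro j s h
    have h1 := hXY s
    rw [Finset.prod_eq_zero (Finset.mem_univ j) h, mul_zero, mul_zero] at h1
    exact zero_ne_one h1
  have nX : ∀ i, NZ fun s => X s - σ (a 0 i) := fun i => ⟨hX.sub contDiff_const, hX0 i⟩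
  have nY : ∀ j, NZ fun s => Y s - σ (a 1 j) := fun j => ⟨hY.sub contDiff_const, hY0 j⟩
  set x : (Fin 1 → ℝ) → (Fin 2 → ℂ) := fun θ => ![X (θ 0), Y (θ 0)] with hx
  have hc : ContDiff ℝ 2 x := by
    rw [contDiff_pi]
    intro k
    fin_cases k
    · exact hX.comp (contDiff_apply ℝ ℝ 0)
    · exact hY.comp (contDiff_apply ℝ ℝ 0)
  have hp : ∀ θ i, x (θ + Pi.single i 1) = x θ := by
    intro θ i
    have h0 : (θ + Pi.single i 1 : Fin 1 → ℝ) 0 = θ 0 + 1 := by
      rw [Pi.add_apply, Subsingleton.elim i 0, Pi.single_eq_same]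
    simp only [hx, h0, pX, pY]
  have he : ∀ θ, σ lam * ∏ k, ∏ i, (x θ k - σ (a k i)) = 1 := by
    intro θ
    rw [Fin.prod_univ_two]
    exact hXY (θ 0)
  refine ⟨mkT x hc hp he, fun θ c => ?_, fun i => ?_⟩
  · have h1 : (mkT x hc hp he).e θ = evX (he θ) := rfl
    rw [h1, evX_fpol]
    simp
  · rw [← pairing_eq_pr ((nX _).div (nX _)) ((nY _).div (nY _)), Torus.reg_symb]
    unfold Torus.pair
    congr 1
    funext k θ
    fin_cases k
    · exact congrFun (mkT_ent x hc hp he i 0) θ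
    · exact congrFun (mkT_ent x hc hp he i 1) θ

end

/-- the smallest critical value -/
theorem exists_min_crit {m : ℕ} (hm : 0 < m) (β : Fin (m + 1) → ℂ) (hβ : Function.Injective β) :
    ∃ ξ : ℂ, (derivative (∏ i, (X - C (β i)))).eval ξ = 0 ∧ 0 < ‖∏ i, (ξ - β i)‖ ∧
      ∀ x : ℂ, (derivative (∏ i, (X - C (β i)))).eval x = 0 →
        ‖∏ i, (ξ - β i)‖ ≤ ‖∏ i, (x - β i)‖ := by
  classical
  obtain ⟨μ, hμ, hμ2⟩ := exists_crit β hβ
  have hq : qq β = ∏ i, (X - C (β i)) := rfl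
  have hev : ∀ x, (qq β).eval x = ∏ i, (x - β i) := by
    intro x
    rw [hq, eval_prod]
    simp
  have hdeg : (qq β).natDegree = m + 1 := by
    rw [hq, natDegree_prod_of_monic _ _ fun i _ => monic_X_sub_C _]
    simp
  have hd0 : derivative (qq β) ≠ 0 := by
    intro h
    have h1 := derivative_eq_zero.1 h
    omega
  have hdd : (derivative (qq β)).degree ≠ 0 := by
    rw [degree_derivative_eq _ (by omega), hdeg]
    exact_mod_cast hm.ne'
  obtain ⟨x0, hx0⟩ := IsAlgClosed.exists_root _ hdd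
  set S : Finset ℂ := (derivative (qq β)).roots.toFinset with hS
  have hmem : ∀ c, c ∈ S ↔ (derivative (qq β)).eval c = 0 := by
    intro c
    rw [hS, Multiset.mem_toFinset, mem_roots hd0]
    exact Iff.rfl
  obtain ⟨ξ, hξ, hmin⟩ := S.exists_min_image (fun c => ‖(qq β).eval c‖)
    ⟨x0, (hmem x0).2 hx0⟩
  refine ⟨ξ, (hmem ξ).1 hξ, ?_, fun x hx => ?_⟩
  · rw [← hev]
    exact hμ.trans_le (hμ2 ξ ((hmem ξ).1 hξ))
  · rw [← hev, ← hev]
    exact hmin x ((hmem x).2 hx)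

section

variable {K : Type*} [Field K] {r : Fin 2 → ℕ} {σ : K →+* ℂ} {lam : K}
  {a : ∀ k, Fin (r k + 1) → K}

theorem eval_prod_sub {m : ℕ} (β : Fin m → ℂ) (x : ℂ) :
    (∏ i, (X - C (β i))).eval x = ∏ i, (x - β i) := by
  rw [eval_prod]
  simp

/-- **The loops and the determinant.** -/
theorem exists_tori (hl0 : lam ≠ 0) (hinj : ∀ k, Function.Injective (a k))
    (hcrit : ∀ ξ η : ℂ, (derivative (∏ i, (X - C (σ (a 0 i))))).eval ξ = 0 →
      (derivative (∏ j, (X - C (σ (a 1 j))))).eval η = 0 →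
      1 < ‖σ lam * (∏ i, (ξ - σ (a 0 i))) * ∏ j, (η - σ (a 1 j))‖) :
    ∃ Γ : (∀ k, Fin (r k)) → Torus (CRing lam a) 1,
      (∀ t θ (x : K), (Γ t).e θ (fpol lam a (MvPolynomial.C x)) = σ x) ∧
      (Matrix.of fun t i : (∀ k, Fin (r k)) => (Γ t).reg (symb (ent lam a i))).det ≠ 0 := by
  classical
  rcases Nat.eq_zero_or_pos (r 0) with h0 | h0
  · have hE : IsEmpty (∀ k, Fin (r k)) := ⟨fun t => by
      have := (t 0).isLt
      omega⟩
    exact ⟨fun t => (hE.false t).elim, fun t => (hE.false t).elim, by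
      rw [Matrix.det_isEmpty]
      exact one_ne_zero⟩
  rcases Nat.eq_zero_or_pos (r 1) with h1 | h1
  · have hE : IsEmpty (∀ k, Fin (r k)) := ⟨fun t => by
      have := (t 1).isLt
      omega⟩
    exact ⟨fun t => (hE.false t).elim, fun t => (hE.false t).elim, by
      rw [Matrix.det_isEmpty]
      exact one_ne_zero⟩
  have hi0 : Function.Injective fun i => σ (a 0 i) := σ.injective.comp (hinj 0)
  have hi1 : Function.Injective fun i => σ (a 1 i) := σ.injective.comp (hinj 1)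
  obtain ⟨ξ, hξ, hξ0, hξm⟩ := exists_min_crit h0 _ hi0
  obtain ⟨η, hη, hη0, hηm⟩ := exists_min_crit h1 _ hi1
  have hbig := hcrit ξ η hξ hη
  rw [norm_mul, norm_mul] at hbig
  obtain ⟨x, y, hx, hy, px, py, hxy, hinjT⟩ := exists_loops (fun i => σ (a 0 i)) hi0
    (fun i => σ (a 1 i)) hi1 (Λ := σ lam) ((map_ne_zero σ).2 hl0) hξ0 hη0
    (fun z hz => by rw [eval_prod_sub]; exact hξm z hz)
    (fun z hz => by rw [eval_prod_sub]; exact hηm z hz) hbig
  have hreg := fun t : (∀ k, Fin (r k)) => exists_loop_reg (σ := σ) (lam := lam) (a := a)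
    (hx (t 0).castSucc) (hy (t 1).castSucc) (px (t 0).castSucc) (py (t 1).castSucc)
    (hxy (t 0).castSucc (t 1).castSucc)
  choose Γ hΓ1 hΓ2 using hreg
  refine ⟨Γ, hΓ1, fun hdet => ?_⟩
  obtain ⟨v, hv0, hv⟩ := Matrix.exists_vecMul_eq_zero_iff.2 hdet
  set e := piFinTwoEquiv fun k => Fin (r k) with he
  refine hv0 (funext fun i => ?_)
  have key := hinjT (fun k l => v (e.symm (k, l))) (fun m n => by
    have h2 := congrFun hv (e.symm (m, n))
    rw [Matrix.vecMul, Pi.zero_apply, dotProduct, ← Equiv.sum_comp e.symm,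
      Fintype.sum_prod_type] at h2
    rw [← h2]
    refine Finset.sum_congr rfl fun k _ => Finset.sum_congr rfl fun l _ => ?_
    rw [Matrix.of_apply, hΓ2]
    rfl) (i 0) (i 1)
  have h3 : e.symm (i 0, i 1) = i := e.symm_apply_apply i
  rw [h3] at key
  exact key

end

section

variable {K : Type*} [Field K] {r : Fin 2 → ℕ}

/-- Smoothness: there is no critical value `1`. -/
theorem smooth (σ : K →+* ℂ) (a : ∀ k, Fin (r k + 1) → K) {lam : K}
    (hcrit : ∀ ξ η : ℂ, (derivative (∏ i, (X - C (σ (a 0 i))))).eval ξ = 0 →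
      (derivative (∏ j, (X - C (σ (a 1 j))))).eval η = 0 →
      1 < ‖σ lam * (∏ i, (ξ - σ (a 0 i))) * ∏ j, (η - σ (a 1 j))‖)
    (x : Fin 2 → ℂ) (hx : MvPolynomial.eval₂ σ x (eqn lam a) = 0) :
    ∃ k, MvPolynomial.eval₂ σ x (MvPolynomial.pderiv k (eqn lam a)) ≠ 0 := by
  have hmap : ∀ k, (qq (a k)).map σ = ∏ i, (X - C (σ (a k i))) := by
    intro k
    unfold qq
    rw [Polynomial.map_prod]
    refine Finset.prod_congr rfl fun i _ => ?_
    rw [Polynomial.map_sub, map_X, map_C]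
  have h1 : σ lam * ∏ k, (qq (a k)).eval₂ σ (x k) = 1 := by
    rw [eqn_eq lam a 0, MvPolynomial.eval₂_sub, MvPolynomial.eval₂_mul,
      MvPolynomial.eval₂_mul, MvPolynomial.eval₂_C, MvPolynomial.eval₂_one, eval_aeval,
      MvPolynomial.eval₂_prod] at hx
    rw [← Finset.mul_prod_erase _ _ (Finset.mem_univ (0 : Fin 2))]
    simp only [eval_aeval] at hx
    linear_combination hx
  by_contra hcon
  push Not at hcon
  have hcr : ∀ k, (derivative (∏ i, (X - C (σ (a k i))))).eval (x k) = 0 := by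
    intro k
    have h2 := hcon k
    rw [pderiv_eqn, MvPolynomial.eval₂_mul, MvPolynomial.eval₂_mul, MvPolynomial.eval₂_C,
      eval_aeval, MvPolynomial.eval₂_prod] at h2
    simp only [eval_aeval] at h2
    have h3 : σ lam ≠ 0 ∧ ∏ k, (qq (a k)).eval₂ σ (x k) ≠ 0 := by
      rw [← mul_ne_zero_iff, h1]
      exact one_ne_zero
    have h4 : ∏ l ∈ Finset.univ.erase k, (qq (a l)).eval₂ σ (x l) ≠ 0 :=
      Finset.prod_ne_zero_iff.2 fun l _ => (Finset.prod_ne_zero_iff.1 h3.2) l (Finset.mem_univ l)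
    rw [← hmap, derivative_map, eval_map]
    rcases mul_eq_zero.1 h2 with h5 | h5
    · exact absurd h5 h3.1
    · rcases mul_eq_zero.1 h5 with h6 | h6
      · exact h6
      · exact absurd h6 h4
  have h5 := hcrit (x 0) (x 1) (hcr 0) (hcr 1)
  have h6 : ∀ k, (qq (a k)).eval₂ σ (x k) = ∏ i, (x k - σ (a k i)) := by
    intro k
    rw [← eval_map, hmap, eval_prod_sub]
  simp only [h6] at h1
  rw [Fin.prod_univ_two, ← mul_assoc] at h1
  rw [h1, norm_one] at h5
  exact lt_irrefl _ h5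

end

end Pool.Agent.N686.DI
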