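import Pool.Agent.N686.DI.Reg
import Pool.Agent.N686.DI.Lin2
set_option autoImplicit false

/-!
The nonsingularity of the matrix of regulators.
-/

namespace Pool.Agent.N686.DI

open MeasureTheory Set Filter Topology Metric Polynomial

open Pool.Agent.TH826.MK (circ norm_circ circ_add_one contDiff_circ hasDerivAt_circ circ_eq)

open Pool.Agent.TH826.UH (pr NZ pr_mul pr_div pr_const ld_circ nz_circ pr_prod pr_neg)

open Pool.Agent.Y775.CC

open Pool.Agent.N686.EL (cs sn psi_comm)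

set_option maxHeartbeats 400000

section

variable {G : ℂ[X]} {n : ℕ} {V : Set ℂ} {φ : Fin n → ℂ → ℂ} (H : Branches G V φ)
  {aa : Fin n → Fin n → ℂ → ℂ} (haa : ∀ i j, ∀ u ∈ V, Complex.exp (aa i j u) = psi φ i j 0 u)
  (h0V : (0 : ℂ) ∈ V)

include H haa h0V

omit H h0V in
theorem re_aa (i j : Fin n) {u : ℂ} (hu : u ∈ V) : (aa i j u).re = Real.log ‖psi φ i j 0 u‖ := by
  rw [← haa i j u hu, log_norm_exp]

omit H h0V in
theorem sub_eq_exp (k i : Fin n) {u : ℂ} (hu : u ∈ V) :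
    φ k u - φ i 0 = (if k = i then u else 1) * Complex.exp (aa k i u) := by
  rw [haa k i u hu]
  by_cases h : k = i
  · subst h
    rw [if_pos rfl, psi_self]
    have h1 := sub_smul_dslope (φ k) 0 u
    rw [sub_zero, smul_eq_mul] at h1
    exact h1.symm
  · rw [if_neg h, psi_ne h, one_mul]

omit haa in
theorem prod_sub (i : Fin n) {u : ℂ} (hu : u ∈ V) :
    ∏ k, (φ k u - φ i 0) = (-1) ^ n * -u := by
  have h1 := H.eval_sub_eq hu (φ i 0)
  rw [H.eval_branch i h0V, zero_sub] at h1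
  rw [h1]
  have h2 : ∀ k, φ k u - φ i 0 = -1 * (φ i 0 - φ k u) := fun k => by ring
  simp only [h2]
  rw [Finset.prod_mul_distrib, Finset.prod_const, Finset.card_univ, Fintype.card_fin]

end

/-- the matrix of the quadratic form -/
noncomputable def qf {n : ℕ} (φ : Fin n → ℂ → ℂ) (R : ℝ) (k i : Fin n) : ℝ :=
  -(Real.log ‖psi φ k i 0 0‖ + if k = i then Real.log R else 0)

theorem qf_symm {G : ℂ[X]} {n : ℕ} {V : Set ℂ} {φ : Fin n → ℂ → ℂ} (H : Branches G V φ) (R : ℝ)
    (k i : Fin n) : qf φ R k i = qf φ R i k := by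
  unfold qf
  rw [psi_comm H k i]
  by_cases h : k = i
  · rw [if_pos h, if_pos h.symm]
  · rw [if_neg h, if_neg fun e => h e.symm]

theorem qf_ineq {G : ℂ[X]} {n : ℕ} {V : Set ℂ} {φ : Fin n → ℂ → ℂ} (H : Branches G V φ) {R : ℝ}
    (hR : 0 < R) (hV : ∀ z : ℂ, ‖z‖ ≤ R → z ∈ V) {aa : Fin n → Fin n → ℂ → ℂ}
    (haad : ∀ i j, DifferentiableOn ℂ (aa i j) V)
    (haa : ∀ i j, ∀ u ∈ V, Complex.exp (aa i j u) = psi φ i j 0 u) (c : Fin n → ℝ)
    (hc : ∑ i, c i = 0) (M : ℕ) :
    ∑ i, ∑ m ∈ Finset.Icc 1 M, (m : ℝ) / 2 * ‖∑ j, (c j : ℂ) * fc R (aa i j) m‖ ^ 2 ≤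
      ∑ k, ∑ i, c k * c i * qf φ R k i := by
  refine (ineq1 H hR hV c hc haad (fun i j u hu => re_aa haa i j hu) M).trans (le_of_eq ?_)
  unfold qf
  have h1 : ∀ k i, c k * c i * -(Real.log ‖psi φ k i 0 0‖ + if k = i then Real.log R else 0) =
      -(c k * c i * Real.log ‖psi φ k i 0 0‖) - (if k = i then c k * c i * Real.log R else 0) := by
    intro k i
    by_cases h : k = i
    · rw [if_pos h, if_pos h]
      ring
    · rw [if_neg h, if_neg h]
      ring
  simp only [h1, Finset.sum_sub_distrib, Finset.sum_neg_distrib]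
  have h2 : ∑ k, ∑ i, c k * c i * Real.log ‖psi φ k i 0 0‖ =
      ∑ j, ∑ i, c i * c j * Real.log ‖psi φ i j 0 0‖ := Finset.sum_comm
  have h3 : ∑ k, ∑ i, (if k = i then c k * c i * Real.log R else 0) =
      Real.log R * ∑ i, c i ^ 2 := by
    rw [Finset.mul_sum]
    refine Finset.sum_congr rfl fun k _ => ?_
    rw [Finset.sum_ite_eq, if_pos (Finset.mem_univ k)]
    ring
  rw [h2, h3]
  ring

theorem sum_range_eq (f : ℕ → ℝ) (h0 : f 0 = 0) (M : ℕ) :
    ∑ m ∈ Finset.range (M + 1), f m = ∑ m ∈ Finset.Icc 1 M, f m := by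
  induction M with
  | zero => simp [h0]
  | succ M ih => rw [Finset.sum_range_succ, ih, Finset.sum_Icc_succ_top (by omega)]

section

variable {G G' : ℂ[X]} {p q : ℕ} {V V' : Set ℂ} {φ : Fin p → ℂ → ℂ} {φ' : Fin q → ℂ → ℂ}
  (H : Branches G V φ) (H' : Branches G' V' φ') {R R' : ℝ} (hR : 0 < R) (hR' : 0 < R')
  (hV : ∀ z : ℂ, ‖z‖ ≤ R → z ∈ V) (hV' : ∀ z : ℂ, ‖z‖ ≤ R' → z ∈ V') {κ : ℂ} (hκ0 : κ ≠ 0)

include H H' hR hR' hV hV' hκ0

omit hκ0 in
/-- **The expansion of the regulators.** -/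
theorem tendsto_reg (hκ0 : κ ≠ 0) (hκ' : ‖κ‖ < R') {aa : Fin p → Fin p → ℂ → ℂ}
    (haad : ∀ i j, DifferentiableOn ℂ (aa i j) V)
    (haa : ∀ i j, ∀ u ∈ V, Complex.exp (aa i j u) = psi φ i j 0 u) {bb : Fin q → Fin q → ℂ → ℂ}
    (hbbd : ∀ i j, DifferentiableOn ℂ (bb i j) V')
    (hbb : ∀ i j, ∀ u ∈ V', Complex.exp (bb i j u) = psi φ' i j 0 u) (T : Fin p → Fin q → ℝ)
    (k : Fin p) (l : Fin q) : Tendsto (fun M : ℕ => ∑ m ∈ Finset.Icc 1 M, (m : ℝ) *
      ((κ / R') ^ m * ∑ i, ∑ j, (T i j : ℂ) * fc R (aa k i) m * fc R' (bb l j) m).re) atTop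
      (𝓝 ((∑ i, qf φ R k i * T i l) + (∑ j, T k j * qf φ' R' j l) +
        (Real.log R' - Real.log ‖κ‖) * T k l - (2 * Real.pi)⁻¹ * ∑ i, ∑ j, T i j *
          pr (fun t => φ k (circ R t) - φ i 0) (fun t => φ' l (vv κ t) - φ' j 0))) := by
  have h0V := zero_mem' hR hV
  have h0V' := zero_mem' hR' hV'
  set z : ℂ := κ / R' with hz
  have hπ : (0 : ℝ) < 2 * Real.pi := by positivity
  -- the regulators
  set I : Fin p → Fin q → ℂ := fun i j =>
    ∫ t in (0 : ℝ)..1, deriv (fun t => aa k i (circ R t)) t * bb l j (vv κ t) with hI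
  have hpr : ∀ i j, pr (fun t => φ k (circ R t) - φ i 0) (fun t => φ' l (vv κ t) - φ' j 0) =
      2 * Real.pi * ((if k = i then (if l = j then -(Real.log R + Real.log ‖κ‖) else 0) else 0) -
        (if k = i then Real.log ‖psi φ' l j 0 0‖ else 0) -
        (if l = j then Real.log ‖psi φ k i 0 0‖ else 0)) - (I i j).im := by
    intro i j
    have h1 := pr_reg hR hR' hV hV' H.isOpen H'.isOpen (haad k i) (hbbd l j) hκ' hκ0
      (k = i) (l = j)
    rw [re_aa haa k i h0V, re_aa hbb l j h0V'] at h1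
    rw [← h1]
    congr 1
    · funext t
      exact sub_eq_exp haa k i (hV _ (norm_circ hR.le t).le)
    · funext t
      exact sub_eq_exp hbb l j (hV' _ (by rw [norm_vv]; exact hκ'.le))
  have hsum : ∀ i j, HasSum (fun m : ℕ => 2 * Real.pi * ((m : ℝ) *
      (z ^ m * (fc R (aa k i) m * fc R' (bb l j) m)).re)) (I i j).im := by
    intro i j
    have h1 := hasSum_mixed hR hR' hV hV' H.isOpen H'.isOpen (haad k i) (hbbd l j) hκ'
    have h2 := Complex.imCLM.hasSum h1
    have h4 : (fun m : ℕ => 2 * Real.pi * ((m : ℝ) *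
        (z ^ m * (fc R (aa k i) m * fc R' (bb l j) m)).re)) = fun m : ℕ =>
        (2 * (Real.pi : ℂ) * Complex.I * m * fc R (aa k i) m * (fc R' (bb l j) m * z ^ m)).im := by
      funext m
      have h3 : 2 * (Real.pi : ℂ) * Complex.I * m * fc R (aa k i) m * (fc R' (bb l j) m * z ^ m) =
          ((2 * Real.pi * m : ℝ) : ℂ) * (Complex.I * (z ^ m * (fc R (aa k i) m *
            fc R' (bb l j) m))) := by
        push_cast
        ring
      rw [h3, Complex.im_ofReal_mul, Complex.I_mul_im]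
      ring
    rw [h4]
    exact h2
  have hsum2 : HasSum (fun m : ℕ => ∑ i, ∑ j, T i j * (2 * Real.pi * ((m : ℝ) *
      (z ^ m * (fc R (aa k i) m * fc R' (bb l j) m)).re))) (∑ i, ∑ j, T i j * (I i j).im) :=
    hasSum_sum fun i _ => hasSum_sum fun j _ => (hsum i j).mul_left _
  have hval : ∑ i, ∑ j, T i j * (I i j).im = 2 * Real.pi *
      ((∑ i, qf φ R k i * T i l) + (∑ j, T k j * qf φ' R' j l) +
        (Real.log R' - Real.log ‖κ‖) * T k l - (2 * Real.pi)⁻¹ * ∑ i, ∑ j, T i j *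
          pr (fun t => φ k (circ R t) - φ i 0) (fun t => φ' l (vv κ t) - φ' j 0)) := by
    have e1 : ∑ i, ∑ j, T i j * (if k = i then (if l = j then -(Real.log R + Real.log ‖κ‖)
        else 0) else 0) = T k l * -(Real.log R + Real.log ‖κ‖) := by
      rw [Finset.sum_eq_single k, Finset.sum_eq_single l]
      · rw [if_pos rfl, if_pos rfl]
      · intro j _ hj
        rw [if_pos rfl, if_neg (Ne.symm hj), mul_zero]
      · intro hl
        exact absurd (Finset.mem_univ l) hl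
      · intro i _ hi
        refine Finset.sum_eq_zero fun j _ => ?_
        rw [if_neg (Ne.symm hi), mul_zero]
      · intro hk
        exact absurd (Finset.mem_univ k) hk
    have e2 : ∑ i, ∑ j, T i j * (if k = i then Real.log ‖psi φ' l j 0 0‖ else 0) =
        ∑ j, T k j * Real.log ‖psi φ' l j 0 0‖ := by
      rw [Finset.sum_eq_single k]
      · simp only [if_true]
      · intro i _ hi
        refine Finset.sum_eq_zero fun j _ => ?_
        rw [if_neg (Ne.symm hi), mul_zero]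
      · intro hk
        exact absurd (Finset.mem_univ k) hk
    have e3 : ∑ i, ∑ j, T i j * (if l = j then Real.log ‖psi φ k i 0 0‖ else 0) =
        ∑ i, T i l * Real.log ‖psi φ k i 0 0‖ := by
      refine Finset.sum_congr rfl fun i _ => ?_
      rw [Finset.sum_eq_single l]
      · rw [if_pos rfl]
      · intro j _ hj
        rw [if_neg (Ne.symm hj), mul_zero]
      · intro hl
        exact absurd (Finset.mem_univ l) hl
    have e4 : ∑ i, qf φ R k i * T i l =
        -(∑ i, T i l * Real.log ‖psi φ k i 0 0‖) - T k l * Real.log R := by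
      have h2 : ∀ i, qf φ R k i * T i l = -(T i l * Real.log ‖psi φ k i 0 0‖) -
          (if k = i then T i l * Real.log R else 0) := by
        intro i
        unfold qf
        by_cases hki : k = i
        · rw [if_pos hki, if_pos hki]
          ring
        · rw [if_neg hki, if_neg hki]
          ring
      simp only [h2, Finset.sum_sub_distrib, Finset.sum_neg_distrib, Finset.sum_ite_eq,
        Finset.mem_univ, if_true]
    have e5 : ∑ j, T k j * qf φ' R' j l =
        -(∑ j, T k j * Real.log ‖psi φ' l j 0 0‖) - T k l * Real.log R' := by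
      have h2 : ∀ j, T k j * qf φ' R' j l = -(T k j * Real.log ‖psi φ' l j 0 0‖) -
          (if l = j then T k j * Real.log R' else 0) := by
        intro j
        rw [qf_symm H' R' j l]
        unfold qf
        by_cases hlj : l = j
        · rw [if_pos hlj, if_pos hlj]
          ring
        · rw [if_neg hlj, if_neg hlj]
          ring
      simp only [h2, Finset.sum_sub_distrib, Finset.sum_neg_distrib, Finset.sum_ite_eq,
        Finset.mem_univ, if_true]
    have e6 : ∑ i, ∑ j, T i j * pr (fun t => φ k (circ R t) - φ i 0)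
        (fun t => φ' l (vv κ t) - φ' j 0) = 2 * Real.pi *
        ((∑ i, ∑ j, T i j * (if k = i then (if l = j then -(Real.log R + Real.log ‖κ‖)
        else 0) else 0)) - (∑ i, ∑ j, T i j * (if k = i then Real.log ‖psi φ' l j 0 0‖ else 0)) -
        (∑ i, ∑ j, T i j * (if l = j then Real.log ‖psi φ k i 0 0‖ else 0))) -
        ∑ i, ∑ j, T i j * (I i j).im := by
      simp only [hpr, Finset.mul_sum, ← Finset.sum_sub_distrib]
      refine Finset.sum_congr rfl fun i _ => Finset.sum_congr rfl fun j _ => ?_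
      ring
    rw [mul_sub, mul_inv_cancel_left₀ hπ.ne', e6, e1, e2, e3, e4, e5]
    ring
  have hterm : ∀ m : ℕ, ∑ i, ∑ j, T i j * (2 * Real.pi * ((m : ℝ) *
      (z ^ m * (fc R (aa k i) m * fc R' (bb l j) m)).re)) = 2 * Real.pi * ((m : ℝ) *
      (z ^ m * ∑ i, ∑ j, (T i j : ℂ) * fc R (aa k i) m * fc R' (bb l j) m).re) := by
    intro m
    have h2 : z ^ m * ∑ i, ∑ j, (T i j : ℂ) * fc R (aa k i) m * fc R' (bb l j) m =
        ∑ i, ∑ j, (T i j : ℂ) * (z ^ m * (fc R (aa k i) m * fc R' (bb l j) m)) := by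
      simp only [Finset.mul_sum]
      refine Finset.sum_congr rfl fun i _ => Finset.sum_congr rfl fun j _ => ?_
      ring
    rw [h2]
    simp only [Complex.re_sum, Complex.re_ofReal_mul, Finset.mul_sum]
    refine Finset.sum_congr rfl fun i _ => Finset.sum_congr rfl fun j _ => ?_
    ring
  simp only [hterm, hval] at hsum2
  have hsum3 := hsum2.mul_left (2 * Real.pi)⁻¹
  simp only [inv_mul_cancel_left₀ hπ.ne'] at hsum3
  have h4 := (hsum3.tendsto_sum_nat).comp (tendsto_add_atTop_nat 1)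
  refine h4.congr fun M => ?_
  simp only [Function.comp_apply]
  rw [sum_range_eq]
  rw [Nat.cast_zero, zero_mul]

/-- **Nonsingularity**, the transposed operator. -/
theorem nonsing_left (hκ : ‖κ‖ < R') (S : Fin p → Fin q → ℝ)
    (hS1 : ∀ j, ∑ i, S i j = 0) (hS2 : ∀ i, ∑ j, S i j = 0)
    (h : ∀ (c : Fin p → ℝ) (d : Fin q → ℝ), ∑ i, c i = 0 → ∑ j, d j = 0 →
      ∑ k, ∑ l, S k l * ∑ i, ∑ j, c i * d j * pr (fun t => φ k (circ R t) - φ i 0)
        (fun t => φ' l (vv κ t) - φ' j 0) = 0) : ∀ i j, S i j = 0 := by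
  have h0V := zero_mem' hR hV
  have h0V' := zero_mem' hR' hV'
  obtain ⟨aa, haad, haa⟩ := exists_logs H h0V
  obtain ⟨bb, hbbd, hbb⟩ := exists_logs H' h0V'
  have hκp : 0 < ‖κ‖ := norm_pos_iff.2 hκ0
  set z : ℂ := κ / R' with hz
  have hzn : ‖z‖ = ‖κ‖ / R' := by
    rw [hz, norm_div, Complex.norm_real, Real.norm_eq_abs, abs_of_pos hR']
  refine eq_zero_left (A := qf φ R) (B := qf φ' R') (α := fun m k i => fc R (aa k i) m)
    (β := fun m l j => fc R' (bb l j) m)
    (qf_ineq H hR hV haad haa) (qf_ineq H' hR' hV' hbbd hbb) (z := z)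
    (by rw [hzn]; exact ((div_lt_one hR').2 hκ).le)
    (ℓ := Real.log R' - Real.log ‖κ‖) (sub_pos.2 (Real.log_lt_log hκp hκ)) S hS1 hS2 ?_
  intro c d hc hd
  have h1 : ∀ k l, Tendsto (fun M : ℕ => S k l * ∑ m ∈ Finset.Icc 1 M, (m : ℝ) *
      (z ^ m * ∑ i, ∑ j, ((c i * d j : ℝ) : ℂ) * fc R (aa k i) m * fc R' (bb l j) m).re) atTop
      (𝓝 (S k l * _)) := fun k l =>
    (tendsto_reg H H' hR hR' hV hV' hκ0 hκ haad haa hbbd hbb (fun i j => c i * d j)
      k l).const_mul (S k l)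
  have h2 := tendsto_finsetSum Finset.univ fun k _ => tendsto_finsetSum Finset.univ
    fun l _ => h1 k l
  have e1 : ∀ (m : ℕ) (k : Fin p) (l : Fin q), z ^ m * ∑ i, ∑ j, ((c i * d j : ℝ) : ℂ) *
      fc R (aa k i) m * fc R' (bb l j) m = z ^ m * (∑ i, (c i : ℂ) * fc R (aa k i) m) *
        ∑ j, (d j : ℂ) * fc R' (bb l j) m := by
    intro m k l
    rw [mul_assoc, Finset.sum_mul_sum]
    congr 1
    refine Finset.sum_congr rfl fun i _ => Finset.sum_congr rfl fun j _ => ?_
    push_cast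
    ring
  have e2 : ∀ M : ℕ, ∑ k, ∑ l, S k l * ∑ m ∈ Finset.Icc 1 M, (m : ℝ) *
      (z ^ m * ∑ i, ∑ j, ((c i * d j : ℝ) : ℂ) * fc R (aa k i) m * fc R' (bb l j) m).re =
      ∑ m ∈ Finset.Icc 1 M, (m : ℝ) * ∑ k, ∑ l, S k l *
        (z ^ m * (∑ i, (c i : ℂ) * fc R (aa k i) m) * ∑ j, (d j : ℂ) *
          fc R' (bb l j) m).re := by
    intro M
    simp only [e1, Finset.mul_sum (Finset.univ : Finset (Fin p)) (fun k => ∑ l, S k l * _)]
    have e3 : ∀ k : Fin p, ∑ l, S k l * ∑ m ∈ Finset.Icc 1 M, (m : ℝ) *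
        (z ^ m * (∑ i, (c i : ℂ) * fc R (aa k i) m) * ∑ j, (d j : ℂ) *
          fc R' (bb l j) m).re = ∑ m ∈ Finset.Icc 1 M, (m : ℝ) * ∑ l, S k l *
        (z ^ m * (∑ i, (c i : ℂ) * fc R (aa k i) m) * ∑ j, (d j : ℂ) *
          fc R' (bb l j) m).re := by
      intro k
      have e4 : ∀ l : Fin q, S k l * ∑ m ∈ Finset.Icc 1 M, (m : ℝ) *
          (z ^ m * (∑ i, (c i : ℂ) * fc R (aa k i) m) * ∑ j, (d j : ℂ) *
            fc R' (bb l j) m).re = ∑ m ∈ Finset.Icc 1 M, (m : ℝ) * (S k l *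
          (z ^ m * (∑ i, (c i : ℂ) * fc R (aa k i) m) * ∑ j, (d j : ℂ) *
            fc R' (bb l j) m).re) := by
        intro l
        rw [Finset.mul_sum]
        exact Finset.sum_congr rfl fun m _ => by ring
      simp only [e4]
      rw [Finset.sum_comm]
      exact Finset.sum_congr rfl fun m _ => (Finset.mul_sum _ _ _).symm
    simp only [e3]
    rw [Finset.sum_comm]
  have e5 : ∑ k, ∑ l, S k l * ((∑ i, qf φ R k i * (c i * d l)) +
      (∑ j, c k * d j * qf φ' R' j l) + (Real.log R' - Real.log ‖κ‖) * (c k * d l) -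
      (2 * Real.pi)⁻¹ * ∑ i, ∑ j, c i * d j * pr (fun t => φ k (circ R t) - φ i 0)
        (fun t => φ' l (vv κ t) - φ' j 0)) = ∑ k, ∑ l, S k l * ((∑ i, qf φ R k i * c i) * d l +
        c k * (∑ j, qf φ' R' l j * d j) + (Real.log R' - Real.log ‖κ‖) * (c k * d l)) := by
    have e6 : ∀ k l, S k l * ((∑ i, qf φ R k i * (c i * d l)) +
        (∑ j, c k * d j * qf φ' R' j l) + (Real.log R' - Real.log ‖κ‖) * (c k * d l) -
        (2 * Real.pi)⁻¹ * ∑ i, ∑ j, c i * d j * pr (fun t => φ k (circ R t) - φ i 0)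
          (fun t => φ' l (vv κ t) - φ' j 0)) = S k l * ((∑ i, qf φ R k i * c i) * d l +
          c k * (∑ j, qf φ' R' l j * d j) + (Real.log R' - Real.log ‖κ‖) * (c k * d l)) -
        (2 * Real.pi)⁻¹ * (S k l * ∑ i, ∑ j, c i * d j *
          pr (fun t => φ k (circ R t) - φ i 0) (fun t => φ' l (vv κ t) - φ' j 0)) := by
      intro k l
      have e7 : ∑ i, qf φ R k i * (c i * d l) = (∑ i, qf φ R k i * c i) * d l := by
        rw [Finset.sum_mul]
        exact Finset.sum_congr rfl fun i _ => by ring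
      have e8 : ∑ j, c k * d j * qf φ' R' j l = c k * (∑ j, qf φ' R' l j * d j) := by
        rw [Finset.mul_sum]
        refine Finset.sum_congr rfl fun j _ => ?_
        rw [qf_symm H' R' j l]
        ring
      rw [e7, e8]
      ring
    simp only [e6, Finset.sum_sub_distrib, ← Finset.mul_sum]
    rw [h c d hc hd, mul_zero, sub_zero]
  have h3 := h2.congr e2
  rw [e5] at h3
  exact h3

omit H' hR' hV' hκ0 in
theorem nz_X (k i : Fin p) : NZ fun t => φ k (circ R t) - φ i 0 := by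
  refine ⟨(contDiff_gc hV (H.differentiableOn k) H.isOpen (contDiff_circ R)
    fun t => (norm_circ hR.le t).le).sub contDiff_const, fun t h => ?_⟩
  have h1 := (H.eq_of_eq (hV _ (norm_circ hR.le t).le) (zero_mem' hR hV) (sub_eq_zero.1 h)).2
  have h2 := norm_circ hR.le t
  rw [h1, norm_zero] at h2
  exact hR.ne h2

omit H hR hV in
theorem nz_Y (hκ : ‖κ‖ ≤ R') (l j : Fin q) : NZ fun t => φ' l (vv κ t) - φ' j 0 := by
  refine ⟨(contDiff_gc hV' (H'.differentiableOn l) H'.isOpen (contDiff_vv κ)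
    fun t => by rw [norm_vv]; exact hκ).sub contDiff_const, fun t h => ?_⟩
  have h1 := (H'.eq_of_eq (hV' _ (by rw [norm_vv]; exact hκ)) (zero_mem' hR' hV')
    (sub_eq_zero.1 h)).2
  exact (nz_vv hκ0).ne_zero t h1

theorem sum_k (hκ : ‖κ‖ ≤ R') (T : Fin p → Fin q → ℝ) (hT1 : ∀ j, ∑ i, T i j = 0) (l : Fin q) :
    ∑ k, ∑ i, ∑ j, T i j * pr (fun t => φ k (circ R t) - φ i 0)
      (fun t => φ' l (vv κ t) - φ' j 0) = 0 := by
  have h1 : ∀ i j, ∑ k, pr (fun t => φ k (circ R t) - φ i 0) (fun t => φ' l (vv κ t) - φ' j 0) =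
      -pr (fun t => φ' l (vv κ t) - φ' j 0) (fun t => (-1) ^ p * -circ R t) := by
    intro i j
    have e : (fun t => (-1) ^ p * -circ R t) = fun t => ∏ k, (φ k (circ R t) - φ i 0) := by
      funext t
      rw [prod_sub H (zero_mem' hR hV) i (hV _ (norm_circ hR.le t).le)]
    rw [e, pr_prod Finset.univ (nz_Y H' hR' hV' hκ0 hκ l j) fun k => nz_X H hR hV k i,
      ← Finset.sum_neg_distrib]
    exact Finset.sum_congr rfl fun k _ => pr_symm _ _
  have h2 : ∑ k, ∑ i, ∑ j, T i j * pr (fun t => φ k (circ R t) - φ i 0)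
      (fun t => φ' l (vv κ t) - φ' j 0) = ∑ i, ∑ j, T i j * ∑ k,
      pr (fun t => φ k (circ R t) - φ i 0) (fun t => φ' l (vv κ t) - φ' j 0) := by
    simp only [Finset.mul_sum]
    rw [Finset.sum_comm]
    exact Finset.sum_congr rfl fun i _ => Finset.sum_comm
  rw [h2]
  simp only [h1]
  rw [Finset.sum_comm]
  refine Finset.sum_eq_zero fun j _ => ?_
  rw [← Finset.sum_mul, hT1, zero_mul]

theorem sum_l (hκ : ‖κ‖ ≤ R') (T : Fin p → Fin q → ℝ) (hT2 : ∀ i, ∑ j, T i j = 0) (k : Fin p) :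
    ∑ l, ∑ i, ∑ j, T i j * pr (fun t => φ k (circ R t) - φ i 0)
      (fun t => φ' l (vv κ t) - φ' j 0) = 0 := by
  have h1 : ∀ i j, ∑ l, pr (fun t => φ k (circ R t) - φ i 0) (fun t => φ' l (vv κ t) - φ' j 0) =
      pr (fun t => φ k (circ R t) - φ i 0) (fun t => (-1) ^ q * -vv κ t) := by
    intro i j
    have e : (fun t => (-1) ^ q * -vv κ t) = fun t => ∏ l, (φ' l (vv κ t) - φ' j 0) := by
      funext t
      rw [prod_sub H' (zero_mem' hR' hV') j (hV' _ (by rw [norm_vv]; exact hκ))]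
    rw [e, pr_prod Finset.univ (nz_X H hR hV k i) fun l => nz_Y H' hR' hV' hκ0 hκ l j]
  have h2 : ∑ l, ∑ i, ∑ j, T i j * pr (fun t => φ k (circ R t) - φ i 0)
      (fun t => φ' l (vv κ t) - φ' j 0) = ∑ i, ∑ j, T i j * ∑ l,
      pr (fun t => φ k (circ R t) - φ i 0) (fun t => φ' l (vv κ t) - φ' j 0) := by
    simp only [Finset.mul_sum]
    rw [Finset.sum_comm]
    exact Finset.sum_congr rfl fun i _ => Finset.sum_comm
  rw [h2]
  simp only [h1]
  refine Finset.sum_eq_zero fun i _ => ?_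
  rw [← Finset.sum_mul, hT2, zero_mul]

end

/-- a function on `Fin (g + 1) × Fin (g' + 1)` with vanishing sums -/
theorem eq_zero_of_sub {g g' : ℕ} (P : Fin (g + 1) → Fin (g' + 1) → ℝ)
    (h1 : ∀ l, ∑ k, P k l = 0) (h2 : ∀ k, ∑ l, P k l = 0)
    (h : ∀ k l, P (Fin.castSucc k) (Fin.castSucc l) = 0) (k : Fin (g + 1)) (l : Fin (g' + 1)) :
    P k l = 0 := by
  have h3 : ∀ (k : Fin (g + 1)) (l : Fin g'), P k l.castSucc = 0 := by
    intro k l
    refine Fin.lastCases ?_ (fun k => h k l) k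
    have h4 := h1 l.castSucc
    rw [Fin.sum_univ_castSucc] at h4
    simpa only [h, Finset.sum_const_zero, zero_add] using h4
  refine Fin.lastCases ?_ (fun l => h3 k l) l
  have h4 := h2 k
  rw [Fin.sum_univ_castSucc] at h4
  simpa only [h3, Finset.sum_const_zero, zero_add] using h4

/-- The coefficients of a combination of the symbols. -/
noncomputable def dd {g : ℕ} (m : Fin g) (i : Fin (g + 1)) : ℝ :=
  (if i = m.castSucc then 1 else 0) - (if i = m.succ then 1 else 0)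

theorem sum_dd {g : ℕ} (m : Fin g) : ∑ i, dd m i = 0 := by
  unfold dd
  rw [Finset.sum_sub_distrib, Finset.sum_ite_eq', Finset.sum_ite_eq']
  simp

theorem sum_dd_mul {g : ℕ} (m : Fin g) (f : Fin (g + 1) → ℝ) :
    ∑ i, dd m i * f i = f m.castSucc - f m.succ := by
  unfold dd
  simp only [sub_mul, ite_mul, one_mul, zero_mul]
  rw [Finset.sum_sub_distrib, Finset.sum_ite_eq', Finset.sum_ite_eq']
  simp

/-- The differences are linearly independent. -/
theorem dd_inj {g : ℕ} (t : Fin g → ℝ) (h : ∀ i, ∑ m, t m * dd m i = 0) (m : Fin g) : t m = 0 := by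
  -- pair with the partial sums
  set f : Fin (g + 1) → ℝ := fun i => if (i : ℕ) ≤ m then 1 else 0 with hf
  have h1 : ∑ i, (∑ m, t m * dd m i) * f i = 0 := by
    refine Finset.sum_eq_zero fun i _ => ?_
    rw [h i, zero_mul]
  have h2 : ∑ i, (∑ m, t m * dd m i) * f i = ∑ m', t m' * (f m'.castSucc - f m'.succ) := by
    simp only [Finset.sum_mul]
    rw [Finset.sum_comm]
    refine Finset.sum_congr rfl fun m' _ => ?_
    rw [← sum_dd_mul m' f, Finset.mul_sum]
    exact Finset.sum_congr rfl fun i _ => by ring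
  rw [h2, Finset.sum_eq_single m] at h1
  · simp only [hf, Fin.val_castSucc, Fin.val_succ, le_refl, if_true] at h1
    rw [if_neg (by omega), sub_zero, mul_one] at h1
    exact h1
  · intro m' _ hm'
    have hne : (m' : ℕ) ≠ m := fun e => hm' (Fin.ext e)
    simp only [hf, Fin.val_castSucc, Fin.val_succ]
    by_cases hlt : (m' : ℕ) < m
    · rw [if_pos hlt.le, if_pos (by omega), sub_self, mul_zero]
    · rw [if_neg (by omega), if_neg (by omega), sub_self, mul_zero]
  · intro hm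
    exact absurd (Finset.mem_univ m) hm

end Pool.Agent.N686.DI
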