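import Pool.Agent.N686.DI.Ineq
import Pool.Agent.TH826.UH.Pair
set_option autoImplicit false

/-!
The regulator of two exponentials, and Fourier series.
-/

namespace Pool.Agent.N686.DI

open MeasureTheory Set Filter Topology Metric Polynomial

open Pool.Agent.TH826.MK (circ norm_circ circ_add_one contDiff_circ hasDerivAt_circ circ_eq)

open Pool.Agent.TH826.UH (pr NZ pr_mul pr_div pr_const ld_circ nz_circ)

open Pool.Agent.Y775.CC

open Pool.Agent.N686.EL (cs sn continuous_cs continuous_sn cs_zero circ_eq_mul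
  circ_one_pow_nat circ_one_pow_neg)

set_option maxHeartbeats 400000

/-- antisymmetry -/
theorem pr_symm (G H : ℝ → ℂ) : pr G H = -pr H G := by
  unfold pr
  rw [← intervalIntegral.integral_neg]
  refine intervalIntegral.integral_congr fun s _ => ?_
  ring

theorem NZ.cexp {f : ℝ → ℂ} (hf : ContDiff ℝ 2 f) : NZ fun t => Complex.exp (f t) :=
  ⟨hf.cexp, fun _ => Complex.exp_ne_zero _⟩

theorem ld_exp {f : ℝ → ℂ} (hf : ContDiff ℝ 2 f) (t : ℝ) :
    deriv (fun t => Complex.exp (f t)) t / Complex.exp (f t) = deriv f t := by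
  have h1 : HasDerivAt f (deriv f t) t := (hf.differentiable (by norm_num) t).hasDerivAt
  rw [h1.cexp.deriv, mul_div_cancel_left₀ _ (Complex.exp_ne_zero _)]

theorem log_norm_exp (z : ℂ) : Real.log ‖Complex.exp z‖ = z.re := by
  rw [Complex.norm_exp, Real.log_exp]

theorem im_int {f : ℝ → ℂ} (hf : Continuous f) :
    (∫ t in (0 : ℝ)..1, f t).im = ∫ t in (0 : ℝ)..1, (f t).im := by
  have h8 := Complex.imCLM.intervalIntegral_comp_comm (hf.intervalIntegrable (μ := volume) 0 1)
  simp only [Complex.imCLM_apply] at h8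
  exact h8.symm

/-- periodic functions: the integral of the derivative -/
theorem int_deriv {f : ℝ → ℂ} (hf : ContDiff ℝ 2 f) (hp : ∀ t, f (t + 1) = f t) :
    ∫ t in (0 : ℝ)..1, deriv f t = 0 := by
  have hc : Continuous (deriv f) := hf.continuous_deriv (by norm_num)
  rw [intervalIntegral.integral_deriv_eq_sub (fun t _ => hf.differentiable (by norm_num) t)
    (hc.intervalIntegrable _ _)]
  have h := hp 0
  rw [zero_add] at h
  rw [h, sub_self]

/-- integration by parts -/
theorem int_parts {f g : ℝ → ℂ} (hf : ContDiff ℝ 2 f) (hg : ContDiff ℝ 2 g)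
    (pf : ∀ t, f (t + 1) = f t) (pg : ∀ t, g (t + 1) = g t) :
    ∫ t in (0 : ℝ)..1, deriv f t * g t = -∫ t in (0 : ℝ)..1, f t * deriv g t := by
  have hcf : Continuous (deriv f) := hf.continuous_deriv (by norm_num)
  have hcg : Continuous (deriv g) := hg.continuous_deriv (by norm_num)
  have h1 := int_deriv (hf.mul hg) fun t => by rw [pf, pg]
  have h2 : ∀ t, deriv (fun t => f t * g t) t = deriv f t * g t + f t * deriv g t := fun t =>
    deriv_fun_mul (hf.differentiable (by norm_num) t) (hg.differentiable (by norm_num) t)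
  simp only [h2] at h1
  have c1 : Continuous fun t => deriv f t * g t := hcf.mul hg.continuous
  have c2 : Continuous fun t => f t * deriv g t := hf.continuous.mul hcg
  rw [intervalIntegral.integral_add (c1.intervalIntegrable _ _) (c2.intervalIntegrable _ _)] at h1
  exact eq_neg_of_add_eq_zero_left h1

/-- The regulator of two exponentials. -/
theorem pr_exp_exp {f g : ℝ → ℂ} (hf : ContDiff ℝ 2 f) (hg : ContDiff ℝ 2 g)
    (pf : ∀ t, f (t + 1) = f t) (pg : ∀ t, g (t + 1) = g t) :
    pr (fun t => Complex.exp (f t)) (fun t => Complex.exp (g t)) =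
      -(∫ t in (0 : ℝ)..1, deriv f t * g t).im := by
  have hcf : Continuous (deriv f) := hf.continuous_deriv (by norm_num)
  have hcg : Continuous (deriv g) := hg.continuous_deriv (by norm_num)
  have hrf : ContDiff ℝ 2 fun t => ((f t).re : ℂ) :=
    Complex.ofRealCLM.contDiff.comp (Complex.reCLM.contDiff.comp hf)
  have hdre : ∀ t, deriv (fun t => ((f t).re : ℂ)) t = ((deriv f t).re : ℂ) := by
    intro t
    have h1 : HasDerivAt f (deriv f t) t := (hf.differentiable (by norm_num) t).hasDerivAt
    have h2 : HasDerivAt (fun t => (f t).re) (deriv f t).re t :=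
      (Complex.reCLM.hasFDerivAt.comp_hasDerivAt t h1)
    exact (h2.ofReal_comp).deriv
  have h1 := int_parts hrf hg (fun t => by rw [pf]) pg
  simp only [hdre] at h1
  have k1 : Continuous fun t => ((deriv f t).re : ℂ) * g t :=
    (Complex.continuous_ofReal.comp (Complex.continuous_re.comp hcf)).mul hg.continuous
  have k2 : Continuous fun t => ((f t).re : ℂ) * deriv g t :=
    (Complex.continuous_ofReal.comp (Complex.continuous_re.comp hf.continuous)).mul hcg
  have h2 := congrArg Complex.im h1
  rw [Complex.neg_im, im_int k1, im_int k2] at h2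
  simp only [Complex.im_ofReal_mul] at h2
  have k3 : Continuous fun t => deriv f t * g t := hcf.mul hg.continuous
  rw [im_int k3]
  have r1 : Continuous fun t => (deriv f t).re * (g t).im :=
    (Complex.continuous_re.comp hcf).mul (Complex.continuous_im.comp hg.continuous)
  have r2 : Continuous fun t => (deriv f t).im * (g t).re :=
    (Complex.continuous_im.comp hcf).mul (Complex.continuous_re.comp hg.continuous)
  have r3 : Continuous fun t => (f t).re * (deriv g t).im :=
    (Complex.continuous_re.comp hf.continuous).mul (Complex.continuous_im.comp hcg)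
  have r4 : Continuous fun t => (g t).re * (deriv f t).im :=
    (Complex.continuous_re.comp hg.continuous).mul (Complex.continuous_im.comp hcf)
  unfold pr
  simp only [ld_exp hf, ld_exp hg, log_norm_exp, Complex.mul_im]
  rw [intervalIntegral.integral_sub (r3.intervalIntegrable _ _) (r4.intervalIntegrable _ _),
    intervalIntegral.integral_add (r1.intervalIntegrable _ _) (r2.intervalIntegrable _ _)]
  have h3 : ∫ t in (0 : ℝ)..1, (g t).re * (deriv f t).im =
      ∫ t in (0 : ℝ)..1, (deriv f t).im * (g t).re :=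
    intervalIntegral.integral_congr fun t _ => mul_comm _ _
  rw [h3]
  linarith

/-- The regulator of a function with constant modulus and constant angular velocity and of an
exponential. -/
theorem pr_const_exp {G g : ℝ → ℂ} {c d : ℝ} (hG : ∀ t, Real.log ‖G t‖ = c)
    (hG' : ∀ t, (deriv G t / G t).im = d) (hg : ContDiff ℝ 2 g) (pg : ∀ t, g (t + 1) = g t) :
    pr G (fun t => Complex.exp (g t)) = -(d * ∫ t in (0 : ℝ)..1, (g t).re) := by
  have hcg : Continuous (deriv g) := hg.continuous_deriv (by norm_num)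
  have r1 : Continuous fun t => c * (deriv g t).im :=
    continuous_const.mul (Complex.continuous_im.comp hcg)
  have r2 : Continuous fun t => (g t).re * d :=
    (Complex.continuous_re.comp hg.continuous).mul continuous_const
  unfold pr
  simp only [ld_exp hg, log_norm_exp, hG, hG']
  rw [intervalIntegral.integral_sub (r1.intervalIntegrable _ _) (r2.intervalIntegrable _ _),
    intervalIntegral.integral_const_mul, intervalIntegral.integral_mul_const]
  have h1 := im_int hcg
  rw [int_deriv hg pg, Complex.zero_im] at h1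
  rw [← h1]
  ring

/-- The bilinear expansion. -/
theorem pr_mul_mul {G G' H H' : ℝ → ℂ} (hG : NZ G) (hG' : NZ G') (hH : NZ H) (hH' : NZ H') :
    pr (fun t => G t * G' t) (fun t => H t * H' t) = pr G H + pr G H' + (pr G' H + pr G' H') := by
  rw [pr_mul (hG.mul hG') hH hH', pr_symm _ H, pr_symm _ H', pr_mul hH hG hG', pr_mul hH' hG hG',
    pr_symm G H, pr_symm G' H, pr_symm G H', pr_symm G' H']
  ring

section

variable {V : Set ℂ} {R : ℝ} (hR : 0 < R) (hV : ∀ z : ℂ, ‖z‖ ≤ R → z ∈ V) {g : ℂ → ℂ}
  (hg : DifferentiableOn ℂ g V)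

include hR hV hg

omit hR in
theorem contDiff_gc (hVo : IsOpen V) {w : ℝ → ℂ} (hw : ContDiff ℝ 2 w) (hwV : ∀ t, ‖w t‖ ≤ R) :
    ContDiff ℝ 2 fun t => g (w t) := by
  rw [contDiff_iff_contDiffAt]
  intro t
  have h1 : ContDiffAt ℂ 2 g (w t) :=
    (hg.analyticAt (hVo.mem_nhds (hV _ (hwV t)))).contDiffAt
  exact (h1.restrict_scalars ℝ).comp t hw.contDiffAt

omit hR hV hg in
theorem norm_fc_le {B : ℝ} (hB : ∀ t, ‖g (circ R t)‖ ≤ B) (n : ℕ) : ‖fc R g n‖ ≤ B := by
  unfold fc
  have h := intervalIntegral.norm_integral_le_of_norm_le_const (a := (0 : ℝ)) (b := 1) (C := B)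
    (f := fun t => g (circ R t) * ((cs n t : ℂ) - (sn n t : ℂ) * Complex.I)) fun t _ => by
      rw [← circ_one_pow_neg, norm_mul, norm_zpow, norm_circ one_pos.le, one_zpow, mul_one]
      exact hB t
  simpa using h

/-- The Taylor series. -/
theorem hasSum_fc {w : ℂ} (hw : ‖w‖ < R) : HasSum (fun n : ℕ => fc R g n * (w / R) ^ n) (g w) := by
  have h2 : DiffContOnCl ℂ g (ball 0 R) := by
    refine DifferentiableOn.diffContOnCl ?_
    rw [closure_ball _ hR.ne']
    exact hg.mono fun z hz => hV z (by simpa using hz)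
  have h3 : CircleIntegrable g 0 R := by
    refine ContinuousOn.circleIntegrable hR.le ?_
    refine h2.continuousOn.mono ?_
    rw [closure_ball _ hR.ne']
    exact sphere_subset_closedBall
  have h4 := hasSum_cauchyPowerSeries_integral h3 hw
  have h5 := h2.two_pi_i_inv_smul_circleIntegral_sub_inv_smul (w := w) (by simpa using hw)
  simp only [zero_add] at h4
  rw [h5] at h4
  have h6 : ∀ n, (cauchyPowerSeries g 0 R n fun _ => w) = fc R g n * (w / R) ^ n := by
    intro n
    rw [cauchyPowerSeries_apply]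
    have h7 : (∮ z in C(0, R), (w / (z - 0)) ^ n • (z - 0)⁻¹ • g z) =
        ∮ z in C(0, R), (z - 0)⁻¹ • ((w / z) ^ n * g z) := by
      congr 1
      funext z
      simp only [sub_zero, smul_eq_mul]
      ring
    rw [h7, ← Real.circleAverage_eq_circleIntegral hR.ne', circleAverage_eq_circ]
    unfold fc
    rw [← intervalIntegral.integral_mul_const]
    refine intervalIntegral.integral_congr fun t _ => ?_
    rw [← circ_one_pow_neg, circ_eq_mul, zpow_neg, zpow_natCast, mul_comm _ (circ 1 t), div_pow,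
      div_pow, mul_pow]
    have : (R : ℂ) ≠ 0 := by exact_mod_cast hR.ne'
    field_simp
  simpa only [h6] using h4

end

section

variable {V V' : Set ℂ} {R R' : ℝ} (hR : 0 < R) (hR' : 0 < R') (hV : ∀ z : ℂ, ‖z‖ ≤ R → z ∈ V)
  (hV' : ∀ z : ℂ, ‖z‖ ≤ R' → z ∈ V') (hVo : IsOpen V) (hVo' : IsOpen V') {a b : ℂ → ℂ}
  (ha : DifferentiableOn ℂ a V) (hb : DifferentiableOn ℂ b V') {κ : ℂ} (hκ : ‖κ‖ < R')

/-- the second loop -/
noncomputable def vv (κ : ℂ) (t : ℝ) : ℂ := κ / circ 1 t

theorem norm_vv (κ : ℂ) (t : ℝ) : ‖vv κ t‖ = ‖κ‖ := by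
  unfold vv
  rw [norm_div, norm_circ one_pos.le, div_one]

theorem vv_add_one (κ : ℂ) (t : ℝ) : vv κ (t + 1) = vv κ t := by
  unfold vv
  rw [circ_add_one]

theorem contDiff_vv (κ : ℂ) : ContDiff ℝ 2 (vv κ) := by
  unfold vv
  simp only [div_eq_mul_inv]
  exact contDiff_const.mul ((contDiff_circ 1).inv (nz_circ one_pos).ne_zero)

theorem nz_vv {κ : ℂ} (hκ : κ ≠ 0) : NZ (vv κ) :=
  ⟨contDiff_vv κ, fun t => div_ne_zero hκ ((nz_circ one_pos).ne_zero t)⟩

theorem ld_vv {κ : ℂ} (hκ : κ ≠ 0) (t : ℝ) : (deriv (vv κ) t / vv κ t).im = -(2 * Real.pi) := by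
  have h0 := (nz_circ one_pos).ne_zero t
  have h1 : HasDerivAt (vv κ) (κ * (-(2 * Real.pi * Complex.I * circ 1 t) / circ 1 t ^ 2)) t := by
    unfold vv
    simp only [div_eq_mul_inv κ]
    exact ((hasDerivAt_circ 1 t).inv h0).const_mul κ
  rw [h1.deriv]
  have h2 : κ * (-(2 * Real.pi * Complex.I * circ 1 t) / circ 1 t ^ 2) / vv κ t =
      ((-(2 * Real.pi) : ℝ) : ℂ) * Complex.I := by
    unfold vv
    push_cast
    simp only [Pi.inv_apply, Nat.add_sub_cancel, pow_succ]
    field_simp
  rw [h2, Complex.im_ofReal_mul, Complex.I_im, mul_one]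

/-- the negative harmonics -/
theorem deriv_inv_pow (n : ℕ) (t : ℝ) : deriv (fun t => (circ 1 t)⁻¹ ^ n) t =
    -(2 * Real.pi * Complex.I * n) * (circ 1 t)⁻¹ ^ n := by
  have h0 := (nz_circ one_pos).ne_zero t
  have h1 := ((hasDerivAt_circ 1 t).inv h0).pow n
  have h2 : HasDerivAt (fun t => (circ 1 t)⁻¹ ^ n) _ t := h1
  rw [h2.deriv]
  cases n with
  | zero => simp
  | succ n =>
    push_cast
    simp only [Pi.inv_apply, Nat.add_sub_cancel, pow_succ]
    field_simp

theorem contDiff_inv_pow (n : ℕ) : ContDiff ℝ 2 fun t => (circ 1 t)⁻¹ ^ n :=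
  ((contDiff_circ 1).inv (nz_circ one_pos).ne_zero).pow n

theorem fc_eq' (R : ℝ) (a : ℂ → ℂ) (n : ℕ) :
    fc R a n = ∫ t in (0 : ℝ)..1, a (circ R t) * (circ 1 t)⁻¹ ^ n := by
  unfold fc
  refine intervalIntegral.integral_congr fun t _ => ?_
  rw [← circ_one_pow_neg, zpow_neg, zpow_natCast, inv_pow]

include hR hV hVo ha

theorem int_deriv_fc (n : ℕ) :
    ∫ t in (0 : ℝ)..1, deriv (fun t => a (circ R t)) t * (circ 1 t)⁻¹ ^ n =
      2 * Real.pi * Complex.I * n * fc R a n := by
  have hf : ContDiff ℝ 2 fun t => a (circ R t) := contDiff_gc hV ha hVo (contDiff_circ R)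
    fun t => (norm_circ hR.le t).le
  rw [int_parts hf (contDiff_inv_pow n) (fun t => by rw [circ_add_one])
    (fun t => by rw [circ_add_one])]
  simp only [deriv_inv_pow]
  have h1 : ∀ t, a (circ R t) * (-(2 * Real.pi * Complex.I * n) * (circ 1 t)⁻¹ ^ n) =
      -(2 * Real.pi * Complex.I * n) * (a (circ R t) * (circ 1 t)⁻¹ ^ n) := fun t => by ring
  simp only [h1]
  rw [intervalIntegral.integral_const_mul, fc_eq']
  ring

include hR' hV' hVo' hb hκ

/-- **The series for the mixed term.** -/
theorem hasSum_mixed : HasSum (fun n : ℕ => 2 * Real.pi * Complex.I * n * fc R a n *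
    (fc R' b n * (κ / R') ^ n)) (∫ t in (0 : ℝ)..1, deriv (fun t => a (circ R t)) t *
      b (vv κ t)) := by
  have hf : ContDiff ℝ 2 fun t => a (circ R t) := contDiff_gc hV ha hVo (contDiff_circ R)
    fun t => (norm_circ hR.le t).le
  have hcf : Continuous (deriv fun t => a (circ R t)) := hf.continuous_deriv (by norm_num)
  obtain ⟨B, hB⟩ : ∃ B, ∀ t, ‖b (circ R' t)‖ ≤ B := by
    have hcb : ContinuousOn b (sphere 0 R') := hb.continuousOn.mono fun z hz => hV' z (by
      rw [mem_sphere_zero_iff_norm.1 hz])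
    obtain ⟨B, hB⟩ := (isCompact_sphere (0 : ℂ) R').exists_bound_of_continuousOn hcb
    exact ⟨B, fun t => hB _ (by rw [mem_sphere_zero_iff_norm, norm_circ hR'.le])⟩
  obtain ⟨D, hD⟩ := isCompact_Icc.exists_bound_of_continuousOn (s := Icc (0 : ℝ) 1)
    hcf.continuousOn
  have hB0 : 0 ≤ B := (norm_nonneg _).trans (hB 0)
  have hD0 : 0 ≤ D := (norm_nonneg _).trans (hD 0 (by simp))
  set r : ℝ := ‖κ‖ / R' with hr
  have hr0 : 0 ≤ r := by positivity
  have hr1 : r < 1 := (div_lt_one hR').2 hκ
  have hnorm : ∀ (n : ℕ) t, ‖(vv κ t / R') ^ n‖ = r ^ n := by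
    intro n t
    rw [norm_pow, norm_div, norm_vv, Complex.norm_real, Real.norm_eq_abs, abs_of_pos hR']
  have hvvc : Continuous (vv κ) := (contDiff_vv κ).continuous
  have key := intervalIntegral.hasSum_integral_of_dominated_convergence (μ := volume) (a := (0 : ℝ))
    (b := 1) (F := fun (n : ℕ) t => deriv (fun t => a (circ R t)) t *
      (fc R' b n * (vv κ t / R') ^ n)) (f := fun t => deriv (fun t => a (circ R t)) t * b (vv κ t))
    (bound := fun n _ => D * (B * r ^ n)) (fun n => by
      have h1 : Continuous fun t => deriv (fun t => a (circ R t)) t *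
          (fc R' b n * (vv κ t / R') ^ n) :=
        hcf.mul (continuous_const.mul ((hvvc.div_const _).pow n))
      exact h1.aestronglyMeasurable) (fun n => by
      refine Filter.Eventually.of_forall fun t ht => ?_
      have ht' : t ∈ Icc (0 : ℝ) 1 := by
        rw [uIoc_of_le zero_le_one] at ht
        exact ⟨ht.1.le, ht.2⟩
      rw [norm_mul, norm_mul, hnorm]
      exact mul_le_mul (hD t ht') (mul_le_mul_of_nonneg_right (norm_fc_le hB n)
        (pow_nonneg hr0 n)) (by positivity) hD0) (by
      refine Filter.Eventually.of_forall fun t _ => ?_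
      exact ((summable_geometric_of_lt_one hr0 hr1).mul_left B).mul_left D) (by
      exact intervalIntegrable_const) (by
      refine Filter.Eventually.of_forall fun t _ => ?_
      exact (hasSum_fc hR' hV' hb (w := vv κ t) (by rwa [norm_vv])).mul_left _)
  have h2 : ∀ n : ℕ, ∫ t in (0 : ℝ)..1, deriv (fun t => a (circ R t)) t *
      (fc R' b n * (vv κ t / R') ^ n) =
      2 * Real.pi * Complex.I * n * fc R a n * (fc R' b n * (κ / R') ^ n) := by
    intro n
    have h3 : ∀ t, deriv (fun t => a (circ R t)) t * (fc R' b n * (vv κ t / R') ^ n) =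
        deriv (fun t => a (circ R t)) t * (circ 1 t)⁻¹ ^ n * (fc R' b n * (κ / R') ^ n) := by
      intro t
      unfold vv
      ring
    simp only [h3]
    rw [intervalIntegral.integral_mul_const, int_deriv_fc hR hV hVo ha]
  simpa only [h2] using key

/-- **The regulator on a loop.** -/
theorem pr_reg (hκ0 : κ ≠ 0) (P P' : Prop) [Decidable P] [Decidable P'] :
    pr (fun t => (if P then circ R t else 1) * Complex.exp (a (circ R t)))
      (fun t => (if P' then vv κ t else 1) * Complex.exp (b (vv κ t))) =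
      2 * Real.pi * ((if P then (if P' then -(Real.log R + Real.log ‖κ‖) else 0) else 0) -
        (if P then (b 0).re else 0) - (if P' then (a 0).re else 0)) -
      (∫ t in (0 : ℝ)..1, deriv (fun t => a (circ R t)) t * b (vv κ t)).im := by
  have hf : ContDiff ℝ 2 fun t => a (circ R t) := contDiff_gc hV ha hVo (contDiff_circ R)
    fun t => (norm_circ hR.le t).le
  have hg : ContDiff ℝ 2 fun t => b (vv κ t) := contDiff_gc hV' hb hVo' (contDiff_vv κ)
    fun t => by rw [norm_vv]; exact hκ.le
  have pf : ∀ t, a (circ R (t + 1)) = a (circ R t) := fun t => by rw [circ_add_one]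
  have pg : ∀ t, b (vv κ (t + 1)) = b (vv κ t) := fun t => by rw [vv_add_one]
  have nu : NZ (circ R) := nz_circ hR
  have nv : NZ (vv κ) := nz_vv hκ0
  have ne : NZ fun t => Complex.exp (a (circ R t)) := NZ.cexp hf
  have nf : NZ fun t => Complex.exp (b (vv κ t)) := NZ.cexp hg
  have n1 : NZ fun _ : ℝ => (1 : ℂ) := ⟨contDiff_const, fun _ => one_ne_zero⟩
  have huL : ∀ t, Real.log ‖circ R t‖ = Real.log R := fun t => by rw [norm_circ hR.le]
  have hvL : ∀ t, Real.log ‖vv κ t‖ = Real.log ‖κ‖ := fun t => by rw [norm_vv]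
  -- the mean values
  have mf : ∫ t in (0 : ℝ)..1, (a (circ R t)).re = (a 0).re := mean_re hR hV ha hVo
  have mg : ∫ t in (0 : ℝ)..1, (b (vv κ t)).re = (b 0).re := by
    have h1 : ∀ t, vv κ t = κ * circ 1 (-t) := by
      intro t
      unfold vv
      rw [div_eq_mul_inv]
      congr 1
      unfold circ
      push_cast
      rw [one_mul, one_mul, ← Complex.exp_neg]
      congr 1
      ring
    have h2 : DifferentiableOn ℂ (fun z => b (κ * z)) ((fun z => κ * z) ⁻¹' V') :=
      hb.comp (by fun_prop) fun z hz => hz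
    have h3 := mean_re one_pos (V := (fun z => κ * z) ⁻¹' V') (fun z hz => by
      refine hV' _ ?_
      rw [norm_mul]
      have := norm_nonneg κ
      nlinarith) h2 (hVo'.preimage (by fun_prop))
    rw [mul_zero] at h3
    rw [← h3]
    simp only [h1]
    have h4 : ∫ t in (0 : ℝ)..1, (b (κ * circ 1 (-t))).re =
        ∫ t in (-1 : ℝ)..0, (b (κ * circ 1 t)).re := by
      have h5 := intervalIntegral.integral_comp_neg (a := (0 : ℝ)) (b := 1)
        (f := fun t => (b (κ * circ 1 t)).re)
      rw [neg_zero] at h5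
      exact h5
    rw [h4]
    have h6 : Function.Periodic (fun t => (b (κ * circ 1 t)).re) 1 := fun t => by
      simp only [circ_add_one]
    have h7 := h6.intervalIntegral_add_eq (-1) 0
    rw [neg_add_cancel, zero_add] at h7
    exact h7
  -- the four products
  have e1 : pr (circ R) (vv κ) = -(2 * Real.pi * (Real.log R + Real.log ‖κ‖)) := by
    unfold pr
    simp only [huL, hvL, ld_circ hR, ld_vv hκ0]
    simp
    ring
  have e2 : pr (circ R) (fun t => Complex.exp (b (vv κ t))) = -(2 * Real.pi * (b 0).re) := by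
    rw [pr_const_exp huL (ld_circ hR) hg pg, mg]
  have e3 : pr (fun t => Complex.exp (a (circ R t))) (vv κ) = -(2 * Real.pi * (a 0).re) := by
    rw [pr_symm, pr_const_exp hvL (ld_vv hκ0) hf pf, mf]
    ring
  have e4 := pr_exp_exp hf hg pf pg
  have z1 : ∀ G : ℝ → ℂ, pr G (fun _ => 1) = 0 := fun G => Pool.Agent.TH826.UH.pr_one
  have z2 : ∀ G : ℝ → ℂ, pr (fun _ => 1) G = 0 := fun G => by rw [pr_symm, z1, neg_zero]
  by_cases hP : P
  · by_cases hP' : P'
    · simp only [hP, hP', if_true]
      rw [pr_mul_mul nu ne nv nf, e1, e2, e3, e4]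
      ring
    · simp only [hP, hP', if_true, if_false]
      rw [pr_mul_mul nu ne n1 nf, e2, e4, z1, z1]
      ring
  · by_cases hP' : P'
    · simp only [hP, hP', if_true, if_false]
      rw [pr_mul_mul n1 ne nv nf, e3, e4, z2, z2]
      ring
    · simp only [hP, hP', if_false]
      rw [pr_mul_mul n1 ne n1 nf, e4, z1, z1, z2]
      ring

end

end Pool.Agent.N686.DI
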